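import Pool.Agent.Sigma57.Step

/-! Actions of elements of order `p` on the characters of two generated groups. -/

namespace Pool.Agent.Sigma57

open Subgroup

section Act

variable {G : Type*} [Group G] {p : ℕ} [hp : Fact p.Prime] {A : Type*} [AddCommGroup A]

/-- the difference operator -/
def dif (g : G) (f : G → A) : G → A := cj g f - f

omit hp in
lemma dif_zero (g : G) : dif g (0 : G → A) = 0 := by
  rw [dif, cj_zero, sub_zero]

omit hp in
lemma dif_add (g : G) (f f' : G → A) : dif g (f + f') = dif g f + dif g f' := by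
  rw [dif, dif, dif, cj_add]; abel

omit hp in
lemma dif_sub (g : G) (f f' : G → A) : dif g (f - f') = dif g f - dif g f' := by
  rw [dif, dif, dif, cj_sub]; abel

omit hp in
lemma dif_nsmul (g : G) (n : ℕ) (f : G → A) : dif g (n • f) = n • dif g f := by
  rw [dif, dif, cj_nsmul, smul_sub]

lemma dif_smul (g : G) (c : ZMod p) (f : G → ZMod p) : dif g (c • f) = c • dif g f := by
  rw [dif, dif, cj_smul, smul_sub]

omit hp in
lemma cj_eq_dif (g : G) (f : G → A) : cj g f = f + dif g f := by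
  rw [dif]; abel

omit hp in
lemma IsChar.dif {K : Subgroup G} {f : G → A} (h : IsChar K f) {g : G} (hg : Nz g K) :
    IsChar K (dif g f) := (h.cj hg).sub h

/-- nilpotency of the difference operator -/
lemma nilp_pow [Finite G] (hG : IsPGroup p G) (hp2 : p ≠ 2) (g : G) (k : ℕ) :
    ∃ m : ℕ, ∀ f : G → ZMod (p ^ k), (dif g)^[m] f = 0 := by
  obtain ⟨n, hn⟩ := isPGroup_iff_pow_pow_eq_one.mp hG g
  let C : AddMonoid.End (G → ZMod (p ^ k)) :=
    { toFun := cj g
      map_zero' := cj_zero g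
      map_add' := cj_add g }
  have hC : ∀ F, C F = cj g F := fun _ => rfl
  have mulap : ∀ (a b : AddMonoid.End (G → ZMod (p ^ k))) (F : G → ZMod (p ^ k)),
    (a * b) F = a (b F) := fun _ _ _ => rfl
  have addap : ∀ (a b : AddMonoid.End (G → ZMod (p ^ k))) (F : G → ZMod (p ^ k)),
    (a + b) F = a F + b F := fun _ _ _ => rfl
  have negap : ∀ (F : G → ZMod (p ^ k)), (-1 : AddMonoid.End (G → ZMod (p ^ k))) F = -F :=
    fun _ => rfl
  have oneap : ∀ (F : G → ZMod (p ^ k)), (1 : AddMonoid.End (G → ZMod (p ^ k))) F = F :=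
    fun _ => rfl
  have hCn : ∀ n : ℕ, ∀ F, (C ^ n) F = cj (g ^ n) F := by
    intro n
    induction n with
    | zero => intro F; simp [cj_one]
    | succ n ih =>
      intro F
      rw [pow_succ', mulap, ih, hC, pow_succ', cj_mul]
  have hT : ∀ n : ℕ, ∀ F, ((C + (-1)) ^ n) F = (dif g)^[n] F := by
    intro n
    induction n with
    | zero => intro F; simp
    | succ n ih =>
      intro F
      rw [pow_succ, mulap, ih, Function.iterate_succ_apply, addap, hC, negap, ← sub_eq_add_neg]
      rfl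
  have hC1 : C ^ p ^ n = 1 := by
    ext1 F
    rw [hCn, hn, cj_one, oneap]
  obtain ⟨r, hr⟩ := (Commute.neg_one_right C).exists_add_pow_prime_pow_eq hp.out n
  have hodd : Odd (p ^ n) := (hp.out.odd_of_ne_two hp2).pow
  rw [hC1, hodd.neg_one_pow, add_neg_cancel, zero_add, mul_assoc, mul_assoc] at hr
  refine ⟨p ^ n * k, fun f => ?_⟩
  rw [← hT, pow_mul, hr, (Nat.cast_commute p _).mul_pow, mulap]
  have h0 : ∀ F : G → ZMod (p ^ k), ((p : AddMonoid.End (G → ZMod (p ^ k))) ^ k) F = 0 := by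
    intro F
    rw [← Nat.cast_pow, AddMonoid.End.natCast_apply]
    ext x
    rw [Pi.smul_apply, nsmul_eq_mul, ZMod.natCast_self, zero_mul]
    rfl
  exact h0 _

/-- two generated: square of the difference operator is zero modulo `p` -/
lemma dif2_aux {x y g : G} {K : Subgroup G} (hK : closure {x, y} = K) (hg : Nz g K) (m : ℕ) :
    ∀ f : G → ZMod p, IsChar K f → (dif g)^[m] f = 0 → dif g (dif g f) = 0 := by
  induction m with
  | zero =>
    intro f _ h0
    have : f = 0 := h0
    rw [this, dif_zero, dif_zero]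
  | succ m ih =>
    intro f hf h0
    rw [Function.iterate_succ_apply] at h0
    set f1 := dif g f with hf1
    set f0 := dif g f1 with hf0
    have hc1 : IsChar K f1 := hf.dif hg
    have hc0 : IsChar K f0 := hc1.dif hg
    have h1 : dif g f0 = 0 := ih f1 hc1 h0
    by_contra hne
    have hext : ∀ F : G → ZMod p, IsChar K F → F x = 0 → F y = 0 → F = 0 := by
      intro F hF hx hy
      subst hK
      exact hF.ext_pair (IsChar.zero _) hx hy
    -- the determinant
    have hΔ : f0 x * f1 y - f0 y * f1 x ≠ 0 := by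
      intro hΔ
      have e1 : f1 x • f0 - f0 x • f1 = 0 := by
        apply hext _ ((hc0.smul _).sub (hc1.smul _))
        · simp [mul_comm]
        · simp only [Pi.sub_apply, Pi.smul_apply, smul_eq_mul]
          linear_combination -hΔ
      have e2 : f1 y • f0 - f0 y • f1 = 0 := by
        apply hext _ ((hc0.smul _).sub (hc1.smul _))
        · simp only [Pi.sub_apply, Pi.smul_apply, smul_eq_mul]
          linear_combination hΔ
        · simp [mul_comm]
      have e3 := congrArg (dif g) e1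
      rw [dif_sub, dif_smul, dif_smul, h1, ← hf0, smul_zero, zero_sub, dif_zero, neg_eq_zero] at e3
      have e4 := congrArg (dif g) e2
      rw [dif_sub, dif_smul, dif_smul, h1, ← hf0, smul_zero, zero_sub, dif_zero, neg_eq_zero] at e4
      apply hne
      apply hext f0 hc0
      · exact (smul_eq_zero.mp e3).resolve_right hne
      · exact (smul_eq_zero.mp e4).resolve_right hne
    have e1 : (f0 x * f1 y - f0 y * f1 x) • f - (f x * f1 y - f y * f1 x) • f0 -
        (f0 x * f y - f0 y * f x) • f1 = 0 := by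
      apply hext _ (((hf.smul _).sub (hc0.smul _)).sub (hc1.smul _))
      · simp only [Pi.sub_apply, Pi.smul_apply, smul_eq_mul]; ring
      · simp only [Pi.sub_apply, Pi.smul_apply, smul_eq_mul]; ring
    have e2 := congrArg (dif g) e1
    rw [dif_sub, dif_sub, dif_smul, dif_smul, dif_smul, h1, ← hf0, ← hf1, smul_zero, sub_zero,
      dif_zero] at e2
    have e3 := congrArg (dif g) e2
    rw [dif_sub, dif_smul, dif_smul, h1, ← hf0, smul_zero, sub_zero, dif_zero] at e3
    exact hne ((smul_eq_zero.mp e3).resolve_left hΔ)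

lemma dif2_zero [Finite G] (hG : IsPGroup p G) (hp2 : p ≠ 2) {x y g : G} {K : Subgroup G}
    (hK : closure {x, y} = K) (hg : Nz g K) {f : G → ZMod p} (hf : IsChar K f) :
    dif g (dif g f) = 0 := by
  obtain ⟨m, hm⟩ := nilp_pow hG hp2 g 1
  rw [pow_one] at hm
  exact dif2_aux hK hg m f hf (hm f)

/-- embedding of `ZMod p` as the `p`-torsion of `ZMod (p ^ k)` -/
lemma exists_iota {k : ℕ} (hk : 1 ≤ k) : ∃ ι : ZMod p →+ ZMod (p ^ k),
    Function.Injective ι ∧ ∀ v : ZMod (p ^ k), p • v = 0 → ∃ w, ι w = v := by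
  obtain ⟨k, rfl⟩ := Nat.exists_eq_add_of_le' hk
  let f : ℤ →+ ZMod (p ^ (k + 1)) := zmultiplesHom _ ((p ^ k : ℕ) : ZMod (p ^ (k + 1)))
  have hf : ∀ n : ℤ, f n = ((n * (p ^ k : ℕ) : ℤ) : ZMod (p ^ (k + 1))) := by
    intro n
    simp [f]
  have hfp : f p = 0 := by
    rw [hf, ZMod.intCast_zmod_eq_zero_iff_dvd]
    push_cast
    rw [pow_succ, mul_comm]
  refine ⟨ZMod.lift p ⟨f, hfp⟩, ?_, ?_⟩
  · rw [ZMod.lift_injective]
    intro m hm
    rw [hf, ZMod.intCast_zmod_eq_zero_iff_dvd] at hm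
    rw [ZMod.intCast_zmod_eq_zero_iff_dvd]
    push_cast at hm
    rw [pow_succ, mul_comm m] at hm
    exact Int.dvd_of_mul_dvd_mul_left
      (pow_ne_zero _ (Int.natCast_ne_zero.mpr hp.out.ne_zero)) hm
  · intro v hv
    have h0 : NeZero (p ^ (k + 1)) := ⟨(Nat.pow_pos hp.out.pos).ne'⟩
    have h1 : ((p * v.val : ℕ) : ZMod (p ^ (k + 1))) = 0 := by
      rw [Nat.cast_mul, ZMod.natCast_zmod_val, ← nsmul_eq_mul, hv]
    rw [ZMod.natCast_eq_zero_iff] at h1
    obtain ⟨i, hi⟩ : p ^ k ∣ v.val := by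
      generalize v.val = w at h1
      rw [pow_succ'] at h1
      exact Nat.dvd_of_mul_dvd_mul_left hp.out.pos h1
    refine ⟨((i : ℤ) : ZMod p), ?_⟩
    rw [ZMod.lift_coe]
    show f i = v
    rw [hf, ← ZMod.natCast_zmod_val v, hi]
    push_cast
    ring

/-- the same for torsion characters -/
lemma dif2_tors [Finite G] (hG : IsPGroup p G) (hp2 : p ≠ 2) {x y g : G} {K : Subgroup G}
    (hK : closure {x, y} = K) (hg : Nz g K) {k : ℕ} (hk : 1 ≤ k) {f : G → ZMod (p ^ k)}
    (hf : IsChar K f) (hpf : p • f = 0) : dif g (dif g f) = 0 := by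
  obtain ⟨ι, hι, hιs⟩ := exists_iota (p := p) hk
  have h1 : ∀ z, ∃ w, ι w = f z := by
    intro z
    apply hιs
    have := congrFun hpf z
    simpa using this
  choose F hF using h1
  have hFc : IsChar K F := by
    constructor
    · intro a ha b hb
      apply hι
      rw [map_add, hF, hF, hF, hf.mul a ha b hb]
    · intro a ha
      apply hι
      rw [hF, hf.out a ha, map_zero]
  have h2 := dif2_zero hG hp2 hK hg hFc
  ext z
  have h3 : ∀ (F' : G → ZMod p) (z : G), ι (dif g F' z) = dif g (fun z => ι (F' z)) z := by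
    intro F' z
    simp only [dif, Pi.sub_apply, cj_apply, map_sub]
  have h4 : f = fun z => ι (F z) := by ext z; rw [hF]
  have h5 : dif g f = fun z => ι (dif g F z) := by ext z; rw [h3, h4]
  rw [h5, ← h3, h2]
  simp

omit hp in
/-- powers of `g` act by the binomial formula -/
lemma cj_pow4 {g : G} {f : G → A} (h4 : dif g (dif g (dif g (dif g f))) = 0) (n : ℕ) :
    cj (g ^ n) f = f + n • dif g f + (n.choose 2) • dif g (dif g f) +
      (n.choose 3) • dif g (dif g (dif g f)) := by
  induction n with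
  | zero => simp [cj_one]
  | succ n ih =>
    rw [pow_succ', cj_mul, ih, cj_eq_dif g (f + _ + _ + _), dif_add, dif_add, dif_add, dif_nsmul,
      dif_nsmul, dif_nsmul, h4, smul_zero, add_zero]
    have e2 : (n + 1).choose 2 = n + n.choose 2 := by
      rw [Nat.choose_succ_succ' n 1, Nat.choose_one_right]
    have e3 : (n + 1).choose 3 = n.choose 2 + n.choose 3 := by
      rw [Nat.choose_succ_succ' n 2]
    rw [e2, e3, add_smul, add_smul, add_smul, one_smul]
    abel

lemma cj_p (hp5 : 5 ≤ p) {g : G} {f : G → A} (h4 : dif g (dif g (dif g (dif g f))) = 0)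
    (h2 : p • dif g (dif g f) = 0) : cj (g ^ p) f = f + p • dif g f := by
  rw [cj_pow4 h4]
  obtain ⟨a, ha⟩ : p ∣ p.choose 2 := hp.out.dvd_choose_self (by norm_num) (by omega)
  obtain ⟨b, hb⟩ : p ∣ p.choose 3 := hp.out.dvd_choose_self (by norm_num) (by omega)
  have h3 : p • dif g (dif g (dif g f)) = 0 := by
    rw [← dif_nsmul, h2, dif_zero]
  rw [ha, hb, mul_comm p a, mul_comm p b, mul_smul, mul_smul, h2, h3]
  simp

/-- `p T = 0` for elements of order `p` -/
lemma p_dif_zero [Finite G] (hG : IsPGroup p G) (hp5 : 5 ≤ p) {x y g : G} {K : Subgroup G}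
    (hK : closure {x, y} = K) (hg : Nz g K) (hgp : g ^ p ∈ K) {k : ℕ} (hk : 1 ≤ k)
    {f : G → ZMod (p ^ k)} (hf : IsChar K f) : p • dif g f = 0 := by
  have key : ∀ m : ℕ, ∀ f : G → ZMod (p ^ k), IsChar K f → (dif g)^[m] f = 0 →
      p • dif g f = 0 := by
    intro m
    induction m with
    | zero =>
      intro f _ h0
      have : f = 0 := h0
      rw [this, dif_zero, smul_zero]
    | succ m ih =>
      intro f hf h0
      rw [Function.iterate_succ_apply] at h0
      have h1 : p • dif g (dif g f) = 0 := ih _ (hf.dif hg) h0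
      have h2 := dif2_tors hG (by omega) hK hg hk ((hf.dif hg).dif hg) h1
      have h3 := cj_p hp5 h2 h1
      rw [hf.cj_self hgp] at h3
      exact (add_eq_left.mp h3.symm)
  obtain ⟨m, hm⟩ := nilp_pow hG (by omega) g k
  exact key m f hf (hm f)

/-- action of `g ^ p` on characters with values in `ZMod (p ^ 2)` -/
lemma cj_p_sq [Finite G] (hG : IsPGroup p G) (hp5 : 5 ≤ p) {x y g : G} {K : Subgroup G}
    (hK : closure {x, y} = K) (hg : Nz g K) {f : G → ZMod (p ^ 2)} (hf : IsChar K f) :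
    cj (g ^ p) f = f + p • dif g f := by
  have h0 : p • (p • f) = 0 := by
    rw [smul_smul, ← pow_two]
    ext z
    simp
  have h1 : p • dif g (dif g f) = 0 := by
    rw [← dif_nsmul, ← dif_nsmul]
    exact dif2_tors hG (by omega) hK hg (by norm_num) (hf.nsmul p) h0
  have h2 := dif2_tors hG (by omega) hK hg (by norm_num) ((hf.dif hg).dif hg) h1
  exact cj_p hp5 h2 h1

/-- `g ^ p` acts trivially on characters with values in `ZMod p` -/
lemma cj_p_one [Finite G] (hG : IsPGroup p G) (hp2 : p ≠ 2) {x y g : G} {K : Subgroup G}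
    (hK : closure {x, y} = K) (hg : Nz g K) {f : G → ZMod p} (hf : IsChar K f) (n : ℕ) :
    cj (g ^ n) f = f + n • dif g f := by
  have h2 := dif2_zero hG hp2 hK hg hf
  apply cj_pow_lin
  show cj g (dif g f) = dif g f
  rw [cj_eq_dif g (dif g f), h2, add_zero]

end Act

section Ex

variable {G : Type*} [Group G] {p : ℕ} [hp : Fact p.Prime]

/-- existence of a character of a cyclic quotient -/
lemma exists_exchar {K R : Subgroup G} {s : G} {k : ℕ} (hk : 1 ≤ k) (hs : s ∈ R) (hKR : K ≤ R)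
    (hn : Nz s K) (h1 : s ^ p ^ k ∈ K) (h2 : s ^ p ^ (k - 1) ∉ K)
    (hgen : ∀ x ∈ R, ∃ j : ℤ, ∃ y ∈ K, x = s ^ j * y) :
    ∃ μ : G → ZMod (p ^ k), IsChar R μ ∧ (∀ (j : ℤ), ∀ y ∈ K, μ (s ^ j * y) = j) ∧
      ∀ x ∈ R, (μ x = 0 ↔ x ∈ K) := by
  classical
  let f : G → ZMod (p ^ k) := fun x =>
    if hx : x ∈ R then ((Classical.choose (hgen x hx) : ℤ) : ZMod (p ^ k)) else 0
  have hf : ∀ (j : ℤ), ∀ y ∈ K, f (s ^ j * y) = j := by
    intro j y hy
    have hx : s ^ j * y ∈ R := R.mul_mem (R.zpow_mem hs j) (hKR hy)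
    simp only [f, hx, dif_pos]
    obtain ⟨y', hy', heq⟩ := Classical.choose_spec (hgen _ hx)
    set i := Classical.choose (hgen _ hx) with hi
    have h3 : s ^ (j - i) ∈ K := by
      have h4 : s ^ (j - i) = y' * y⁻¹ := by
        have h5 : s ^ (-i) * (s ^ j * y) * y⁻¹ = s ^ (-i) * (s ^ i * y') * y⁻¹ := by rw [heq]
        have h6 : s ^ (-i) * (s ^ j * y) * y⁻¹ = s ^ (j - i) := by
          rw [show j - i = -i + j by ring, zpow_add]; group
        have h7 : s ^ (-i) * (s ^ i * y') * y⁻¹ = y' * y⁻¹ := by group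
        rw [← h6, h5, h7]
      rw [h4]
      exact K.mul_mem hy' (K.inv_mem hy)
    have h4 := dvd_of_zpow_mem' hk h1 h2 h3
    have h5 : ((j - i : ℤ) : ZMod (p ^ k)) = 0 := by
      rw [ZMod.intCast_zmod_eq_zero_iff_dvd]; exact h4
    rw [Int.cast_sub, sub_eq_zero] at h5
    exact h5.symm
  refine ⟨f, ⟨?_, ?_⟩, hf, ?_⟩
  · intro x hx y hy
    obtain ⟨i, a, ha, rfl⟩ := hgen x hx
    obtain ⟨j, b, hb, rfl⟩ := hgen y hy
    have h3 : s ^ i * a * (s ^ j * b) = s ^ (i + j) * ((s ^ j)⁻¹ * a * s ^ j * b) := by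
      rw [zpow_add]; group
    rw [h3, hf _ _ (K.mul_mem ((hn.zpow j).conj ha) hb), hf _ _ ha, hf _ _ hb]
    push_cast; ring
  · intro x hx
    simp only [f, hx, dif_neg, not_false_eq_true]
  · intro x hx
    obtain ⟨i, a, ha, rfl⟩ := hgen x hx
    rw [hf _ _ ha, ZMod.intCast_zmod_eq_zero_iff_dvd]
    constructor
    · rintro ⟨e, rfl⟩
      refine K.mul_mem ?_ ha
      rw [zpow_mul, zpow_natCast]
      exact K.zpow_mem h1 e
    · intro h3
      have h4 : s ^ i ∈ K := by
        have := K.mul_mem h3 (K.inv_mem ha)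
        simpa using this
      exact_mod_cast dvd_of_zpow_mem' hk h1 h2 h4

end Ex

end Pool.Agent.Sigma57
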