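import Pool.Agent.Sigma57.Defs

namespace Pool.Agent.Sigma57

open Subgroup

section Tools

variable {G : Type*} [Group G] [Finite G] {p : ℕ} [hp : Fact p.Prime]

/-- orders of subgroups of a finite `p`-group are powers of `p` -/
lemma card_pow (hG : IsPGroup p G) (H : Subgroup G) : ∃ n : ℕ, Nat.card H = p ^ n :=
  IsPGroup.iff_card.mp (hG.to_subgroup H)

/-- two powers of `p`, one smaller than the other -/
lemma pow_step {a b m n : ℕ} (ha : a = p ^ m) (hb : b = p ^ n) (h : a < b) : p * a ≤ b := by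
  subst ha hb
  have h1 : m < n := (Nat.pow_lt_pow_iff_right hp.out.one_lt).mp h
  calc p * p ^ m = p ^ (m + 1) := by ring
    _ ≤ p ^ n := Nat.pow_le_pow_right hp.out.pos h1

/-- a proper subgroup of a finite group has smaller order -/
lemma card_lt {A B : Subgroup G} (h : A < B) : Nat.card A < Nat.card B := by
  rcases lt_or_ge (Nat.card A) (Nat.card B) with h1 | h1
  · exact h1
  · exact absurd (Subgroup.eq_of_le_of_card_ge h.le h1) h.ne

lemma card_step (hG : IsPGroup p G) {A B : Subgroup G} (h : A < B) :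
    p * Nat.card A ≤ Nat.card B := by
  obtain ⟨m, hm⟩ := card_pow hG A
  obtain ⟨n, hn⟩ := card_pow hG B
  exact pow_step hm hn (card_lt h)

/-- every proper subgroup lies in a subgroup of index `p` -/
lemma exists_max (hG : IsPGroup p G) {H K : Subgroup G} (h : H < K) :
    ∃ M : Subgroup G, H ≤ M ∧ M ≤ K ∧ Nat.card K = p * Nat.card M := by
  obtain ⟨m, hm⟩ := card_pow hG H
  obtain ⟨n, hn⟩ := card_pow hG K
  have hmn : m < n := by
    have := card_lt h
    rw [hm, hn] at this
    exact (Nat.pow_lt_pow_iff_right hp.out.one_lt).mp this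
  obtain ⟨n', rfl⟩ : ∃ n', n = n' + 1 := ⟨n - 1, by omega⟩
  have hcard : Nat.card (H.subgroupOf K) = p ^ m := by
    rw [← hm]
    exact Nat.card_congr (Subgroup.subgroupOfEquivOfLe h.le).toEquiv
  obtain ⟨M, hM, hHM⟩ := Sylow.exists_subgroup_card_pow_prime_le (G := K) p (m := n')
    (by rw [hn]; exact pow_dvd_pow _ (by omega)) (H.subgroupOf K) hcard (by omega)
  refine ⟨M.map K.subtype, ?_, ?_, ?_⟩
  · intro x hx
    exact ⟨⟨x, h.le hx⟩, hHM (by simpa [Subgroup.mem_subgroupOf] using hx), rfl⟩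
  · rintro x ⟨y, _, rfl⟩
    exact y.2
  · rw [hn, Subgroup.card_map_of_injective K.subtype_injective, hM]
    ring

/-- a subgroup of index `p` of a finite `p`-group is the kernel of a homomorphism to `ZMod p` -/
lemma exists_hom (hG : IsPGroup p G) {M K : Subgroup G} (hMK : M ≤ K)
    (hc : Nat.card K = p * Nat.card M) :
    ∃ ψ : K →* Multiplicative (ZMod p), ∀ x : K, ψ x = 1 ↔ (x : G) ∈ M := by
  have hM0 : 0 < Nat.card M := Nat.card_pos
  have hcard : Nat.card (M.subgroupOf K) = Nat.card M :=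
    Nat.card_congr (Subgroup.subgroupOfEquivOfLe hMK).toEquiv
  have hidx : (M.subgroupOf K).index = p := by
    have h1 := Subgroup.card_mul_index (M.subgroupOf K)
    rw [hcard, hc, mul_comm] at h1
    exact Nat.eq_of_mul_eq_mul_right hM0 h1
  obtain ⟨n, hn⟩ := card_pow hG K
  have hn0 : n ≠ 0 := by
    rintro rfl
    have h2 := hp.out.one_lt
    have : p * Nat.card M = 1 := by rw [← hc, hn, pow_zero]
    have := Nat.eq_one_of_mul_eq_one_right this
    omega
  have hnor : (M.subgroupOf K).Normal := by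
    apply Subgroup.normal_of_index_eq_minFac_card
    rw [hidx, hn, Nat.pow_minFac hn0, hp.out.minFac_eq]
  have hq : Nat.card (K ⧸ M.subgroupOf K) = p := by
    rw [← hidx]; rfl
  have hz : Nat.card (Multiplicative (ZMod p)) = p := by
    simp
  let e := mulEquivOfPrimeCardEq hq hz
  refine ⟨e.toMonoidHom.comp (QuotientGroup.mk' (M.subgroupOf K)), fun x => ?_⟩
  simp only [MonoidHom.comp_apply, MulEquiv.coe_toMonoidHom, EmbeddingLike.map_eq_one_iff,
    QuotientGroup.mk'_apply, QuotientGroup.eq_one_iff, Subgroup.mem_subgroupOf]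

omit [Finite G] in
/-- homomorphisms from a two generated group are determined by two values -/
lemma hom_ext {K : Subgroup G} {a b : G} (hK : closure {a, b} = K) (ha : a ∈ K) (hb : b ∈ K)
    {A : Type*} [Group A] (f g : K →* A) (h1 : f ⟨a, ha⟩ = g ⟨a, ha⟩)
    (h2 : f ⟨b, hb⟩ = g ⟨b, hb⟩) : f = g := by
  have h : closure {a, b} ≤ (f.eqLocus g).map K.subtype := by
    rw [Subgroup.closure_le]
    rintro x (rfl | rfl)
    · exact ⟨⟨x, ha⟩, h1, rfl⟩
    · exact ⟨⟨x, hb⟩, h2, rfl⟩
  ext x
  obtain ⟨y, hy, hyx⟩ := h (show (x : G) ∈ closure {a, b} by rw [hK]; exact x.2)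
  have : y = x := Subtype.ext hyx
  rw [← this]
  exact hy

/-- in a two generated `p`-group `⟨a, b⟩` at most one subgroup of index `p` contains `a` -/
lemma unique_max (hG : IsPGroup p G) {K : Subgroup G} {a b : G} (hK : closure {a, b} = K)
    {M M' : Subgroup G} (hM : M ≤ K) (hM' : M' ≤ K) (hc : Nat.card K = p * Nat.card M)
    (hc' : Nat.card K = p * Nat.card M') (ha : a ∈ M) (ha' : a ∈ M') : M = M' := by
  have hp1 := hp.out.one_lt
  have haK : a ∈ K := hM ha
  have hbK : b ∈ K := hK ▸ Subgroup.subset_closure (by simp)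
  obtain ⟨ψ, hψ⟩ := exists_hom hG hM hc
  obtain ⟨ψ', hψ'⟩ := exists_hom hG hM' hc'
  have hb : b ∉ M := by
    intro hb
    have h1 : K ≤ M := by
      rw [← hK, Subgroup.closure_le]
      rintro x (rfl | rfl) <;> assumption
    have h2 : K = M := le_antisymm h1 hM
    have h3 : 0 < Nat.card M := Nat.card_pos
    rw [h2] at hc
    nlinarith
  have hψb : ψ ⟨b, hbK⟩ ≠ 1 := fun h => hb ((hψ _).1 h)
  have hz : Nat.card (Multiplicative (ZMod p)) = p := by simp
  obtain ⟨n, hn⟩ := mem_powers_of_prime_card (g' := ψ' ⟨b, hbK⟩) hz hψb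
  have heq : (powMonoidHom n).comp ψ = ψ' := by
    apply hom_ext hK haK hbK
    · rw [MonoidHom.comp_apply, (hψ ⟨a, haK⟩).2 ha, (hψ' ⟨a, haK⟩).2 ha', map_one]
    · exact hn
  have hle : M ≤ M' := by
    intro x hx
    have h1 : ψ' ⟨x, hM hx⟩ = 1 := by
      rw [← heq, MonoidHom.comp_apply, (hψ ⟨x, hM hx⟩).2 hx, map_one]
    exact (hψ' ⟨x, hM hx⟩).1 h1
  apply Subgroup.eq_of_le_of_card_ge hle
  have : p * Nat.card M = p * Nat.card M' := by rw [← hc, hc']
  exact (Nat.eq_of_mul_eq_mul_left hp.out.pos this).ge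

omit [Finite G] in
lemma closure_pair_le {K : Subgroup G} {a b : G} (ha : a ∈ K) (hb : b ∈ K) :
    closure {a, b} ≤ K := by
  rw [Subgroup.closure_le]
  rintro x (rfl | rfl) <;> assumption

omit [Finite G] in
lemma mem_pair_left (a b : G) : a ∈ closure ({a, b} : Set G) :=
  Subgroup.subset_closure (by simp)

omit [Finite G] in
lemma mem_pair_right (a b : G) : b ∈ closure ({a, b} : Set G) :=
  Subgroup.subset_closure (by simp)

/-- for a generator `a` of a noncyclic two generated `p`-group `K` there is one subgroup of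
index `p` which consists of all `c` with `⟨a, c⟩ ≠ K` -/
lemma exists_Ma (hG : IsPGroup p G) {K : Subgroup G} {a b : G} (hK : closure {a, b} = K)
    (hne : zpowers a ≠ K) :
    ∃ M : Subgroup G, M ≤ K ∧ a ∈ M ∧ Nat.card K = p * Nat.card M ∧
      ∀ c ∈ K, c ∉ M → closure {a, c} = K := by
  have haK : a ∈ K := hK ▸ mem_pair_left a b
  have hlt : zpowers a < K := lt_of_le_of_ne (by simpa using haK) hne
  obtain ⟨M, h1, h2, h3⟩ := exists_max hG hlt
  refine ⟨M, h2, h1 (mem_zpowers a), h3, fun c hc hcM => ?_⟩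
  by_contra hcon
  have hlt' : closure {a, c} < K := lt_of_le_of_ne (closure_pair_le haK hc) hcon
  obtain ⟨M', h1', h2', h3'⟩ := exists_max hG hlt'
  have heq : M = M' :=
    unique_max hG hK h2 h2' h3 h3' (h1 (mem_zpowers a)) (h1' (mem_pair_left a c))
  exact hcM (heq ▸ h1' (mem_pair_right a c))

omit hp [Finite G] in
lemma proper_of_card (hp1 : 1 < p) {M K : Subgroup G} [Finite G]
    (hc : Nat.card K = p * Nat.card M) : M ≠ K := by
  rintro rfl
  have h3 : 0 < Nat.card M := Nat.card_pos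
  nlinarith

omit hp [Finite G] in
lemma card_mul_relIndex {A B : Subgroup G} (h : A ≤ B) :
    Nat.card A * A.relIndex B = Nat.card B := by
  have := Subgroup.relIndex_mul_relIndex ⊥ A B bot_le h
  rwa [Subgroup.relIndex_bot_left, Subgroup.relIndex_bot_left] at this

/-- two subgroups of index `p` meet in a subgroup of index at most `p ^ 2` -/
lemma card_inf_ge {K M M' : Subgroup G} (hM : M ≤ K) (hM' : M' ≤ K)
    (hc' : Nat.card K = p * Nat.card M') : Nat.card M ≤ p * Nat.card (M ⊓ M' : Subgroup G) := by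
  have h1 := card_mul_relIndex (inf_le_left : M ⊓ M' ≤ M)
  rw [Subgroup.inf_relIndex_left] at h1
  have h2 := card_mul_relIndex hM'
  have h3 : 0 < Nat.card M' := Nat.card_pos
  have h4 : M'.relIndex K = p := by
    rw [hc', mul_comm] at h2
    exact Nat.eq_of_mul_eq_mul_right h3 h2
  have h5 : M'.relIndex M ≤ M'.relIndex K :=
    Subgroup.relIndex_le_of_le_right hM (by rw [h4]; exact hp.out.ne_zero)
  rw [h4] at h5
  calc Nat.card M = Nat.card (M ⊓ M' : Subgroup G) * M'.relIndex M := h1.symm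
    _ ≤ Nat.card (M ⊓ M' : Subgroup G) * p := Nat.mul_le_mul_left _ h5
    _ = _ := mul_comm _ _

end Tools

section Defs

variable {G : Type*} [Group G]

/-- dependence of three elements -/
def D3 (a b c : G) : Prop := c ∈ closure {a, b} ∨ a ∈ closure {b, c} ∨ b ∈ closure {a, c}

/-- dependence of two elements -/
def D2 (a b : G) : Prop := a ∈ zpowers b ∨ b ∈ zpowers a

lemma indep_triple {a b c : G} (hab : a ≠ b) (hbc : b ≠ c) (hac : a ≠ c) :
    Indep {a, b, c} ↔ ¬ D3 a b c := by
  have h1 : ({a, b, c} : Set G) \ {a} = {b, c} := by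
    ext x; simp only [Set.mem_sdiff, Set.mem_insert_iff, Set.mem_singleton_iff]
    constructor
    · tauto
    · rintro (rfl | rfl) <;> simp [hab.symm, hac.symm]
  have h2 : ({a, b, c} : Set G) \ {b} = {a, c} := by
    ext x; simp only [Set.mem_sdiff, Set.mem_insert_iff, Set.mem_singleton_iff]
    constructor
    · tauto
    · rintro (rfl | rfl) <;> simp [hab, hbc.symm]
  have h3 : ({a, b, c} : Set G) \ {c} = {a, b} := by
    ext x; simp only [Set.mem_sdiff, Set.mem_insert_iff, Set.mem_singleton_iff]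
    constructor
    · tauto
    · rintro (rfl | rfl) <;> simp [hac, hbc]
  unfold Indep D3
  simp only [Set.mem_insert_iff, Set.mem_singleton_iff, forall_eq_or_imp, forall_eq, h1, h2, h3]
  tauto

lemma indep_pair {a b : G} (hab : a ≠ b) : Indep {a, b} ↔ ¬ D2 a b := by
  have h1 : ({a, b} : Set G) \ {a} = {b} := by
    ext x; simp only [Set.mem_sdiff, Set.mem_insert_iff, Set.mem_singleton_iff]
    constructor
    · tauto
    · rintro rfl; simp [hab.symm]
  have h2 : ({a, b} : Set G) \ {b} = {a} := by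
    ext x; simp only [Set.mem_sdiff, Set.mem_insert_iff, Set.mem_singleton_iff]
    constructor
    · tauto
    · rintro rfl; simp [hab]
  unfold Indep D2
  simp only [Set.mem_insert_iff, Set.mem_singleton_iff, forall_eq_or_imp, forall_eq, h1, h2,
    ← Subgroup.zpowers_eq_closure]
  tauto

lemma indep_single (a : G) : Indep {a} ↔ a ≠ 1 := by
  unfold Indep
  simp

variable {G₁ G₂ : Type*} [Group G₁] [Group G₂]

lemma SigmaIso.d3 {φ : G₁ ≃ G₂} (h : SigmaIso φ) (a b c : G₁) :
    D3 a b c ↔ D3 (φ a) (φ b) (φ c) := by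
  by_cases hab : a = b
  · subst hab
    exact ⟨fun _ => Or.inr (Or.inl (mem_pair_left _ _)), fun _ => Or.inr (Or.inl (mem_pair_left _ _))⟩
  by_cases hbc : b = c
  · subst hbc
    exact ⟨fun _ => Or.inl (mem_pair_right _ _), fun _ => Or.inl (mem_pair_right _ _)⟩
  by_cases hac : a = c
  · subst hac
    exact ⟨fun _ => Or.inl (mem_pair_left _ _), fun _ => Or.inl (mem_pair_left _ _)⟩
  have h1 := h {a, b, c}
  rw [Set.image_insert_eq, Set.image_insert_eq, Set.image_singleton, indep_triple hab hbc hac,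
    indep_triple (φ.injective.ne hab) (φ.injective.ne hbc) (φ.injective.ne hac)] at h1
  exact not_iff_not.mp h1

lemma SigmaIso.d2 {φ : G₁ ≃ G₂} (h : SigmaIso φ) (a b : G₁) :
    D2 a b ↔ D2 (φ a) (φ b) := by
  by_cases hab : a = b
  · subst hab
    exact ⟨fun _ => Or.inl (mem_zpowers _), fun _ => Or.inl (mem_zpowers _)⟩
  have h1 := h {a, b}
  rw [Set.image_insert_eq, Set.image_singleton, indep_pair hab,
    indep_pair (φ.injective.ne hab)] at h1
  exact not_iff_not.mp h1

lemma SigmaIso.one {φ : G₁ ≃ G₂} (h : SigmaIso φ) : φ 1 = 1 := by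
  have h1 := h {1}
  rw [Set.image_singleton, indep_single, indep_single] at h1
  tauto

end Defs

section Rigid

variable {G₁ G₂ : Type*} [Group G₁] [Group G₂] [Finite G₁] [Finite G₂] {p : ℕ}
  [hp : Fact p.Prime]

/-- a subgroup is rigid if its image is a subgroup -/
def Rig (φ : G₁ ≃ G₂) (R : Subgroup G₁) : Prop :=
  ∀ y ∈ closure (φ '' (R : Set G₁)), φ.symm y ∈ R

omit [Finite G₁] [Finite G₂] in
lemma Rig.inf {φ : G₁ ≃ G₂} {A B : Subgroup G₁} (hA : Rig φ A) (hB : Rig φ B) :
    Rig φ (A ⊓ B) := fun y hy =>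
  ⟨hA y (Subgroup.closure_mono (Set.image_mono (fun _ hx => hx.1)) hy),
    hB y (Subgroup.closure_mono (Set.image_mono (fun _ hx => hx.2)) hy)⟩

omit [Finite G₁] [Finite G₂] in
lemma Rig.sInf {φ : G₁ ≃ G₂} (S : Set (Subgroup G₁)) (h : ∀ R ∈ S, Rig φ R) :
    Rig φ (sInf S) := by
  intro y hy
  rw [Subgroup.mem_sInf]
  intro R hR
  apply h R hR
  refine Subgroup.closure_mono (Set.image_mono ?_) hy
  exact fun x hx => (Subgroup.mem_sInf.mp hx) R hR

omit [Finite G₁] [Finite G₂] in
lemma Rig.top (φ : G₁ ≃ G₂) : Rig φ ⊤ := fun _ _ => Subgroup.mem_top _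

omit [Finite G₁] [Finite G₂] in
lemma Rig.mem {φ : G₁ ≃ G₂} {R : Subgroup G₁} (h : Rig φ R) {a b c : G₁} (ha : a ∈ R)
    (hb : b ∈ R) (hc : φ c ∈ closure {φ a, φ b}) : c ∈ R := by
  have h0 : ({φ a, φ b} : Set G₂) ⊆ φ '' (R : Set G₁) := by
    rintro x (rfl | rfl)
    · exact ⟨a, ha, rfl⟩
    · exact ⟨b, hb, rfl⟩
  have h1 := h (φ c) (Subgroup.closure_mono h0 hc)
  simpa using h1

omit [Finite G₁] in
/-- a pair of generators with maximal image group -/
lemma max_in {φ : G₁ ≃ G₂} (hφ : SigmaIso φ) {K : Subgroup G₁} {a b : G₁}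
    (hab : closure {a, b} = K)
    (hmax : ∀ x y : G₁, closure {x, y} = K →
      Nat.card (closure {φ x, φ y}) ≤ Nat.card (closure {φ a, φ b}))
    {c : G₁} (hc : c ∈ K) (hac : closure {a, c} = K) (hbc : closure {b, c} = K) :
    φ c ∈ closure {φ a, φ b} := by
  rcases (hφ.d3 a b c).1 (Or.inl (hab ▸ hc)) with h | h | h
  · exact h
  · have hle : closure {φ a, φ b} ≤ closure {φ b, φ c} :=
      closure_pair_le h (mem_pair_left _ _)
    rw [Subgroup.eq_of_le_of_card_ge hle (hmax b c hbc)]
    exact mem_pair_right _ _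
  · have hle : closure {φ a, φ b} ≤ closure {φ a, φ c} :=
      closure_pair_le (mem_pair_left _ _) h
    rw [Subgroup.eq_of_le_of_card_ge hle (hmax a c hac)]
    exact mem_pair_right _ _

omit [Finite G₁] in
lemma ncard_coe (H : Subgroup G₁) : (H : Set G₁).ncard = Nat.card H := rfl

omit [Group G₁] [Finite G₁] [Finite G₂] in
lemma ncard_pre (φ : G₁ ≃ G₂) (L : Subgroup G₂) : {c : G₁ | φ c ∈ L}.ncard = Nat.card L := by
  have h1 : {c : G₁ | φ c ∈ L} = φ.symm '' (L : Set G₂) := by
    ext c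
    simp only [Set.mem_ofPred_eq, Set.mem_image, SetLike.mem_coe]
    constructor
    · intro h; exact ⟨φ c, h, by simp⟩
    · rintro ⟨y, hy, rfl⟩; simpa using hy
  rw [h1, Set.ncard_image_of_injective _ φ.symm.injective]
  rfl

/-- the key step: maximal two generated subgroups of rigid subgroups are rigid -/
lemma R1 (hG₁ : IsPGroup p G₁) (hG₂ : IsPGroup p G₂) {φ : G₁ ≃ G₂} (hφ : SigmaIso φ)
    {R K : Subgroup G₁} (hR : Rig φ R) (hKR : K ≤ R) {a₀ b₀ : G₁} (h0 : closure {a₀, b₀} = K)
    (hnc : ∀ z : G₁, zpowers z ≠ K)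
    (hmaxR : ∀ x ∈ R, ∀ y ∈ R, K ≤ closure {x, y} → closure {x, y} ≤ K) :
    ∃ a b : G₁, closure {a, b} = K ∧ ∀ c, c ∈ K ↔ φ c ∈ closure {φ a, φ b} := by
  classical
  have hp2 : 2 ≤ p := hp.out.two_le
  let S := {q : G₁ × G₁ // closure {q.1, q.2} = K}
  have : Nonempty S := ⟨⟨(a₀, b₀), h0⟩⟩
  obtain ⟨⟨⟨a, b⟩, hab⟩, hmax0⟩ :=
    Finite.exists_max (fun q : S => Nat.card (closure {φ q.1.1, φ q.1.2}))
  dsimp only at hab hmax0
  have hmax : ∀ x y : G₁, closure {x, y} = K →
      Nat.card (closure {φ x, φ y}) ≤ Nat.card (closure {φ a, φ b}) :=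
    fun x y hxy => hmax0 ⟨(x, y), hxy⟩
  have haK : a ∈ K := hab ▸ mem_pair_left a b
  have hbK : b ∈ K := hab ▸ mem_pair_right a b
  have hba : closure {b, a} = K := by rw [Set.pair_comm]; exact hab
  refine ⟨a, b, hab, ?_⟩
  set L := closure {φ a, φ b} with hL
  -- the image group is inside the image of `K`
  have hLK : ∀ c, φ c ∈ L → c ∈ K := by
    intro c hc
    have hcR : c ∈ R := hR.mem (hKR haK) (hKR hbK) hc
    rcases (hφ.d3 a b c).2 (Or.inl hc) with h | h | h
    · exact hab ▸ h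
    · have h1 : K ≤ closure {b, c} := hab ▸ closure_pair_le h (mem_pair_left _ _)
      exact hmaxR b (hKR hbK) c hcR h1 (mem_pair_right _ _)
    · have h1 : K ≤ closure {a, c} := hab ▸ closure_pair_le (mem_pair_left _ _) h
      exact hmaxR a (hKR haK) c hcR h1 (mem_pair_right _ _)
  set T : Set G₁ := {c | φ c ∈ L} with hT
  have hTc : T.ncard = Nat.card L := ncard_pre φ L
  have hTK : T ⊆ (K : Set G₁) := fun c hc => hLK c hc
  have h1T : (1 : G₁) ∈ T := by
    show φ 1 ∈ L
    rw [hφ.one]; exact L.one_mem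
  suffices hcard : Nat.card K ≤ Nat.card L by
    have hTeq : T = (K : Set G₁) := by
      apply Set.eq_of_subset_of_ncard_le hTK _ (Set.toFinite _)
      rw [hTc, ncard_coe]; exact hcard
    intro c
    constructor
    · intro hc
      have : c ∈ T := by rw [hTeq]; exact hc
      exact this
    · exact hLK c
  by_contra hlt
  rw [not_le] at hlt
  have hpL : p * Nat.card L ≤ Nat.card K := by
    obtain ⟨m, hm⟩ := card_pow hG₂ L
    obtain ⟨n, hn⟩ := card_pow hG₁ K
    exact pow_step hm hn hlt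
  obtain ⟨A, hAK, haA, hcA, hA⟩ := exists_Ma hG₁ hab (hnc a)
  obtain ⟨B, hBK, hbB, hcB, hB⟩ := exists_Ma hG₁ hba (hnc b)
  have hABc : Nat.card A = Nat.card B := by
    have : p * Nat.card A = p * Nat.card B := by rw [← hcA, ← hcB]
    exact Nat.eq_of_mul_eq_mul_left hp.out.pos this
  have hA0 : 0 < Nat.card A := Nat.card_pos
  have hLA : Nat.card L ≤ Nat.card A := by
    rw [hcA] at hpL
    exact Nat.le_of_mul_le_mul_left hpL hp.out.pos
  -- elements outside `A` and `B` have image in `L`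
  have hout : ∀ c ∈ K, c ∉ A → c ∉ B → c ∈ T := fun c hc h1 h2 =>
    max_in hφ hab hmax hc (hA c hc h1) (hB c hc h2)
  have hunion : ∀ X Y : Set G₁, (1 : G₁) ∈ X → (1 : G₁) ∈ Y →
      (X ∪ Y).ncard + 1 ≤ X.ncard + Y.ncard := by
    intro X Y hX hY
    have h1 := Set.ncard_union_add_ncard_inter X Y
    have h2 : 1 ≤ (X ∩ Y).ncard := by
      rw [Nat.one_le_iff_ne_zero, Ne, Set.ncard_eq_zero (Set.toFinite _)]
      exact Set.nonempty_iff_ne_empty.mp ⟨1, hX, hY⟩
    omega
  rcases Nat.lt_or_ge 2 p with hp3 | hp3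
  · -- odd primes: counting
    have h1 : (K : Set G₁) ⊆ (A : Set G₁) ∪ ((B : Set G₁) ∪ T) := by
      intro c hc
      by_cases h1 : c ∈ A
      · exact Or.inl h1
      by_cases h2 : c ∈ B
      · exact Or.inr (Or.inl h2)
      exact Or.inr (Or.inr (hout c hc h1 h2))
    have h2 := Set.ncard_le_ncard h1 (Set.toFinite _)
    have h3 := hunion (A : Set G₁) ((B : Set G₁) ∪ T) A.one_mem (Or.inl B.one_mem)
    have h4 := hunion (B : Set G₁) T B.one_mem h1T
    rw [ncard_coe] at h2 h3 h4
    rw [hTc] at h4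
    nlinarith
  · -- the prime 2
    obtain rfl : p = 2 := le_antisymm hp3 hp2
    have hAB : A ≠ B := by
      rintro rfl
      have h1 : K ≤ A := hab ▸ closure_pair_le haA hbB
      have h2 : A = K := le_antisymm hAK h1
      rw [h2] at hcA
      have : 0 < Nat.card K := Nat.card_pos
      omega
    have claimA : ∀ a b : G₁, closure {a, b} = K → closure {φ a, φ b} = L → ∀ A B : Subgroup G₁,
        A ≤ K → B ≤ K → a ∈ A → b ∈ B → Nat.card K = 2 * Nat.card A →
        Nat.card K = 2 * Nat.card B → (∀ c ∈ K, c ∉ A → closure {a, c} = K) →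
        (∀ c ∈ K, c ∉ A → c ∉ B → c ∈ T) →
        ∀ c ∈ K, c ∉ A → c ∉ B → closure {φ a, φ c} ≠ L := by
      intro a b hab hLab A B hAK hBK haA hbB hcA hcB hA hout c hc hcA' hcB' heq
      have hmax' : ∀ x y : G₁, closure {x, y} = K →
          Nat.card (closure {φ x, φ y}) ≤ Nat.card (closure {φ a, φ c}) := by
        intro x y hxy
        rw [heq]
        exact hmax x y hxy
      have h1 : (K : Set G₁) ⊆ (A : Set G₁) ∪ T := by
        intro x hx
        by_cases h1 : x ∈ A
        · exact Or.inl h1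
        refine Or.inr ?_
        by_cases h2 : x ∈ B
        · have hax : closure {a, x} = K := hA x hx h1
          have hxa : closure {x, a} = K := by rw [Set.pair_comm]; exact hax
          have hcx : closure {c, x} = K := by
            by_contra hcon
            have hlt' : closure {c, x} < K := lt_of_le_of_ne (closure_pair_le hc hx) hcon
            obtain ⟨M', h1', h2', h3'⟩ := exists_max hG₁ hlt'
            have : B = M' := unique_max hG₁ hxa hBK h2' hcB h3' h2 (h1' (mem_pair_right _ _))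
            exact hcB' (this ▸ h1' (mem_pair_left _ _))
          have := max_in hφ (hA c hc hcA') hmax' hx hax hcx
          rw [heq] at this
          exact this
        · exact hout x hx h1 h2
      have h2 := Set.ncard_le_ncard h1 (Set.toFinite _)
      have h3 := hunion (A : Set G₁) T A.one_mem h1T
      rw [ncard_coe] at h2 h3
      rw [hTc] at h3
      have hpL' : 2 * Nat.card L ≤ 2 * Nat.card A := by rw [← hcA]; exact hpL
      omega
    have cA := claimA a b hab rfl A B hAK hBK haA hbB hcA hcB hA hout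
    have cB := claimA b a hba (by rw [Set.pair_comm]) B A hBK hAK hbB haA hcB hcA hB
      (fun c hc h1 h2 => hout c hc h2 h1)
    -- there is an element outside of both
    have hN1 := hunion (A : Set G₁) (B : Set G₁) A.one_mem B.one_mem
    obtain ⟨c₀, hc₀, hc₀A, hc₀B⟩ : ∃ c ∈ K, c ∉ A ∧ c ∉ B := by
      by_contra hcon
      push Not at hcon
      have h1 : (K : Set G₁) ⊆ (A : Set G₁) ∪ (B : Set G₁) := by
        intro x hx
        by_cases h1 : x ∈ A
        · exact Or.inl h1
        · exact Or.inr (hcon x hx h1)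
      have h2 := Set.ncard_le_ncard h1 (Set.toFinite _)
      rw [ncard_coe] at h2 hN1
      rw [ncard_coe] at hN1
      omega
    have hLne : ∀ x y : G₁, closure {φ x, φ y} ≠ L → φ x ∈ L → φ y ∈ L →
        zpowers (φ x) ≠ L := by
      intro x y h1 hx hy h2
      apply h1
      apply le_antisymm (closure_pair_le hx hy)
      rw [← h2]
      simpa using mem_pair_left (φ x) (φ y)
    have haL : φ a ∈ L := mem_pair_left _ _
    have hbL : φ b ∈ L := mem_pair_right _ _
    have hbaL : closure {φ b, φ a} = L := by rw [Set.pair_comm]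
    have hc₀T : φ c₀ ∈ L := hout c₀ hc₀ hc₀A hc₀B
    obtain ⟨A', hA'L, haA', hcA', hA'⟩ := exists_Ma hG₂ (K := L) (a := φ a) (b := φ b) rfl
      (hLne a c₀ (cA c₀ hc₀ hc₀A hc₀B) haL hc₀T)
    obtain ⟨B', hB'L, hbB', hcB', hB'⟩ := exists_Ma hG₂ (K := L) hbaL
      (hLne b c₀ (cB c₀ hc₀ hc₀B hc₀A) hbL hc₀T)
    -- all elements outside of both are mapped into `A' ⊓ B'`
    have h1 : (K : Set G₁) ⊆ ((A : Set G₁) ∪ (B : Set G₁)) ∪ {c | φ c ∈ A' ⊓ B'} := by
      intro c hc
      by_cases h1 : c ∈ A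
      · exact Or.inl (Or.inl h1)
      by_cases h2 : c ∈ B
      · exact Or.inl (Or.inr h2)
      refine Or.inr ⟨?_, ?_⟩
      · by_contra h3
        exact cA c hc h1 h2 (hA' _ (hout c hc h1 h2) h3)
      · by_contra h3
        exact cB c hc h2 h1 (hB' _ (hout c hc h1 h2) h3)
    have h2 := Set.ncard_le_ncard h1 (Set.toFinite _)
    have h3 := Set.ncard_union_le ((A : Set G₁) ∪ (B : Set G₁)) {c | φ c ∈ A' ⊓ B'}
    have h4 := Set.ncard_union_add_ncard_inter (A : Set G₁) (B : Set G₁)
    have h5 : ((A : Set G₁) ∩ (B : Set G₁)).ncard = Nat.card (A ⊓ B : Subgroup G₁) := rfl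
    have h6 := card_inf_ge (p := 2) hAK hBK hcB
    have h7 : A' ⊓ B' < A' := by
      apply lt_of_le_of_ne inf_le_left
      intro h
      have h8 : φ a ∈ B' := (inf_eq_left.mp h) haA'
      have h9 : L ≤ B' := closure_pair_le h8 hbB'
      have h10 : B' = L := le_antisymm hB'L h9
      rw [h10] at hcB'
      have : 0 < Nat.card L := Nat.card_pos
      omega
    have h8 := card_step hG₂ h7
    have h9 := ncard_pre φ (A' ⊓ B')
    have h10 : (A : Set G₁).ncard = Nat.card A := rfl
    have h11 : (B : Set G₁).ncard = Nat.card B := rfl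
    have h12 : (K : Set G₁).ncard = Nat.card K := rfl
    have h13 : 0 < Nat.card (A' ⊓ B' : Subgroup G₂) := Nat.card_pos
    omega

/-- in a finite `p`-group, two elements generating a cyclic group are dependent -/
lemma d2_of_cyclic {G : Type*} [Group G] [Finite G] (hG : IsPGroup p G) {x y z : G}
    (hz : zpowers z = closure {x, y}) : D2 x y := by
  by_contra hD
  have h1 : zpowers x ≠ closure {x, y} := by
    intro h
    exact hD (Or.inr (h ▸ mem_pair_right x y))
  have h2 : zpowers y ≠ closure {x, y} := by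
    intro h
    exact hD (Or.inl (h ▸ mem_pair_left x y))
  obtain ⟨M, hM1, hM2, hM3⟩ := exists_max hG
    (lt_of_le_of_ne (by simpa using mem_pair_left x y) h1 : zpowers x < closure {x, y})
  obtain ⟨M', hM1', hM2', hM3'⟩ := exists_max hG
    (lt_of_le_of_ne (by simpa using mem_pair_right x y) h2 : zpowers y < closure {x, y})
  have hzK : closure {1, z} = closure {x, y} := by
    rw [← hz]
    apply le_antisymm
    · exact closure_pair_le (Subgroup.one_mem _) (mem_zpowers z)
    · simp
  have heq : M = M' := unique_max hG hzK hM2 hM2' hM3 hM3' M.one_mem M'.one_mem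
  have h3 : closure {x, y} ≤ M :=
    closure_pair_le (hM1 (mem_zpowers x)) (heq ▸ hM1' (mem_zpowers y))
  exact proper_of_card hp.out.one_lt hM3 (le_antisymm hM2 h3)

/-- elements of `⟨b, w⟩` for commuting `b`, `w` -/
lemma comm_pair {G : Type*} [Group G] {b w : G} (h : w * b = b * w) {x : G}
    (hx : x ∈ closure {b, w}) : ∃ i j : ℤ, x = b ^ i * w ^ j := by
  have hc : Commute b w := h.symm
  induction hx using Subgroup.closure_induction with
  | mem x hx =>
    rcases hx with rfl | rfl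
    · exact ⟨1, 0, by simp⟩
    · exact ⟨0, 1, by simp⟩
  | one => exact ⟨0, 0, by simp⟩
  | mul x y _ _ hx hy =>
    obtain ⟨i, j, rfl⟩ := hx
    obtain ⟨k, l, rfl⟩ := hy
    refine ⟨i + k, j + l, ?_⟩
    have h1 : w ^ j * b ^ k = b ^ k * w ^ j := ((hc.zpow_zpow k j).eq).symm
    calc b ^ i * w ^ j * (b ^ k * w ^ l) = b ^ i * (w ^ j * b ^ k) * w ^ l := by group
      _ = b ^ i * (b ^ k * w ^ j) * w ^ l := by rw [h1]
      _ = b ^ (i + k) * w ^ (j + l) := by group
  | inv x _ hx =>
    obtain ⟨i, j, rfl⟩ := hx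
    refine ⟨-i, -j, ?_⟩
    rw [mul_inv_rev, ← zpow_neg, ← zpow_neg]
    exact ((hc.zpow_zpow (-i) (-j)).eq).symm

/-- powers of an element of order `p` outside `H` meet `H` trivially -/
lemma zpow_out {G : Type*} [Group G] {H : Subgroup G} {w : G} (hw : w ^ p = 1) (hwH : w ∉ H)
    {j : ℤ} (hj : w ^ j ∈ H) : w ^ j = 1 := by
  by_cases hd : (p : ℤ) ∣ j
  · obtain ⟨k, rfl⟩ := hd
    rw [zpow_mul, zpow_natCast, hw, one_zpow]
  · exfalso
    have hcop : IsCoprime (p : ℤ) j :=
      (Prime.coprime_iff_not_dvd (Nat.prime_iff_prime_int.mp hp.out)).2 hd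
    obtain ⟨u, v, huv⟩ := hcop
    apply hwH
    have : w = (w ^ p) ^ u * (w ^ j) ^ v := by
      rw [← zpow_natCast, ← zpow_mul, ← zpow_mul, ← zpow_add]
      rw [show (p : ℤ) * u + j * v = 1 by linarith, zpow_one]
    rw [this, hw, one_zpow, one_mul]
    exact Subgroup.zpow_mem _ hj _

/-- the twist of a two generated group -/
lemma twist {G : Type*} [Group G] {R M : Subgroup G} (hMR : M ≤ R)
    (ψ : R →* Multiplicative (ZMod p)) (hψ : ∀ x : R, ψ x = 1 ↔ (x : G) ∈ M) {s t w : G}
    (hR : closure {s, t} = R) (hw : w ^ p = 1) (hws : w * s = s * w) (hwt : w * t = t * w)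
    (hwR : w ∉ R) : ∃ θ : R →* G, Function.Injective θ ∧ (∃ a b : G, closure {a, b} = θ.range) ∧
      R ⊓ θ.range = M := by
  have hcomm : ∀ r ∈ R, w * r = r * w := by
    have h1 : R ≤ Subgroup.centralizer {w} := by
      rw [← hR]
      apply closure_pair_le
      · rw [Subgroup.mem_centralizer_singleton_iff]; exact hws.symm
      · rw [Subgroup.mem_centralizer_singleton_iff]; exact hwt.symm
    intro r hr
    have := h1 hr
    rw [Subgroup.mem_centralizer_singleton_iff] at this
    exact this.symm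
  have hval : ∀ u v : ZMod p, w ^ (u + v).val = w ^ u.val * w ^ v.val := by
    intro u v
    rw [ZMod.val_add, ← pow_add, ← pow_eq_pow_mod _ hw]
  let θ : R →* G :=
    { toFun := fun r => (r : G) * w ^ (Multiplicative.toAdd (ψ r)).val
      map_one' := by simp
      map_mul' := by
        intro r r'
        have h1 : w ^ (Multiplicative.toAdd (ψ r)).val * (r' : G)
            = (r' : G) * w ^ (Multiplicative.toAdd (ψ r)).val :=
          ((show Commute w (r' : G) from hcomm r' r'.2).pow_left _).eq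
        rw [map_mul, toAdd_mul, hval]
        calc ((r * r' : R) : G) * (w ^ (Multiplicative.toAdd (ψ r)).val *
              w ^ (Multiplicative.toAdd (ψ r')).val)
            = (r : G) * ((r' : G) * w ^ (Multiplicative.toAdd (ψ r)).val) *
              w ^ (Multiplicative.toAdd (ψ r')).val := by
              rw [Subgroup.coe_mul]; group
          _ = _ := by rw [← h1]; group }
  have hθ : ∀ r : R, θ r = (r : G) * w ^ (Multiplicative.toAdd (ψ r)).val := fun _ => rfl
  have hθ1 : ∀ r : R, (r : G) ∈ M → θ r = r := by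
    intro r hr
    rw [hθ, (hψ r).2 hr]
    simp
  have hker : ∀ r : R, w ^ (Multiplicative.toAdd (ψ r)).val ∈ R → (r : G) ∈ M := by
    intro r hr
    rw [← hψ]
    have h1 := zpow_out (p := p) hw hwR (j := ((Multiplicative.toAdd (ψ r)).val : ℤ))
      (by rw [zpow_natCast]; exact hr)
    rw [zpow_natCast] at h1
    have hw1 : w ≠ 1 := by rintro rfl; exact hwR R.one_mem
    have hord : orderOf w = p := orderOf_eq_prime hw hw1
    have h2 : p ∣ (Multiplicative.toAdd (ψ r)).val := by
      have h5 := orderOf_dvd_of_pow_eq_one h1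
      rwa [hord] at h5
    have h3 : (Multiplicative.toAdd (ψ r)).val < p := ZMod.val_lt _
    have h4 := Nat.eq_zero_of_dvd_of_lt h2 h3
    rw [ZMod.val_eq_zero] at h4
    exact Multiplicative.toAdd.injective h4
  refine ⟨θ, ?_, ?_, ?_⟩
  · rw [injective_iff_map_eq_one]
    intro r hr
    have h1 : w ^ (Multiplicative.toAdd (ψ r)).val = (r : G)⁻¹ := by
      rw [hθ] at hr
      exact (inv_eq_of_mul_eq_one_right hr).symm
    have h2 : (r : G) ∈ M := hker r (by rw [h1]; exact R.inv_mem r.2)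
    rw [hθ1 r h2] at hr
    exact Subtype.ext hr
  · have hs : s ∈ R := hR ▸ mem_pair_left s t
    have ht : t ∈ R := hR ▸ mem_pair_right s t
    refine ⟨θ ⟨s, hs⟩, θ ⟨t, ht⟩, ?_⟩
    apply le_antisymm
    · exact closure_pair_le ⟨_, rfl⟩ ⟨_, rfl⟩
    · rintro _ ⟨r, rfl⟩
      have h1 : closure {s, t} ≤
          ((closure {θ ⟨s, hs⟩, θ ⟨t, ht⟩}).comap θ).map R.subtype := by
        apply closure_pair_le
        · exact ⟨⟨s, hs⟩, mem_pair_left _ _, rfl⟩
        · exact ⟨⟨t, ht⟩, mem_pair_right _ _, rfl⟩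
      obtain ⟨r', hr', hrr'⟩ := h1 (show (r : G) ∈ closure {s, t} by rw [hR]; exact r.2)
      have : r' = r := Subtype.ext hrr'
      rw [← this]
      exact hr'
  · apply le_antisymm
    · rintro x ⟨hx, r, rfl⟩
      have h1 : w ^ (Multiplicative.toAdd (ψ r)).val ∈ R := by
        have h2 : w ^ (Multiplicative.toAdd (ψ r)).val = (r : G)⁻¹ * θ r := by
          rw [hθ]; group
        rw [h2]
        exact R.mul_mem (R.inv_mem r.2) hx
      have h2 := hker r h1
      rw [hθ1 r h2]
      exact h2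
    · intro x hx
      exact ⟨hMR hx, ⟨x, hMR hx⟩, hθ1 ⟨x, hMR hx⟩ hx⟩

omit [Finite G₁] [Finite G₂] in
/-- rigidity from a description of the image -/
lemma Rig.of_image {φ : G₁ ≃ G₂} {K : Subgroup G₁} {L : Subgroup G₂}
    (h : ∀ c, c ∈ K ↔ φ c ∈ L) : Rig φ K := by
  intro y hy
  have h1 : closure (φ '' (K : Set G₁)) ≤ L := by
    rw [Subgroup.closure_le]
    rintro _ ⟨c, hc, rfl⟩
    exact (h c).1 hc
  rw [h (φ.symm y)]
  simpa using h1 hy

end Rigid

end Pool.Agent.Sigma57
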