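import Pool.Agent.Sigma57.Base

/-! Characters of subgroups as functions on the whole group, and the conjugation action. -/

namespace Pool.Agent.Sigma57

open Subgroup

section Nor

variable {G : Type*} [Group G]

/-- `g` normalises `K` -/
def Nz (g : G) (K : Subgroup G) : Prop := ∀ x, x ∈ K ↔ g⁻¹ * x * g ∈ K

lemma Nz.of_mem {g : G} {K : Subgroup G} (hg : g ∈ K) : Nz g K := by
  intro x
  constructor
  · intro hx
    exact K.mul_mem (K.mul_mem (K.inv_mem hg) hx) hg
  · intro hx
    have := K.mul_mem (K.mul_mem hg hx) (K.inv_mem hg)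
    have h2 : g * (g⁻¹ * x * g) * g⁻¹ = x := by group
    rwa [h2] at this

lemma Nz.mul {g h : G} {K : Subgroup G} (hg : Nz g K) (hh : Nz h K) : Nz (g * h) K := by
  intro x
  rw [hg x, hh (g⁻¹ * x * g)]
  have : h⁻¹ * (g⁻¹ * x * g) * h = (g * h)⁻¹ * x * (g * h) := by group
  rw [this]

lemma Nz.one (K : Subgroup G) : Nz 1 K := Nz.of_mem K.one_mem

lemma Nz.inv {g : G} {K : Subgroup G} (hg : Nz g K) : Nz g⁻¹ K := by
  intro x
  rw [hg (g⁻¹⁻¹ * x * g⁻¹)]
  have : g⁻¹ * (g⁻¹⁻¹ * x * g⁻¹) * g = x := by group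
  rw [this]

lemma Nz.conj {g : G} {K : Subgroup G} (hg : Nz g K) {x : G} (hx : x ∈ K) :
    g⁻¹ * x * g ∈ K := (hg x).1 hx

lemma Nz.conj' {g : G} {K : Subgroup G} (hg : Nz g K) {x : G} (hx : x ∈ K) :
    g * x * g⁻¹ ∈ K := by
  have := hg.inv.conj hx
  simpa using this

/-- the normaliser of `K` -/
def Nor (K : Subgroup G) : Subgroup G where
  carrier := {g | Nz g K}
  one_mem' := Nz.one K
  mul_mem' := fun ha hb => Nz.mul ha hb
  inv_mem' := fun ha => Nz.inv ha

lemma mem_Nor {K : Subgroup G} {g : G} : g ∈ Nor K ↔ Nz g K := Iff.rfl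

lemma le_Nor (K : Subgroup G) : K ≤ Nor K := fun _ hx => Nz.of_mem hx

lemma Nor_eq (K : Subgroup G) : Nor K = normalizer (K : Set G) := by
  ext g
  rw [mem_Nor, Subgroup.mem_normalizer_iff]
  constructor
  · intro h x
    have := h.inv x
    simpa using this
  · intro h
    have h2 : Nz g⁻¹ K := by
      intro x
      rw [h x]
      simp
    simpa using h2.inv

lemma Nz.pow {g : G} {K : Subgroup G} (hg : Nz g K) (n : ℕ) : Nz (g ^ n) K :=
  (Nor K).pow_mem hg n

lemma Nz.zpow {g : G} {K : Subgroup G} (hg : Nz g K) (n : ℤ) : Nz (g ^ n) K :=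
  (Nor K).zpow_mem hg n

lemma lt_Nor [Finite G] {p : ℕ} [hp : Fact p.Prime] (hG : IsPGroup p G) {K : Subgroup G}
    (hK : K ≠ ⊤) : K < Nor K := by
  have : Group.IsNilpotent G := hG.isNilpotent
  rw [Nor_eq]
  exact Group.normalizerCondition_of_isNilpotent K (lt_top_iff_ne_top.mpr hK)

/-- elements of `⟨s, b⟩` when `s` normalises `P ∋ b` -/
lemma mem_sP {s b : G} {P : Subgroup G} (hs : Nz s P) (hb : b ∈ P) {x : G}
    (hx : x ∈ closure {s, b}) : ∃ j : ℤ, ∃ y ∈ P, x = s ^ j * y := by
  induction hx using Subgroup.closure_induction with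
  | mem x hx =>
    rcases hx with rfl | rfl
    · exact ⟨1, 1, P.one_mem, by simp⟩
    · exact ⟨0, _, hb, by simp⟩
  | one => exact ⟨0, 1, P.one_mem, by simp⟩
  | mul x y _ _ hx hy =>
    obtain ⟨i, a, ha, rfl⟩ := hx
    obtain ⟨k, c, hc, rfl⟩ := hy
    refine ⟨i + k, (s ^ k)⁻¹ * a * s ^ k * c, P.mul_mem ((hs.zpow k).conj ha) hc, ?_⟩
    rw [zpow_add]; group
  | inv x _ hx =>
    obtain ⟨i, a, ha, rfl⟩ := hx
    refine ⟨-i, s ^ i * a⁻¹ * (s ^ i)⁻¹, (hs.zpow i).conj' (P.inv_mem ha), ?_⟩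
    rw [zpow_neg]; group

end Nor

section Chars

variable {G : Type*} [Group G] {A : Type*} [AddCommGroup A]

/-- conjugation action on functions -/
def cj (g : G) (f : G → A) : G → A := fun x => f (g⁻¹ * x * g)

omit [AddCommGroup A] in
lemma cj_apply (g : G) (f : G → A) (x : G) : cj g f x = f (g⁻¹ * x * g) := rfl

lemma cj_mul (g h : G) (f : G → A) : cj (g * h) f = cj g (cj h f) := by
  ext x
  rw [cj_apply, cj_apply, cj_apply]
  congr 1
  group

lemma cj_one (f : G → A) : cj 1 f = f := by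
  ext x; rw [cj_apply]; simp

lemma cj_add (g : G) (f f' : G → A) : cj g (f + f') = cj g f + cj g f' := rfl

lemma cj_sub (g : G) (f f' : G → A) : cj g (f - f') = cj g f - cj g f' := rfl

lemma cj_zero (g : G) : cj g (0 : G → A) = 0 := rfl

lemma cj_nsmul (g : G) (n : ℕ) (f : G → A) : cj g (n • f) = n • cj g f := rfl

/-- characters of `K` with values in `A`, extended by zero -/
structure IsChar (K : Subgroup G) (f : G → A) : Prop where
  mul : ∀ x ∈ K, ∀ y ∈ K, f (x * y) = f x + f y
  out : ∀ x, x ∉ K → f x = 0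

variable {K : Subgroup G} {f f' : G → A}

lemma IsChar.one (h : IsChar K f) : f 1 = 0 := by
  have := h.mul 1 K.one_mem 1 K.one_mem
  simpa using this

lemma IsChar.inv (h : IsChar K f) {x : G} (hx : x ∈ K) : f x⁻¹ = -f x := by
  have h1 := h.mul x hx x⁻¹ (K.inv_mem hx)
  rw [mul_inv_cancel, h.one] at h1
  exact (neg_eq_of_add_eq_zero_right h1.symm).symm

lemma IsChar.pow (h : IsChar K f) {x : G} (hx : x ∈ K) (n : ℕ) : f (x ^ n) = n • f x := by
  induction n with
  | zero => simp [h.one]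
  | succ n ih => rw [pow_succ, h.mul _ (K.pow_mem hx n) _ hx, ih, succ_nsmul]

lemma IsChar.zpow (h : IsChar K f) {x : G} (hx : x ∈ K) (n : ℤ) : f (x ^ n) = n • f x := by
  cases n with
  | ofNat n => rw [Int.ofNat_eq_natCast, zpow_natCast, h.pow hx, natCast_zsmul]
  | negSucc n =>
    rw [zpow_negSucc, h.inv (K.pow_mem hx _), h.pow hx, negSucc_zsmul]

lemma IsChar.zero (K : Subgroup G) : IsChar K (0 : G → A) := ⟨by simp, by simp⟩

lemma IsChar.add (h : IsChar K f) (h' : IsChar K f') : IsChar K (f + f') := by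
  constructor
  · intro x hx y hy
    simp only [Pi.add_apply, h.mul x hx y hy, h'.mul x hx y hy]
    abel
  · intro x hx
    simp only [Pi.add_apply, h.out x hx, h'.out x hx, add_zero]

lemma IsChar.sub (h : IsChar K f) (h' : IsChar K f') : IsChar K (f - f') := by
  constructor
  · intro x hx y hy
    simp only [Pi.sub_apply, h.mul x hx y hy, h'.mul x hx y hy]
    abel
  · intro x hx
    simp only [Pi.sub_apply, h.out x hx, h'.out x hx, sub_zero]

lemma IsChar.nsmul (h : IsChar K f) (n : ℕ) : IsChar K (n • f) := by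
  constructor
  · intro x hx y hy
    simp only [Pi.smul_apply, h.mul x hx y hy, smul_add]
  · intro x hx
    simp only [Pi.smul_apply, h.out x hx, smul_zero]

lemma IsChar.cj (h : IsChar K f) {g : G} (hg : Nz g K) : IsChar K (cj g f) := by
  constructor
  · intro x hx y hy
    rw [cj_apply, cj_apply, cj_apply, ← h.mul _ (hg.conj hx) _ (hg.conj hy)]
    congr 1
    group
  · intro x hx
    rw [cj_apply]
    exact h.out _ (fun h2 => hx ((hg x).2 h2))

lemma IsChar.cj_self (h : IsChar K f) {g : G} (hg : g ∈ K) : Sigma57.cj g f = f := by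
  ext x
  rw [cj_apply]
  by_cases hx : x ∈ K
  · rw [h.mul _ (K.mul_mem (K.inv_mem hg) hx) _ hg, h.mul _ (K.inv_mem hg) _ hx, h.inv hg]
    abel
  · rw [h.out x hx, h.out _ (fun h2 => hx ((Nz.of_mem hg x).2 h2))]

lemma IsChar.ext (h : IsChar K f) (h' : IsChar K f') (heq : ∀ x ∈ K, f x = f' x) : f = f' := by
  ext x
  by_cases hx : x ∈ K
  · exact heq x hx
  · rw [h.out x hx, h'.out x hx]

/-- characters of `⟨x, y⟩` are determined by two values -/
lemma IsChar.ext_pair {x y : G} (h : IsChar (closure {x, y}) f) (h' : IsChar (closure {x, y}) f')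
    (hx : f x = f' x) (hy : f y = f' y) : f = f' := by
  apply h.ext h'
  intro z hz
  induction hz using Subgroup.closure_induction with
  | mem z hz =>
    rcases hz with rfl | rfl
    · exact hx
    · exact hy
  | one => rw [h.one, h'.one]
  | mul a b ha hb iha ihb => rw [h.mul a ha b hb, h'.mul a ha b hb, iha, ihb]
  | inv a ha iha => rw [h.inv ha, h'.inv ha, iha]

end Chars

section CharP

variable {G : Type*} [Group G] {p : ℕ} [hp : Fact p.Prime]

lemma IsChar.smul {K : Subgroup G} {f : G → ZMod p} (h : IsChar K f) (c : ZMod p) :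
    IsChar K (c • f) := by
  constructor
  · intro x hx y hy
    simp only [Pi.smul_apply, h.mul x hx y hy, smul_add]
  · intro x hx
    simp only [Pi.smul_apply, h.out x hx, smul_zero]

/-- existence of characters separating a proper subgroup -/
lemma exists_char [Finite G] (hG : IsPGroup p G) {K M : Subgroup G} (h : K < M) :
    ∃ f : G → ZMod p, IsChar M f ∧ f ≠ 0 ∧ ∀ x ∈ K, f x = 0 := by
  classical
  obtain ⟨M', hKM', hM'M, hc⟩ := exists_max hG h
  obtain ⟨ψ, hψ⟩ := exists_hom hG hM'M hc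
  let f : G → ZMod p := fun x => if hx : x ∈ M then Multiplicative.toAdd (ψ ⟨x, hx⟩) else 0
  have hf : ∀ x (hx : x ∈ M), f x = Multiplicative.toAdd (ψ ⟨x, hx⟩) := fun x hx => by
    simp only [f, hx, dif_pos]
  have hfc : IsChar M f := by
    constructor
    · intro x hx y hy
      rw [hf x hx, hf y hy, hf _ (M.mul_mem hx hy), ← toAdd_mul, ← map_mul]
      rfl
    · intro x hx
      simp only [f, hx, dif_neg, not_false_eq_true]
  refine ⟨f, hfc, ?_, ?_⟩
  · intro h0
    have h1 : M ≤ M' := by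
      intro x hx
      have h2 : f x = 0 := by rw [h0]; rfl
      rw [hf x hx] at h2
      exact (hψ ⟨x, hx⟩).1 (Multiplicative.toAdd.injective h2)
    exact proper_of_card hp.out.one_lt hc (le_antisymm hM'M h1)
  · intro x hx
    rw [hf x (hM'M (hKM' hx)), (hψ _).2 (hKM' hx)]
    rfl

end CharP

end Pool.Agent.Sigma57
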