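import Mathlib

/-! Independent subsets of groups, isomorphisms of independence complexes and the room
condition for `p`-groups. -/

namespace Pool.Agent.Sigma57

open Subgroup

/-- A subset of a group is independent if none of its elements lies in the subgroup generated
by the other ones. -/
def Indep {G : Type*} [Group G] (A : Set G) : Prop := ∀ a ∈ A, a ∉ closure (A \ {a})

/-- An isomorphism of independence complexes: a bijection preserving independence of subsets
in both directions. -/
def SigmaIso {G₁ G₂ : Type*} [Group G₁] [Group G₂] (φ : G₁ ≃ G₂) : Prop :=
  ∀ A : Set G₁, Indep A ↔ Indep (φ '' A)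

/-- The room condition: any two elements which do not generate the group are centralised by an
element `w` with `w ^ p = 1` outside the subgroup generated by them. -/
def Roomy (p : ℕ) (G : Type*) [Group G] : Prop :=
  ∀ x y : G, closure {x, y} ≠ ⊤ →
    ∃ w : G, w ^ p = 1 ∧ w * x = x * w ∧ w * y = y * w ∧ w ∉ closure {x, y}

end Pool.Agent.Sigma57
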