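import Pool.Agent.Sigma57.Act

/-! The first step: the normaliser of an exceptional subgroup. -/

namespace Pool.Agent.Sigma57

open Subgroup

section Conj

variable {G : Type*} [Group G]

/-- the conjugate subgroup `g⁻¹ K g` -/
def Cj (g : G) (K : Subgroup G) : Subgroup G := K.map (MulAut.conj g⁻¹).toMonoidHom

lemma mem_Cj {g : G} {K : Subgroup G} {x : G} : x ∈ Cj g K ↔ g * x * g⁻¹ ∈ K := by
  rw [Cj, Subgroup.mem_map]
  constructor
  · rintro ⟨y, hy, rfl⟩
    have : g * ((MulAut.conj g⁻¹).toMonoidHom y) * g⁻¹ = y := by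
      simp only [MulEquiv.coe_toMonoidHom, MulAut.conj_apply]
      group
    rw [this]; exact hy
  · intro h
    refine ⟨_, h, ?_⟩
    simp only [MulEquiv.coe_toMonoidHom, MulAut.conj_apply]
    group

lemma card_Cj (g : G) (K : Subgroup G) : Nat.card (Cj g K) = Nat.card K :=
  Subgroup.card_map_of_injective (MulAut.conj g⁻¹).injective

lemma Cj_closure (g x y : G) :
    Cj g (closure {x, y}) = closure {g⁻¹ * x * g, g⁻¹ * y * g} := by
  rw [Cj, MonoidHom.map_closure, Set.image_pair]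
  simp only [MulEquiv.coe_toMonoidHom, MulAut.conj_apply, inv_inv]

lemma Nz_of_Cj {g : G} {K : Subgroup G} (h : Cj g K = K) : Nz g K := by
  have h1 : Nz g⁻¹ K := by
    intro x
    rw [inv_inv, ← mem_Cj, h]
  simpa using h1.inv

lemma Cj_mono {g : G} {K K' : Subgroup G} (h : K ≤ K') : Cj g K ≤ Cj g K' :=
  Subgroup.map_mono h

lemma Cj_of_Nz {g : G} {K : Subgroup G} (h : Nz g K) : Cj g K = K := by
  ext x
  rw [mem_Cj]
  have := h.inv x
  rw [inv_inv] at this
  exact this.symm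

end Conj

section Quot

universe u

variable {G : Type u} [Group G] {p : ℕ} [hp : Fact p.Prime]

/-- quotients with one subgroup of order `p` are cyclic -/
lemma cyclic_quot [Finite G] (hG : IsPGroup p G) (hp2 : p ≠ 2) {N H : Subgroup G}
    (hnor : ∀ h ∈ H, Nz h N)
    (huniq : ∀ x ∈ H, ∀ y ∈ H, x ^ p ∈ N → y ^ p ∈ N → x ∉ N → ∃ j : ℤ, x ^ j * y ∈ N) :
    ∃ g ∈ H, ∀ x ∈ H, ∃ j : ℤ, ∃ y ∈ N, x = g ^ j * y := by
  have hn : (N.subgroupOf H).Normal := by
    constructor
    intro n hn g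
    rw [Subgroup.mem_subgroupOf] at hn ⊢
    exact (hnor g g.2).conj' hn
  have hcyc : IsCyclic (H ⧸ N.subgroupOf H) := by
    apply cyclic_of_unique hp2 _ _ ((hG.to_subgroup H).to_quotient _) rfl
    intro x y
    obtain ⟨x, rfl⟩ := QuotientGroup.mk_surjective x
    obtain ⟨y, rfl⟩ := QuotientGroup.mk_surjective y
    intro hx hy hx1
    rw [← QuotientGroup.mk_pow, QuotientGroup.eq_one_iff, mem_subgroupOf] at hx hy
    rw [Ne, QuotientGroup.eq_one_iff, mem_subgroupOf] at hx1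
    obtain ⟨j, hj⟩ := huniq x x.2 y y.2 hx hy hx1
    refine ⟨-j, ?_⟩
    show (x : H ⧸ N.subgroupOf H) ^ (-j) = y
    rw [← QuotientGroup.mk_zpow, QuotientGroup.eq, mem_subgroupOf]
    simpa using hj
  obtain ⟨g, hg⟩ := IsCyclic.exists_generator (α := H ⧸ N.subgroupOf H)
  obtain ⟨g, rfl⟩ := QuotientGroup.mk_surjective g
  refine ⟨g, g.2, fun x hx => ?_⟩
  obtain ⟨j, hj⟩ := hg ((⟨x, hx⟩ : H) : H ⧸ N.subgroupOf H)
  have hj' : ((g : H ⧸ N.subgroupOf H)) ^ j = ((⟨x, hx⟩ : H) : H ⧸ N.subgroupOf H) := hj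
  rw [← QuotientGroup.mk_zpow, QuotientGroup.eq, mem_subgroupOf] at hj'
  refine ⟨j, (g : G)⁻¹ ^ j * x, ?_, by group⟩
  simpa using hj'

/-- powers of a product -/
lemma pow_mul_out {M : Subgroup G} {s c : G} (hsn : Nz s M) (hcn : Nz c M)
    (hm : c⁻¹ * s⁻¹ * c * s ∈ M) (n : ℕ) : ∃ w ∈ M, (s * c) ^ n = s ^ n * c ^ n * w := by
  have key1 : ∀ n : ℕ, c⁻¹ * (s ^ n)⁻¹ * c * s ^ n ∈ M := by
    intro n
    induction n with
    | zero => simp
    | succ n ih =>
      have heq : c⁻¹ * (s ^ (n + 1))⁻¹ * c * s ^ (n + 1) =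
          (c⁻¹ * s⁻¹ * c * s) * (s⁻¹ * (c⁻¹ * (s ^ n)⁻¹ * c * s ^ n) * s) := by
        rw [pow_succ]; group
      rw [heq]
      exact M.mul_mem hm (hsn.conj ih)
  induction n with
  | zero => exact ⟨1, M.one_mem, by simp⟩
  | succ n ih =>
    obtain ⟨w, hw, h1⟩ := ih
    refine ⟨(c ^ n)⁻¹ * (c⁻¹ * (s ^ n)⁻¹ * c * s ^ n) * c ^ n * w,
      M.mul_mem ((hcn.pow n).conj (key1 n)) hw, ?_⟩
    rw [pow_succ', h1, pow_succ', pow_succ']; group

/-- in a group `R` with a subgroup of index `p` -/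
lemma exists_pow_mul [Finite G] (hG : IsPGroup p G) {P R : Subgroup G} (hPR : P ≤ R)
    (hc : Nat.card R = p * Nat.card P) {x y : G} (hx : x ∈ R) (hxP : x ∉ P) (hy : y ∈ R) :
    ∃ n : ℕ, x ^ n * y ∈ P := by
  obtain ⟨f, hf, hfk⟩ := exists_char_ker hG hPR hc
  have hx0 : f x ≠ 0 := fun h => hxP ((hfk x hx).1 h)
  refine ⟨(-(f y) / f x).val, ?_⟩
  apply (hfk _ (R.mul_mem (R.pow_mem hx _) hy)).1
  rw [hf.mul _ (R.pow_mem hx _) _ hy, hf.pow hx, nsmul_eq_mul, ZMod.natCast_val, ZMod.cast_id', id,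
    div_mul_cancel₀ _ hx0]
  ring

/-- the normaliser of an exceptional subgroup -/
theorem first_step [Finite G] (hG : IsPGroup p G) (hp5 : 5 ≤ p) {P R : Subgroup G} (hPR : P ≤ R)
    (hc : Nat.card R = p * Nat.card P) {x y : G} (hR : closure {x, y} = R)
    (hstar : ∀ x y : G, P < closure {x, y} → R ≤ closure {x, y})
    (hncP : ∀ z : G, zpowers z ≠ P) : ∃ (u b : G) (k : ℕ), Cfg p P (Nor P) u b k := by
  classical
  have hPRne : P ≠ R := proper_of_card hp.out.one_lt hc
  have hRN : ∀ g ∈ R, Nz g P := fun g hg => nz_of_card hG hPR hc hg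
  have hNR : ∀ g, Nz g P → Nz g R := by
    intro g hg
    apply Nz_of_Cj
    have h1 : P < Cj g R := by
      apply lt_of_le_of_ne
      · intro z hz
        rw [mem_Cj]
        exact hPR (hg.conj' hz)
      · intro h
        have h2 := card_Cj g R
        rw [← h] at h2
        rw [← h2] at hc
        have h3 : 0 < Nat.card P := Nat.card_pos
        have h4 := hp.out.one_lt
        nlinarith
    rw [← hR, Cj_closure] at h1
    have h2 := hstar _ _ h1
    rw [← Cj_closure, hR] at h2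
    exact (Subgroup.eq_of_le_of_card_ge h2 (card_Cj g R).le).symm
  obtain ⟨t, ht, hst⟩ := exists_gen hG hPR hc hR
  obtain ⟨s₀, hs₀, hs₀P⟩ : ∃ s ∈ R, s ∉ P := by
    by_contra hcon
    push Not at hcon
    exact hPRne (le_antisymm hPR hcon)
  -- elements of order `p` modulo `P` lie in `R`
  have hord : ∀ c, Nz c P → c ^ p ∈ P → c ∈ R := by
    intro c hcN hcp
    by_contra hcR
    have hs₀p := pow_mem_of_card hG hPR hc hs₀
    have hm := central_factor hG hPR hc hcN (hNR c hcN) hs₀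
    have L : LCtx p P s₀ c t := ⟨hp5, hRN s₀ hs₀, hcN, hs₀p, hcp, hm, fun f hf h1 h2 h3 =>
      char_zero (hst s₀ hs₀ hs₀P) hPR ht (hRN s₀ hs₀) hs₀P hs₀p hf h1 h2 h3⟩
    obtain ⟨i, hi0, hi5, hle⟩ := lemL hG L ht
    have hci : c ^ i ∉ R := by
      intro h
      have h1 := dvd_of_zpow_mem (p := p) hcR (hPR hcp) (j := (i : ℤ)) (by simpa using h)
      have h2 : p ∣ i := by exact_mod_cast h1
      have := Nat.le_of_dvd hi0 h2
      omega
    have hg : s₀ * c ^ i ∉ R := fun h => hci (by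
      have := R.mul_mem (R.inv_mem hs₀) h
      simpa using this)
    have hgP : s₀ * c ^ i ∉ P := fun h => hg (hPR h)
    have hlt : P < closure {s₀ * c ^ i, t} :=
      lt_of_le_of_ne hle (fun h => hgP (h ▸ mem_pair_left _ _))
    have h1 := hstar _ _ hlt
    have hgp : (s₀ * c ^ i) ^ p ∈ P := by
      obtain ⟨w, hw, h2⟩ := pow_mul_out (hRN s₀ hs₀) (hcN.pow i) (L.comm_mem i) p
      rw [h2]
      refine P.mul_mem (P.mul_mem hs₀p ?_) hw
      rw [← pow_mul, mul_comm, pow_mul]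
      exact P.pow_mem hcp i
    have h2 := card_gM hG ht ((hRN s₀ hs₀).mul (hcN.pow i)) hgP hgp hle
    have h3 : R = closure {s₀ * c ^ i, t} :=
      Subgroup.eq_of_le_of_card_ge h1 (by rw [h2, hc])
    exact hg (h3 ▸ mem_pair_left _ _)
  -- the quotient is cyclic
  obtain ⟨u, hu, hugen⟩ := cyclic_quot hG (by omega) (N := P) (H := Nor P) (fun h hh => hh) (by
    intro x hx y hy hxp hyp hxP
    obtain ⟨n, hn⟩ := exists_pow_mul hG hPR hc (hord x hx hxp) hxP (hord y hy hyp)
    exact ⟨n, by rw [zpow_natCast]; exact hn⟩)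
  have hun : Nz u P := hu
  -- the order of `u` modulo `P`
  have hex : ∃ k : ℕ, u ^ p ^ k ∈ P := by
    obtain ⟨n, hn⟩ := isPGroup_iff_pow_pow_eq_one.mp hG u
    exact ⟨n, by rw [hn]; exact P.one_mem⟩
  set k := Nat.find hex with hk
  have huk : u ^ p ^ k ∈ P := Nat.find_spec hex
  have hk0 : k ≠ 0 := by
    intro h0
    rw [h0, pow_zero, pow_one] at huk
    apply hs₀P
    obtain ⟨j, z, hz, hj⟩ := hugen s₀ (hRN s₀ hs₀)
    rw [hj]
    exact P.mul_mem (P.zpow_mem huk j) hz
  have huk' : u ^ p ^ (k - 1) ∉ P := Nat.find_min hex (by omega)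
  set s := u ^ p ^ (k - 1) with hs
  have hsp' : s ^ p = u ^ p ^ k := by
    rw [hs, ← pow_mul, ← pow_succ, Nat.sub_add_cancel (by omega)]
  have hsp : s ^ p ∈ P := by rw [hsp']; exact huk
  have hsn : Nz s P := hun.pow _
  have hsR : s ∈ R := hord s hsn hsp
  have hstR : closure {s, t} = R := hst s hsR huk'
  refine ⟨u, t, k, ⟨by omega, ?_, ht, le_Nor P, rfl, huk, huk', ?_, hncP t⟩⟩
  · apply le_antisymm
    · exact closure_pair_le hu (le_Nor P ht)
    · intro z hz
      obtain ⟨j, w, hw, hj⟩ := hugen z hz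
      rw [hj]
      refine Subgroup.mul_mem _ (Subgroup.zpow_mem _ (mem_pair_left u t) j) ?_
      have h1 : closure {s, t} ≤ closure {u, t} :=
        closure_pair_le (Subgroup.pow_mem _ (mem_pair_left u t) _) (mem_pair_right u t)
      rw [hstR] at h1
      exact h1 (hPR hw)
  · by_cases hk1 : k = 1
    · exact Or.inl hk1
    right
    by_contra hne
    have hlt : closure {u ^ p ^ k, t} < P := lt_of_le_of_ne (closure_pair_le huk ht) hne
    obtain ⟨f, hf, hf0, hfK⟩ := exists_char hG hlt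
    have hz : ∀ F : G → ZMod p, IsChar P F → cj s F = F → F t = 0 → F (u ^ p ^ k) = 0 → F = 0 := by
      intro F hF h1 h2 h3
      exact char_zero hstR hPR ht hsn huk' hsp hF h1 h2 (by rw [hsp']; exact h3)
    -- the action of `s`
    have hact : ∀ F : G → ZMod p, dif u (dif u F) = 0 → cj s F = F := by
      intro F hF
      rw [hs, cj_pow_lin (sub_eq_zero.mp hF)]
      have h1 : p ^ (k - 1) • (cj u F - F) = 0 := by
        obtain ⟨e, he⟩ : p ∣ p ^ (k - 1) := dvd_pow_self p (by omega)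
        rw [he]
        ext z
        simp
      rw [h1, add_zero]
    have key : ∀ m : ℕ, ∀ F : G → ZMod p, IsChar P F → (dif u)^[m] F = 0 →
        dif u (dif u F) = 0 := by
      intro m
      induction m with
      | zero =>
        intro F _ h0
        have : F = 0 := h0
        rw [this, dif_zero, dif_zero]
      | succ m ih =>
        intro F hF h0
        rw [Function.iterate_succ_apply] at h0
        set g₁ := dif u F with hg₁
        set g₂ := dif u g₁ with hg₂
        have hc1 : IsChar P g₁ := hF.dif hun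
        have hc2 : IsChar P g₂ := hc1.dif hun
        have h1 : dif u g₂ = 0 := ih g₁ hc1 h0
        have ha1 : g₁ (u ^ p ^ k) = 0 := cj_at_pow u F (p ^ k)
        have ha2 : g₂ (u ^ p ^ k) = 0 := cj_at_pow u g₁ (p ^ k)
        have hs1 : cj s g₁ = g₁ := hact g₁ h1
        have hs2 : cj s g₂ = g₂ := hact g₂ (by rw [h1, dif_zero])
        by_cases ht1 : g₁ t = 0
        · have h2 := hz g₁ hc1 hs1 ht1 ha1
          rw [hg₂, h2, dif_zero]
        have h3 : g₂ - (g₂ t / g₁ t) • g₁ = 0 := by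
          apply hz _ (hc2.sub (hc1.smul _))
          · rw [cj_sub, cj_smul, hs1, hs2]
          · rw [Pi.sub_apply, Pi.smul_apply, smul_eq_mul, div_mul_cancel₀ _ ht1, sub_self]
          · rw [Pi.sub_apply, Pi.smul_apply, ha1, ha2, smul_zero, sub_zero]
        have h4 := congrArg (dif u) h3
        rw [dif_sub, dif_smul, h1, dif_zero, zero_sub, neg_eq_zero, ← hg₂] at h4
        rcases smul_eq_zero.mp h4 with h5 | h5
        · rw [h5, zero_smul, sub_zero] at h3
          exact h3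
        · exact h5
    obtain ⟨m, hm⟩ := nilp_pow hG (by omega) u 1
    rw [pow_one] at hm
    apply hf0
    apply hz f hf (hact f (key m f hf (hm f)))
    · exact hfK t (mem_pair_right _ _)
    · exact hfK _ (mem_pair_left _ _)

end Quot

end Pool.Agent.Sigma57
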