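import Pool.Agent.Sigma57.Chars

/-! If one of the subgroups between `M` and `S`, `S / M` elementary abelian of order `p ^ 2`,
`p ≥ 5`, is two generated then so is another one. -/

namespace Pool.Agent.Sigma57

open Subgroup

section LemL

variable {G : Type*} [Group G] {p : ℕ} [hp : Fact p.Prime]

/-- exponents of powers of `s` inside `M` -/
lemma dvd_of_zpow_mem {M : Subgroup G} {s : G} (hs : s ∉ M) (hsp : s ^ p ∈ M) {j : ℤ}
    (hj : s ^ j ∈ M) : (p : ℤ) ∣ j := by
  by_contra hd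
  have hcop : IsCoprime (p : ℤ) j :=
    (Prime.coprime_iff_not_dvd (Nat.prime_iff_prime_int.mp hp.out)).2 hd
  obtain ⟨u, v, huv⟩ := hcop
  apply hs
  have : s = (s ^ p) ^ u * (s ^ j) ^ v := by
    rw [← zpow_natCast, ← zpow_mul, ← zpow_mul, ← zpow_add]
    rw [show (p : ℤ) * u + j * v = 1 by linarith, zpow_one]
  rw [this]
  exact M.mul_mem (M.zpow_mem hsp u) (M.zpow_mem hj v)

/-- the kernel of a character -/
def kerC {K : Subgroup G} {A : Type*} [AddCommGroup A] {f : G → A} (hf : IsChar K f) :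
    Subgroup G where
  carrier := {x | x ∈ K ∧ f x = 0}
  one_mem' := ⟨K.one_mem, hf.one⟩
  mul_mem' := fun {a b} ha hb => ⟨K.mul_mem ha.1 hb.1, by rw [hf.mul a ha.1 b hb.1, ha.2, hb.2,
    add_zero]⟩
  inv_mem' := fun {a} ha => ⟨K.inv_mem ha.1, by rw [hf.inv ha.1, ha.2, neg_zero]⟩

omit hp in
lemma mem_kerC {K : Subgroup G} {A : Type*} [AddCommGroup A] {f : G → A} (hf : IsChar K f)
    {x : G} : x ∈ kerC hf ↔ x ∈ K ∧ f x = 0 := Iff.rfl

/-- characters of `M` fixed by `s`, zero at `t` and `s ^ p`, are zero if `⟨s, t⟩ ≥ M` -/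
lemma char_zero {R M : Subgroup G} {s t : G} (hR : closure {s, t} = R) (hMR : M ≤ R)
    (ht : t ∈ M) (hsn : Nz s M) (hs : s ∉ M) (hsp : s ^ p ∈ M) {f : G → ZMod p}
    (hf : IsChar M f) (h1 : cj s f = f) (h2 : f t = 0) (h3 : f (s ^ p) = 0) : f = 0 := by
  apply hf.ext (IsChar.zero M)
  intro x hx
  have hker : Nz s (kerC hf) := by
    intro y
    rw [mem_kerC, mem_kerC, ← hsn y, ← cj_apply s f y, h1]
  obtain ⟨j, y, hy, rfl⟩ := mem_sP hker (show t ∈ kerC hf from ⟨ht, h2⟩)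
    (show x ∈ closure {s, t} by rw [hR]; exact hMR hx)
  have hj : s ^ j ∈ M := by
    have := M.mul_mem hx (M.inv_mem hy.1)
    simpa using this
  obtain ⟨k, rfl⟩ := dvd_of_zpow_mem hs hsp hj
  rw [hf.mul _ hj _ hy.1, hy.2, add_zero, zpow_mul, zpow_natCast, hf.zpow hsp, h3]
  simp

/-- existence of the characters for a pair which does not generate `M` -/
lemma exists_lam [Finite G] (hG : IsPGroup p G) {M : Subgroup G} {g t : G} (ht : t ∈ M)
    (hg : Nz g M) (hgp : g ^ p ∈ M) (h : ¬ M ≤ closure {g, t}) :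
    ∃ f : G → ZMod p, IsChar M f ∧ f ≠ 0 ∧ cj g f = f ∧ f t = 0 ∧ f (g ^ p) = 0 := by
  classical
  have hlt : closure {g, t} < M ⊔ zpowers g := by
    apply lt_of_le_of_ne
    · exact closure_pair_le ((le_sup_right : zpowers g ≤ _) (mem_zpowers g))
        ((le_sup_left : M ≤ _) ht)
    · intro heq
      exact h (heq ▸ le_sup_left)
  obtain ⟨F, hF, hF0, hFK⟩ := exists_char hG hlt
  have hgQ : g ∈ M ⊔ zpowers g := (le_sup_right : zpowers g ≤ _) (mem_zpowers g)
  let f : G → ZMod p := fun x => if x ∈ M then F x else 0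
  have hf : ∀ x ∈ M, f x = F x := fun x hx => by simp only [f, hx, if_true]
  have hf' : ∀ x, x ∉ M → f x = 0 := fun x hx => by simp only [f, hx, if_false]
  have hMQ : M ≤ M ⊔ zpowers g := le_sup_left
  have hfc : IsChar M f := by
    constructor
    · intro x hx y hy
      rw [hf x hx, hf y hy, hf _ (M.mul_mem hx hy), hF.mul x (hMQ hx) y (hMQ hy)]
    · exact hf'
  refine ⟨f, hfc, ?_, ?_, ?_, ?_⟩
  · intro h0
    apply hF0
    apply hF.ext (IsChar.zero _)
    have hle : M ⊔ zpowers g ≤ kerC hF := by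
      apply sup_le
      · intro x hx
        refine ⟨hMQ hx, ?_⟩
        rw [← hf x hx, h0]; rfl
      · rw [Subgroup.zpowers_le]
        exact ⟨hgQ, hFK g (mem_pair_left g t)⟩
    intro x hx
    exact (hle hx).2
  · apply (hfc.cj hg).ext hfc
    intro x hx
    rw [cj_apply, hf _ (hg.conj hx), hf x hx, ← cj_apply g F x, hF.cj_self hgQ]
  · rw [hf t ht]; exact hFK t (mem_pair_right g t)
  · rw [hf _ hgp]
    exact hFK _ (Subgroup.pow_mem _ (mem_pair_left g t) p)

lemma cj_smul (g : G) (c : ZMod p) (f : G → ZMod p) : cj g (c • f) = c • cj g f := rfl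

omit hp in
/-- powers of an operator `1 + X` with `X ^ 2 f = 0` -/
lemma cj_pow_lin {A : Type*} [AddCommGroup A] {s : G} {f : G → A}
    (h : cj s (cj s f - f) = cj s f - f) (j : ℕ) : cj (s ^ j) f = f + j • (cj s f - f) := by
  induction j with
  | zero => simp [cj_one]
  | succ j ih =>
    rw [pow_succ', cj_mul, ih, cj_add, cj_nsmul, h, succ_nsmul]
    abel

omit [Group G] in
lemma nsmul_zmod (j : ℕ) (f : G → ZMod p) (x : G) : (j • f) x = (j : ZMod p) * f x := by
  simp [nsmul_eq_mul]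

/-- `f ((s m) ^ p) = f (s ^ p)` for `m ∈ M` and `X ^ 2 f = 0` -/
lemma pow_sm (hp2 : p ≠ 2) {M : Subgroup G} {s m : G} (hsn : Nz s M) (hsp : s ^ p ∈ M)
    (hm : m ∈ M) {f : G → ZMod p} (hf : IsChar M f) (h : cj s (cj s f - f) = cj s f - f) :
    f ((s * m) ^ p) = f (s ^ p) := by
  have key : ∀ j : ℕ, ∃ w ∈ M, (s * m) ^ j = s ^ j * w ∧
      2 * f w = 2 * j * f m + j * (j - 1) * (cj s f - f) m := by
    intro j
    induction j with
    | zero => exact ⟨1, M.one_mem, by simp, by simp [hf.one]⟩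
    | succ j ih =>
      obtain ⟨w, hw, h1, h2⟩ := ih
      refine ⟨(s ^ j)⁻¹ * m * s ^ j * w, M.mul_mem ((hsn.pow j).conj hm) hw, ?_, ?_⟩
      · rw [pow_succ', h1, pow_succ']; group
      · rw [hf.mul _ ((hsn.pow j).conj hm) _ hw, ← cj_apply (s ^ j) f m, cj_pow_lin h j, Pi.add_apply,
          nsmul_zmod, mul_add, h2]
        push_cast
        ring
  obtain ⟨w, hw, h1, h2⟩ := key p
  rw [h1, hf.mul _ hsp _ hw]
  have h3 : (2 : ZMod p) ≠ 0 := by
    intro h0
    have h4 : ((2 : ℕ) : ZMod p) = 0 := by exact_mod_cast h0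
    rw [ZMod.natCast_eq_zero_iff] at h4
    exact hp2 ((Nat.prime_dvd_prime_iff_eq hp.out Nat.prime_two).mp h4)
  have h5 : (2 : ZMod p) * f w = 0 := by
    rw [h2]; simp
  rcases mul_eq_zero.mp h5 with h6 | h6
  · exact absurd h6 h3
  · rw [h6, add_zero]

/-- `f ((s y) ^ p) = f (s ^ p) + f (y ^ p)` for `p ≥ 5` if all second differences of `f`
vanish -/
lemma pow_sy (hp5 : 5 ≤ p) {M : Subgroup G} {s y : G} (hsn : Nz s M) (hyn : Nz y M)
    (hsp : s ^ p ∈ M) (hyp : y ^ p ∈ M) (hm : y⁻¹ * s⁻¹ * y * s ∈ M) {f : G → ZMod p}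
    (hf : IsChar M f) (hX : cj s (cj s f - f) = cj s f - f)
    (hY : cj y (cj y f - f) = cj y f - f) (hXY : cj s (cj y f - f) = cj y f - f) :
    f ((s * y) ^ p) = f (s ^ p) + f (y ^ p) := by
  set m₁ := y⁻¹ * s⁻¹ * y * s with hm₁
  set Z : G → ZMod p := cj y f - f with hZ
  have hZc : IsChar M Z := (hf.cj hyn).sub hf
  have hXc : IsChar M (cj s f - f) := (hf.cj hsn).sub hf
  have key1 : ∀ j : ℕ, y⁻¹ * (s ^ j)⁻¹ * y * s ^ j ∈ M ∧
      2 * f (y⁻¹ * (s ^ j)⁻¹ * y * s ^ j) = 2 * j * f m₁ + j * (j - 1) * (cj s f - f) m₁ ∧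
      Z (y⁻¹ * (s ^ j)⁻¹ * y * s ^ j) = j * Z m₁ ∧
      (cj s f - f) (y⁻¹ * (s ^ j)⁻¹ * y * s ^ j) = j * (cj s f - f) m₁ := by
    intro j
    induction j with
    | zero =>
      have h0 : y⁻¹ * (s ^ 0)⁻¹ * y * s ^ 0 = 1 := by simp
      rw [h0]
      exact ⟨M.one_mem, by simp [hf.one], by simp [hZc.one], by rw [hXc.one]; simp⟩
    | succ j ih =>
      obtain ⟨h1, h2, h3, h4⟩ := ih
      set mj := y⁻¹ * (s ^ j)⁻¹ * y * s ^ j with hmj
      have heq : y⁻¹ * (s ^ (j + 1))⁻¹ * y * s ^ (j + 1) = m₁ * (s⁻¹ * mj * s) := by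
        rw [hm₁, hmj, pow_succ]; group
      rw [heq]
      refine ⟨M.mul_mem hm (hsn.conj h1), ?_, ?_, ?_⟩
      · have h5 : cj s f mj = f mj + (cj s f - f) mj := by simp
        rw [hf.mul _ hm _ (hsn.conj h1), ← cj_apply s f mj, h5, h4, mul_add, mul_add, h2]
        push_cast
        ring
      · rw [hZc.mul _ hm _ (hsn.conj h1), ← cj_apply s Z mj, hXY, h3]
        push_cast
        ring
      · rw [hXc.mul _ hm _ (hsn.conj h1), ← cj_apply s (cj s f - f) mj, hX, h4]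
        push_cast
        ring
  have key2 : ∀ j : ℕ, ∃ w ∈ M, (s * y) ^ j = s ^ j * y ^ j * w ∧
      6 * f w = 3 * j * (j - 1) * f m₁ + j * (j - 1) * (j - 2) * (cj s f - f) m₁ +
        j * (j - 1) * (2 * j - 1) * Z m₁ := by
    intro j
    induction j with
    | zero => exact ⟨1, M.one_mem, by simp, by simp [hf.one]⟩
    | succ j ih =>
      obtain ⟨w, hw, h1, h2⟩ := ih
      obtain ⟨k1, k2, k3, k4⟩ := key1 j
      set mj := y⁻¹ * (s ^ j)⁻¹ * y * s ^ j with hmj
      refine ⟨(y ^ j)⁻¹ * mj * y ^ j * w, M.mul_mem ((hyn.pow j).conj k1) hw, ?_, ?_⟩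
      · rw [pow_succ', h1, pow_succ', pow_succ', hmj]; group
      · have h6 : 6 * f mj = 3 * (2 * f mj) := by ring
        rw [hf.mul _ ((hyn.pow j).conj k1) _ hw, ← cj_apply (y ^ j) f mj, cj_pow_lin hY j, Pi.add_apply,
          nsmul_zmod, ← hZ, k3, mul_add, mul_add, h2, h6, k2]
        push_cast
        ring
  obtain ⟨w, hw, h1, h2⟩ := key2 p
  rw [h1, hf.mul _ (M.mul_mem hsp hyp) _ hw, hf.mul _ hsp _ hyp]
  have h3 : (6 : ZMod p) ≠ 0 := by
    intro h0
    have h4 : ((6 : ℕ) : ZMod p) = 0 := by exact_mod_cast h0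
    rw [ZMod.natCast_eq_zero_iff] at h4
    have h5 : p ∣ 2 * 3 := by simpa using h4
    rcases (Nat.Prime.dvd_mul hp.out).mp h5 with h6 | h6
    · have := Nat.le_of_dvd (by norm_num) h6; omega
    · have := Nat.le_of_dvd (by norm_num) h6; omega
  have h5 : (6 : ZMod p) * f w = 0 := by
    rw [h2]; simp
  rcases mul_eq_zero.mp h5 with h6 | h6
  · exact absurd h6 h3
  · rw [h6, add_zero]

/-- the situation of the lemma -/
structure LCtx (p : ℕ) (M : Subgroup G) (s c t : G) : Prop where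
  hp5 : 5 ≤ p
  hsn : Nz s M
  hcn : Nz c M
  hsp : s ^ p ∈ M
  hcp : c ^ p ∈ M
  hm : s⁻¹ * c⁻¹ * s * c ∈ M
  hz : ∀ f : G → ZMod p, IsChar M f → cj s f = f → f t = 0 → f (s ^ p) = 0 → f = 0

variable {M : Subgroup G} {s c t : G}

lemma LCtx.comm (h : LCtx p M s c t) {f : G → ZMod p} (hf : IsChar M f) :
    cj s (cj c f) = cj c (cj s f) := by
  rw [← cj_mul, ← cj_mul]
  have h1 : s * c = c * s * (s⁻¹ * c⁻¹ * s * c) := by group
  rw [h1, cj_mul, hf.cj_self h.hm]

lemma LCtx.comm_pow (h : LCtx p M s c t) {f : G → ZMod p} (hf : IsChar M f) (j : ℕ) :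
    cj s (cj (c ^ j) f) = cj (c ^ j) (cj s f) := by
  induction j with
  | zero => simp [cj_one]
  | succ j ih =>
    rw [pow_succ', cj_mul, h.comm (hf.cj (h.hcn.pow j)), ih, ← cj_mul]

/-- the value at `s ^ p` is not changed by `s` -/
lemma cj_at_pow (s : G) (f : G → ZMod p) (n : ℕ) : (cj s f - f) (s ^ n) = 0 := by
  rw [Pi.sub_apply, cj_apply]
  have : s⁻¹ * s ^ n * s = s ^ n := by
    rw [mul_assoc, ← pow_succ, pow_succ']; group
  rw [this, sub_self]

/-- the value at `s ^ p` is not changed by `c` if `X ^ 2 f = 0` -/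
lemma LCtx.a4 (h : LCtx p M s c t) {f : G → ZMod p} (hf : IsChar M f)
    (hX : cj s (cj s f - f) = cj s f - f) : (cj c f - f) (s ^ p) = 0 := by
  rw [Pi.sub_apply, cj_apply]
  have h1 : c⁻¹ * s ^ p * c = (s * (s⁻¹ * c⁻¹ * s * c)) ^ p := by
    have h2 : s * (s⁻¹ * c⁻¹ * s * c) = c⁻¹ * s * c⁻¹⁻¹ := by group
    rw [h2, conj_pow, inv_inv]
  have h5 := h.hp5
  rw [h1, pow_sm (by omega) h.hsn h.hsp h.hm hf hX, sub_self]

/-- the characters fixed by `s` and vanishing at `s ^ p` -/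
def Lam (p : ℕ) (M : Subgroup G) (s : G) (f : G → ZMod p) : Prop :=
  IsChar M f ∧ cj s f = f ∧ f (s ^ p) = 0

lemma LCtx.lam0 (h : LCtx p M s c t) {f : G → ZMod p} (hf : Lam p M s f) (ht : f t = 0) :
    f = 0 := h.hz f hf.1 hf.2.1 ht hf.2.2

/-- `c` acts trivially on these characters -/
lemma LCtx.lamY (h : LCtx p M s c t) {f : G → ZMod p} (hf : Lam p M s f) : cj c f = f := by
  obtain ⟨h1, h2, h3⟩ := hf
  by_cases ht : f t = 0
  · rw [h.lam0 ⟨h1, h2, h3⟩ ht, cj_zero]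
  have hX : cj s (cj s f - f) = cj s f - f := by rw [h2, sub_self, cj_zero]
  have h4 := h.a4 h1 hX
  set ρ : ZMod p := (cj c f - f) t / f t with hρ
  have hL : Lam p M s ((cj c f - f) - ρ • f) := by
    refine ⟨((h1.cj h.hcn).sub h1).sub (h1.smul ρ), ?_, ?_⟩
    · rw [cj_sub, cj_sub, cj_smul, h.comm h1, h2]
    · rw [Pi.sub_apply, h4, Pi.smul_apply, h3]; simp
  have h5 : (cj c f - f) - ρ • f = 0 := by
    apply h.lam0 hL
    rw [Pi.sub_apply, Pi.smul_apply, hρ, smul_eq_mul, div_mul_cancel₀ _ ht, sub_self]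
  have h6 : cj c f = (1 + ρ) • f := by
    rw [add_smul, one_smul]
    have := sub_eq_zero.mp h5
    rw [← this]; abel
  have h7 : ∀ j : ℕ, cj (c ^ j) f = ((1 + ρ) ^ j) • f := by
    intro j
    induction j with
    | zero => simp [cj_one]
    | succ j ih => rw [pow_succ', cj_mul, ih, cj_smul, h6, smul_smul, pow_succ]
  have h8 := h7 p
  rw [h1.cj_self h.hcp, ZMod.pow_card] at h8
  rw [h6, ← h8]

/-- second differences vanish as soon as `X ^ 2 f = 0` -/
lemma LCtx.e2 (h : LCtx p M s c t) {f : G → ZMod p} (hf : IsChar M f)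
    (hX : cj s (cj s f - f) = cj s f - f) :
    Lam p M s (cj s f - f) ∧ Lam p M s (cj c f - f) ∧
      cj c (cj s f - f) = cj s f - f ∧ cj c (cj c f - f) = cj c f - f ∧
      ∀ i : ℕ, cj (s * c ^ i) f = f + (cj s f - f) + (i : ZMod p) • (cj c f - f) := by
  have hXf : Lam p M s (cj s f - f) := ⟨(hf.cj h.hsn).sub hf, hX, cj_at_pow s f p⟩
  have h1 := h.lamY hXf
  have h2 : cj s (cj c f - f) = cj c f - f := by
    have h3 : cj c (cj s f) - cj c f = cj s f - f := h1
    rw [cj_sub, h.comm hf]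
    have : cj c (cj s f) = cj c f + (cj s f - f) := by rw [← h3]; abel
    rw [this]; abel
  have hYf : Lam p M s (cj c f - f) := ⟨(hf.cj h.hcn).sub hf, h2, h.a4 hf hX⟩
  have h4 := h.lamY hYf
  refine ⟨hXf, hYf, h1, h4, fun i => ?_⟩
  rw [cj_mul, cj_pow_lin h4 i, cj_add, cj_nsmul, h2, Nat.cast_smul_eq_nsmul]
  abel

/-- a good index -/
def Good (p : ℕ) (M : Subgroup G) (s c t : G) (i : ℕ) : Prop :=
  ∃ f : G → ZMod p, IsChar M f ∧ f ≠ 0 ∧ cj s (cj s f - f) = cj s f - f ∧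
    (cj s f - f) + (i : ZMod p) • (cj c f - f) = 0 ∧ f t = 0 ∧
    f (s ^ p) + (i : ZMod p) * f (c ^ p) = 0

/-- a bad index -/
def Bad (p : ℕ) (M : Subgroup G) (s c t : G) (i : ℕ) : Prop :=
  ∃ f : G → ZMod p, IsChar M f ∧ cj s (cj s f - f) = cj s f - f ∧ f (s ^ p) = 0 ∧
    (cj s f - f) t ≠ 0 ∧ (cj s f - f) + (i : ZMod p) • (cj c f - f) = 0

/-- iterated differences vanish -/
lemma nilp_char {g : G} (hgp : g ^ p ∈ M) (hp2 : p ≠ 2) {f : G → ZMod p}
    (hf : IsChar M f) : (fun F : G → ZMod p => cj g F - F)^[p] f = 0 := by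
  let C : AddMonoid.End (G → ZMod p) :=
    { toFun := cj g
      map_zero' := cj_zero g
      map_add' := cj_add g }
  have hC : ∀ F, C F = cj g F := fun _ => rfl
  have mulap : ∀ (a b : AddMonoid.End (G → ZMod p)) (F : G → ZMod p), (a * b) F = a (b F) :=
    fun _ _ _ => rfl
  have addap : ∀ (a b : AddMonoid.End (G → ZMod p)) (F : G → ZMod p), (a + b) F = a F + b F :=
    fun _ _ _ => rfl
  have negap : ∀ (F : G → ZMod p), (-1 : AddMonoid.End (G → ZMod p)) F = -F :=
    fun _ => rfl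
  have hCn : ∀ n : ℕ, ∀ F, (C ^ n) F = cj (g ^ n) F := by
    intro n
    induction n with
    | zero => intro F; simp [cj_one]
    | succ n ih =>
      intro F
      rw [pow_succ', mulap, ih, hC, pow_succ', cj_mul]
  have hT : ∀ n : ℕ, ∀ F, ((C + (-1)) ^ n) F = (fun F : G → ZMod p => cj g F - F)^[n] F := by
    intro n
    induction n with
    | zero => intro F; simp
    | succ n ih =>
      intro F
      rw [pow_succ, mulap, ih, Function.iterate_succ_apply, addap, hC, negap, ← sub_eq_add_neg]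
  rw [← hT]
  obtain ⟨r, hr⟩ := (Commute.neg_one_right C).exists_add_pow_prime_eq hp.out
  rw [hr]
  have hodd : Odd p := hp.out.odd_of_ne_two hp2
  rw [hodd.neg_one_pow]
  have h0 : ∀ F : G → ZMod p, ((p : AddMonoid.End (G → ZMod p))) F = 0 := by
    intro F
    ext x
    simp [AddMonoid.End.natCast_apply]
  rw [addap, addap, mul_assoc, mul_assoc, mulap, h0, hCn, hf.cj_self hgp, negap]
  simp

lemma LCtx.rel (h : LCtx p M s c t) {i : ℕ} {f : G → ZMod p} (hf : IsChar M f)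
    (hX : cj s (cj s f - f) = cj s f - f) (hfi : cj (s * c ^ i) f = f) :
    (cj s f - f) + (i : ZMod p) • (cj c f - f) = 0 := by
  obtain ⟨-, -, -, -, h6⟩ := h.e2 hf hX
  have h7 := h6 i
  rw [hfi] at h7
  have h9 : f + ((cj s f - f) + (i : ZMod p) • (cj c f - f)) = f + 0 := by
    rw [add_zero, ← add_assoc]; exact h7.symm
  exact add_left_cancel h9

omit hp in
lemma LCtx.comm_mem (h : LCtx p M s c t) (n : ℕ) : (c ^ n)⁻¹ * s⁻¹ * c ^ n * s ∈ M := by
  induction n with
  | zero => simp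
  | succ n ih =>
    have h10 : (c ^ (n + 1))⁻¹ * s⁻¹ * c ^ (n + 1) * s =
        (c⁻¹ * ((c ^ n)⁻¹ * s⁻¹ * c ^ n * s) * c) * (s⁻¹ * c⁻¹ * s * c)⁻¹ := by
      rw [pow_succ]; group
    rw [h10]
    exact M.mul_mem (h.hcn.conj ih) (M.inv_mem h.hm)

lemma LCtx.bad_rec (h : LCtx p M s c t) {i : ℕ} (n : ℕ) : ∀ f : G → ZMod p, IsChar M f →
    cj (s * c ^ i) f = f → (fun F : G → ZMod p => cj s F - F)^[n] f = 0 →
    ¬ (cj s (cj s f - f) = cj s f - f) → Bad p M s c t i := by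
  induction n with
  | zero =>
    intro f hf _ h0 hX
    exfalso
    apply hX
    have : f = 0 := h0
    rw [this, cj_zero, sub_zero, cj_zero]
  | succ n ih =>
    intro f hf hfi h0 hX
    set F := cj s f - f with hF
    have hFc : IsChar M F := (hf.cj h.hsn).sub hf
    have hFi : cj (s * c ^ i) F = F := by
      rw [hF, cj_sub, hfi]
      congr 1
      rw [cj_mul, ← h.comm_pow hf, ← cj_mul s (c ^ i) f, hfi]
    have h0' : (fun F : G → ZMod p => cj s F - F)^[n] F = 0 := by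
      rw [Function.iterate_succ_apply] at h0
      exact h0
    by_cases hX' : cj s (cj s F - F) = cj s F - F
    · refine ⟨F, hFc, hX', cj_at_pow s f p, ?_, h.rel hFc hX' hFi⟩
      intro ht
      obtain ⟨h1, -, -, -, -⟩ := h.e2 hFc hX'
      apply hX
      exact sub_eq_zero.mp (h.lam0 h1 ht)
    · exact ih F hFc hFi h0' hX'

/-- every character fixed by `s c ^ i` gives a good or a bad index -/
lemma LCtx.good_or_bad (h : LCtx p M s c t) {i : ℕ} {f : G → ZMod p} (hf : IsChar M f)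
    (hf0 : f ≠ 0) (hfi : cj (s * c ^ i) f = f) (hft : f t = 0)
    (hfp : f ((s * c ^ i) ^ p) = 0) : Good p M s c t i ∨ Bad p M s c t i := by
  have h5 := h.hp5
  by_cases hX : cj s (cj s f - f) = cj s f - f
  · left
    obtain ⟨hXf, hYf, h1, h4, -⟩ := h.e2 hf hX
    refine ⟨f, hf, hf0, hX, h.rel hf hX hfi, hft, ?_⟩
    have hci : cj (c ^ i) f - f = i • (cj c f - f) := by
      rw [cj_pow_lin h4 i]; abel
    have hyn : Nz (c ^ i) M := h.hcn.pow i
    have hyp : (c ^ i) ^ p ∈ M := by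
      rw [← pow_mul, mul_comm, pow_mul]; exact M.pow_mem h.hcp i
    have hcc : cj (c ^ i) (cj c f - f) = cj c f - f := by
      have : ∀ n : ℕ, cj (c ^ n) (cj c f - f) = cj c f - f := by
        intro n
        induction n with
        | zero => rw [pow_zero, cj_one]
        | succ n ih => rw [pow_succ', cj_mul, ih, h4]
      exact this i
    have h20 := pow_sy h5 h.hsn hyn h.hsp hyp (h.comm_mem i) hf hX
      (by rw [hci, cj_nsmul, hcc]) (by rw [hci, cj_nsmul, hYf.2.1])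
    rw [hfp] at h20
    have h21 : f ((c ^ i) ^ p) = (i : ZMod p) * f (c ^ p) := by
      rw [← pow_mul, mul_comm, pow_mul, hf.pow h.hcp i]
      simp
    rw [← h21]
    exact h20.symm
  · right
    exact h.bad_rec p f hf hfi (nilp_char h.hsp (by omega) hf) hX

/-- there is at most one bad index -/
lemma LCtx.not_two_bad (h : LCtx p M s c t) {i j : ℕ} (hij : (i : ZMod p) ≠ j)
    (hi : Bad p M s c t i) (hj : Bad p M s c t j) : False := by
  obtain ⟨f, hf, hfX, hfa, hft, hfr⟩ := hi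
  obtain ⟨g, hg, hgX, hga, hgt, hgr⟩ := hj
  set κ : ZMod p := (cj s f - f) t / (cj s g - g) t with hκ
  have hκ0 : κ ≠ 0 := div_ne_zero hft hgt
  have hη : IsChar M (f - κ • g) := hf.sub (hg.smul κ)
  have hXη : cj s (f - κ • g) - (f - κ • g) = (cj s f - f) - κ • (cj s g - g) := by
    rw [cj_sub, cj_smul, smul_sub]; abel
  have hYη : cj c (f - κ • g) - (f - κ • g) = (cj c f - f) - κ • (cj c g - g) := by
    rw [cj_sub, cj_smul, smul_sub]; abel
  have hXX : cj s (cj s (f - κ • g) - (f - κ • g)) = cj s (f - κ • g) - (f - κ • g) := by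
    rw [hXη, cj_sub, cj_smul, hfX, hgX]
  obtain ⟨h1, -, -, -, -⟩ := h.e2 hη hXX
  have h2 : cj s (f - κ • g) - (f - κ • g) = 0 := by
    apply h.lam0 h1
    rw [hXη, Pi.sub_apply, Pi.smul_apply, smul_eq_mul, hκ, div_mul_cancel₀ _ hgt, sub_self]
  have h3 : Lam p M s (f - κ • g) := by
    refine ⟨hη, sub_eq_zero.mp h2, ?_⟩
    rw [Pi.sub_apply, Pi.smul_apply, hfa, hga]; simp
  have h4 := h.lamY h3
  have h5 : (cj c f - f) - κ • (cj c g - g) = 0 := by rw [← hYη, h4, sub_self]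
  have h6 : (cj s f - f) - κ • (cj s g - g) = 0 := by rw [← hXη, h2]
  -- evaluate at `t`
  have e1 : (cj s f - f) t + (i : ZMod p) * (cj c f - f) t = 0 := by
    have := congrFun hfr t
    simpa using this
  have e2 : (cj s g - g) t + (j : ZMod p) * (cj c g - g) t = 0 := by
    have := congrFun hgr t
    simpa using this
  have e3 : (cj c f - f) t - κ * (cj c g - g) t = 0 := by
    have := congrFun h5 t
    simpa using this
  have e4 : (cj s f - f) t - κ * (cj s g - g) t = 0 := by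
    have := congrFun h6 t
    simpa using this
  have e5 : κ * (((i : ZMod p) - j) * (cj c g - g) t) = 0 := by
    linear_combination e1 - e4 - κ * e2 - (i : ZMod p) * e3
  rcases mul_eq_zero.mp e5 with e6 | e6
  · exact hκ0 e6
  · rcases mul_eq_zero.mp e6 with e7 | e7
    · exact hij (sub_eq_zero.mp e7)
    · rw [e7, mul_zero, add_zero] at e2
      exact hgt e2

/-- three good indices are impossible -/
lemma LCtx.not_three_good (h : LCtx p M s c t) {i j k : ℕ} (hij : (i : ZMod p) ≠ j)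
    (hik : (i : ZMod p) ≠ k) (hjk : (j : ZMod p) ≠ k) (hi0 : (i : ZMod p) ≠ 0)
    (hj0 : (j : ZMod p) ≠ 0) (hi : Good p M s c t i) (hj : Good p M s c t j)
    (hk : Good p M s c t k) : False := by
  obtain ⟨f₁, hf₁, hf₁0, hX₁, hr₁, ht₁, ha₁⟩ := hi
  obtain ⟨f₂, hf₂, hf₂0, hX₂, hr₂, ht₂, ha₂⟩ := hj
  obtain ⟨f₃, hf₃, hf₃0, hX₃, hr₃, ht₃, ha₃⟩ := hk
  -- the space of these characters is at most two dimensional
  have hW : ∀ f : G → ZMod p, IsChar M f → cj s (cj s f - f) = cj s f - f → f t = 0 →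
      (cj s f - f) t = 0 → f (s ^ p) = 0 → f = 0 := by
    intro f hf hX ht hx ha
    obtain ⟨h1, -, -, -, -⟩ := h.e2 hf hX
    have h2 := h.lam0 h1 hx
    exact h.lam0 ⟨hf, sub_eq_zero.mp h2, ha⟩ ht
  have hcomb : ∀ α β γ : ZMod p,
      α * (cj s f₁ - f₁) t + β * (cj s f₂ - f₂) t + γ * (cj s f₃ - f₃) t = 0 →
      α * f₁ (s ^ p) + β * f₂ (s ^ p) + γ * f₃ (s ^ p) = 0 →
      α • f₁ + β • f₂ + γ • f₃ = 0 := by
    intro α β γ h1 h2
    apply hW
    · exact ((hf₁.smul α).add (hf₂.smul β)).add (hf₃.smul γ)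
    · have : cj s (α • f₁ + β • f₂ + γ • f₃) - (α • f₁ + β • f₂ + γ • f₃) =
          α • (cj s f₁ - f₁) + β • (cj s f₂ - f₂) + γ • (cj s f₃ - f₃) := by
        rw [cj_add, cj_add, cj_smul, cj_smul, cj_smul, smul_sub, smul_sub, smul_sub]; abel
      rw [this, cj_add, cj_add, cj_smul, cj_smul, cj_smul, hX₁, hX₂, hX₃]
    · simp [ht₁, ht₂, ht₃]
    · have : cj s (α • f₁ + β • f₂ + γ • f₃) - (α • f₁ + β • f₂ + γ • f₃) =
          α • (cj s f₁ - f₁) + β • (cj s f₂ - f₂) + γ • (cj s f₃ - f₃) := by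
        rw [cj_add, cj_add, cj_smul, cj_smul, cj_smul, smul_sub, smul_sub, smul_sub]; abel
      rw [this]
      simpa using h1
    · simpa using h2
  have hYc : ∀ α β γ : ZMod p, α • f₁ + β • f₂ + γ • f₃ = 0 →
      α * (cj c f₁ - f₁) t + β * (cj c f₂ - f₂) t + γ * (cj c f₃ - f₃) t = 0 ∧
      α * (cj s f₁ - f₁) t + β * (cj s f₂ - f₂) t + γ * (cj s f₃ - f₃) t = 0 ∧
      α * f₁ (c ^ p) + β * f₂ (c ^ p) + γ * f₃ (c ^ p) = 0 ∧
      α * f₁ (s ^ p) + β * f₂ (s ^ p) + γ * f₃ (s ^ p) = 0 := by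
    intro α β γ h0
    have e1 := congrFun h0 (c⁻¹ * t * c)
    have e2 := congrFun h0 t
    have e3 := congrFun h0 (c ^ p)
    have e4 := congrFun h0 (s ^ p)
    have e5 := congrFun h0 (s⁻¹ * t * s)
    simp only [Pi.add_apply, Pi.smul_apply, smul_eq_mul, Pi.zero_apply, Pi.sub_apply,
      cj_apply] at *
    refine ⟨?_, ?_, e3, e4⟩
    · linear_combination e1 - e2
    · linear_combination e5 - e2
  have x₁ : (cj s f₁ - f₁) t = -((i : ZMod p) * (cj c f₁ - f₁) t) := by
    have := congrFun hr₁ t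
    simp only [Pi.add_apply, Pi.smul_apply, smul_eq_mul, Pi.zero_apply] at this
    linear_combination this
  have x₂ : (cj s f₂ - f₂) t = -((j : ZMod p) * (cj c f₂ - f₂) t) := by
    have := congrFun hr₂ t
    simp only [Pi.add_apply, Pi.smul_apply, smul_eq_mul, Pi.zero_apply] at this
    linear_combination this
  have x₃ : (cj s f₃ - f₃) t = -((k : ZMod p) * (cj c f₃ - f₃) t) := by
    have := congrFun hr₃ t
    simp only [Pi.add_apply, Pi.smul_apply, smul_eq_mul, Pi.zero_apply] at this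
    linear_combination this
  generalize hy₁ : (cj c f₁ - f₁) t = y₁ at *
  generalize hy₂ : (cj c f₂ - f₂) t = y₂ at *
  generalize hy₃ : (cj c f₃ - f₃) t = y₃ at *
  generalize hu₁ : (cj s f₁ - f₁) t = u₁ at *
  generalize hu₂ : (cj s f₂ - f₂) t = u₂ at *
  generalize hu₃ : (cj s f₃ - f₃) t = u₃ at *
  generalize hA₁ : f₁ (s ^ p) = A₁ at *
  generalize hA₂ : f₂ (s ^ p) = A₂ at *
  generalize hA₃ : f₃ (s ^ p) = A₃ at *
  generalize hC₁ : f₁ (c ^ p) = C₁ at *
  generalize hC₂ : f₂ (c ^ p) = C₂ at *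
  generalize hC₃ : f₃ (c ^ p) = C₃ at *
  have hΔ : u₁ * A₂ - u₂ * A₁ ≠ 0 := by
    intro hΔ
    have g1 := hcomb A₂ (-A₁) 0 (by linear_combination hΔ) (by ring)
    have g2 := hcomb u₂ (-u₁) 0 (by ring) (by linear_combination -hΔ)
    obtain ⟨-, -, k1, -⟩ := hYc _ _ _ g1
    obtain ⟨k2, -, -, -⟩ := hYc _ _ _ g2
    -- `A₁ A₂ = 0` and `u₁ u₂ = 0`
    have k3 : A₁ * A₂ * ((i : ZMod p) - j) = 0 := by
      linear_combination (i : ZMod p) * j * k1 - (j : ZMod p) * A₂ * ha₁ +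
        (i : ZMod p) * A₁ * ha₂
    have k4 : u₁ * u₂ * ((i : ZMod p) - j) = 0 := by
      linear_combination (i : ZMod p) * j * k2 - (j : ZMod p) * u₂ * x₁ +
        (i : ZMod p) * u₁ * x₂
    have hij' : (i : ZMod p) - j ≠ 0 := sub_ne_zero.mpr hij
    have k5 : A₁ * A₂ = 0 := (mul_eq_zero.mp k3).resolve_right hij'
    have k6 : u₁ * u₂ = 0 := (mul_eq_zero.mp k4).resolve_right hij'
    have hA : A₁ = 0 ∧ A₂ = 0 := by
      rw [zero_smul, add_zero] at g1
      rcases mul_eq_zero.mp k5 with h0 | h0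
      · refine ⟨h0, ?_⟩
        rw [h0, neg_zero, zero_smul, add_zero] at g1
        exact (smul_eq_zero.mp g1).resolve_right hf₁0
      · refine ⟨?_, h0⟩
        rw [h0, zero_smul, zero_add] at g1
        exact neg_eq_zero.mp ((smul_eq_zero.mp g1).resolve_right hf₂0)
    have hu : u₁ = 0 ∧ u₂ = 0 := by
      rw [zero_smul, add_zero] at g2
      rcases mul_eq_zero.mp k6 with h0 | h0
      · refine ⟨h0, ?_⟩
        rw [h0, neg_zero, zero_smul, add_zero] at g2
        exact (smul_eq_zero.mp g2).resolve_right hf₁0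
      · refine ⟨?_, h0⟩
        rw [h0, zero_smul, zero_add] at g2
        exact neg_eq_zero.mp ((smul_eq_zero.mp g2).resolve_right hf₂0)
    have g3 := hcomb 1 0 0 (by rw [hu.1]; ring) (by rw [hA.1]; ring)
    rw [one_smul, zero_smul, zero_smul, add_zero, add_zero] at g3
    exact hf₁0 g3
  -- Cramer's rule
  set Δ := u₁ * A₂ - u₂ * A₁ with hΔd
  set α := u₃ * A₂ - u₂ * A₃ with hα
  set β := u₁ * A₃ - u₃ * A₁ with hβ
  have g1 := hcomb α β (-Δ) (by rw [hα, hβ, hΔd]; ring) (by rw [hα, hβ, hΔd]; ring)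
  obtain ⟨k1, k2, k3, k4⟩ := hYc _ _ _ g1
  set a := α * (j * ((k : ZMod p) - i)) with ha
  set b := β * (i * ((k : ZMod p) - j)) with hb
  have k5 : a * u₁ + b * u₂ = 0 := by
    rw [ha, hb]
    linear_combination (-(i : ZMod p) * j * k) * k1 + (α * j * k) * x₁ + (β * i * k) * x₂ -
      Δ * i * j * x₃ - (i : ZMod p) * j * k2
  have k6 : a * A₁ + b * A₂ = 0 := by
    rw [ha, hb]
    linear_combination (-(i : ZMod p) * j * k) * k3 + (α * j * k) * ha₁ + (β * i * k) * ha₂ -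
      Δ * i * j * ha₃ - (i : ZMod p) * j * k4
  have k7 : a * Δ = 0 := by
    rw [hΔd]; linear_combination A₂ * k5 - u₂ * k6
  have k8 : b * Δ = 0 := by
    rw [hΔd]; linear_combination u₁ * k6 - A₁ * k5
  have hα0 : α = 0 := by
    have := (mul_eq_zero.mp k7).resolve_right hΔ
    rw [ha] at this
    refine (mul_eq_zero.mp this).resolve_right ?_
    exact mul_ne_zero hj0 (sub_ne_zero.mpr (Ne.symm hik))
  have hβ0 : β = 0 := by
    have := (mul_eq_zero.mp k8).resolve_right hΔ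
    rw [hb] at this
    refine (mul_eq_zero.mp this).resolve_right ?_
    exact mul_ne_zero hi0 (sub_ne_zero.mpr (Ne.symm hjk))
  rw [hα0, hβ0, zero_smul, zero_smul, zero_add, zero_add] at g1
  rcases smul_eq_zero.mp g1 with h0 | h0
  · exact hΔ (neg_eq_zero.mp h0)
  · exact hf₃0 h0

/-- Lemma L: if `⟨s, t⟩` contains `M` then so does one of the groups `⟨s c ^ i, t⟩`,
`0 < i < 5` -/
theorem lemL [Finite G] (hG : IsPGroup p G) (h : LCtx p M s c t) (ht : t ∈ M) :
    ∃ i : ℕ, 0 < i ∧ i < 5 ∧ M ≤ closure {s * c ^ i, t} := by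
  by_contra hcon
  push Not at hcon
  have h5 := h.hp5
  have hgb : ∀ i : ℕ, 0 < i → i < 5 → Good p M s c t i ∨ Bad p M s c t i := by
    intro i hi0 hi5
    have hg : Nz (s * c ^ i) M := h.hsn.mul (h.hcn.pow i)
    -- `(s c ^ i) ^ p` is in `M`
    have hgp : (s * c ^ i) ^ p ∈ M := by
      have key1 : ∀ n : ℕ, (c ^ i)⁻¹ * (s ^ n)⁻¹ * c ^ i * s ^ n ∈ M := by
        intro n
        induction n with
        | zero => simp
        | succ n ih =>
          have heq : (c ^ i)⁻¹ * (s ^ (n + 1))⁻¹ * c ^ i * s ^ (n + 1) =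
              ((c ^ i)⁻¹ * s⁻¹ * c ^ i * s) *
                (s⁻¹ * ((c ^ i)⁻¹ * (s ^ n)⁻¹ * c ^ i * s ^ n) * s) := by
            rw [pow_succ]; group
          rw [heq]
          exact M.mul_mem (h.comm_mem i) (h.hsn.conj ih)
      have key : ∀ n : ℕ, ∃ w ∈ M, (s * c ^ i) ^ n = s ^ n * (c ^ i) ^ n * w := by
        intro n
        induction n with
        | zero => exact ⟨1, M.one_mem, by simp⟩
        | succ n ih =>
          obtain ⟨w, hw, h1⟩ := ih
          refine ⟨((c ^ i) ^ n)⁻¹ * ((c ^ i)⁻¹ * (s ^ n)⁻¹ * c ^ i * s ^ n) * (c ^ i) ^ n * w,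
            M.mul_mem (((h.hcn.pow i).pow n).conj (key1 n)) hw, ?_⟩
          rw [pow_succ', h1, pow_succ', pow_succ']; group
      obtain ⟨w, hw, h1⟩ := key p
      rw [h1]
      refine M.mul_mem (M.mul_mem h.hsp ?_) hw
      rw [← pow_mul, mul_comm, pow_mul]
      exact M.pow_mem h.hcp i
    obtain ⟨f, hf, hf0, hfg, hft, hfp⟩ := exists_lam hG ht hg hgp (hcon i hi0 hi5)
    exact h.good_or_bad hf hf0 hfg hft hfp
  have hne : ∀ i j : ℕ, i < 5 → j < 5 → i ≠ j → (i : ZMod p) ≠ j := by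
    intro i j hi hj hij heq
    rw [ZMod.natCast_eq_natCast_iff'] at heq
    rw [Nat.mod_eq_of_lt (by omega), Nat.mod_eq_of_lt (by omega)] at heq
    exact hij heq
  have hne0 : ∀ i : ℕ, 0 < i → i < 5 → (i : ZMod p) ≠ 0 := by
    intro i hi0 hi
    have := hne i 0 hi (by norm_num) (by omega)
    simpa using this
  have h3 : ∀ i j k : ℕ, 0 < i → 0 < j → 0 < k → i < 5 → j < 5 → k < 5 → i ≠ j → i ≠ k →
      j ≠ k → Good p M s c t i → Good p M s c t j → Good p M s c t k → False := by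
    intro i j k hi hj hk hi5 hj5 hk5 hij hik hjk gi gj gk
    exact h.not_three_good (hne i j hi5 hj5 hij) (hne i k hi5 hk5 hik) (hne j k hj5 hk5 hjk)
      (hne0 i hi hi5) (hne0 j hj hj5) gi gj gk
  have h2 : ∀ i j : ℕ, i < 5 → j < 5 → i ≠ j → Bad p M s c t i → Bad p M s c t j → False := by
    intro i j hi5 hj5 hij bi bj
    exact h.not_two_bad (hne i j hi5 hj5 hij) bi bj
  rcases hgb 1 (by norm_num) (by norm_num) with g1 | b1
  · rcases hgb 2 (by norm_num) (by norm_num) with g2 | b2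
    · rcases hgb 3 (by norm_num) (by norm_num) with g3 | b3
      · exact h3 1 2 3 (by norm_num) (by norm_num) (by norm_num) (by norm_num) (by norm_num)
          (by norm_num) (by norm_num) (by norm_num) (by norm_num) g1 g2 g3
      · rcases hgb 4 (by norm_num) (by norm_num) with g4 | b4
        · exact h3 1 2 4 (by norm_num) (by norm_num) (by norm_num) (by norm_num) (by norm_num)
            (by norm_num) (by norm_num) (by norm_num) (by norm_num) g1 g2 g4
        · exact h2 3 4 (by norm_num) (by norm_num) (by norm_num) b3 b4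
    · rcases hgb 3 (by norm_num) (by norm_num) with g3 | b3
      · rcases hgb 4 (by norm_num) (by norm_num) with g4 | b4
        · exact h3 1 3 4 (by norm_num) (by norm_num) (by norm_num) (by norm_num) (by norm_num)
            (by norm_num) (by norm_num) (by norm_num) (by norm_num) g1 g3 g4
        · exact h2 2 4 (by norm_num) (by norm_num) (by norm_num) b2 b4
      · exact h2 2 3 (by norm_num) (by norm_num) (by norm_num) b2 b3
  · rcases hgb 2 (by norm_num) (by norm_num) with g2 | b2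
    · rcases hgb 3 (by norm_num) (by norm_num) with g3 | b3
      · rcases hgb 4 (by norm_num) (by norm_num) with g4 | b4
        · exact h3 2 3 4 (by norm_num) (by norm_num) (by norm_num) (by norm_num) (by norm_num)
            (by norm_num) (by norm_num) (by norm_num) (by norm_num) g2 g3 g4
        · exact h2 1 4 (by norm_num) (by norm_num) (by norm_num) b1 b4
      · exact h2 1 3 (by norm_num) (by norm_num) (by norm_num) b1 b3
    · exact h2 1 2 (by norm_num) (by norm_num) (by norm_num) b1 b2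

end LemL

end Pool.Agent.Sigma57
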