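import Pool.Agent.Sigma57.Chars

/-! A finite `p`-group, `p` odd, with one subgroup of order `p` is cyclic. -/

namespace Pool.Agent.Sigma57

open Subgroup

section LemU

universe u

variable {p : ℕ} [hp : Fact p.Prime]

/-- powers of a product in class two -/
lemma pow_class_two {X : Type*} [Group X] {x y c : X} (hc : y * x = x * y * c)
    (hcx : Commute c x) (hcy : Commute c y) (n : ℕ) :
    (x * y) ^ n = x ^ n * y ^ n * c ^ (n * (n - 1) / 2) := by
  have h1 : ∀ n : ℕ, y ^ n * x = x * y ^ n * c ^ n := by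
    intro n
    induction n with
    | zero => simp
    | succ n ih =>
      have h2 : c ^ n * y = y * c ^ n := (hcy.pow_left n).eq
      have h3 : y * (x * y ^ n * c ^ n) = (y * x) * (y ^ n * c ^ n) := by group
      rw [pow_succ', mul_assoc, ih, h3, hc]
      have h4 : c * (y ^ n * c ^ n) = y ^ n * c ^ (n + 1) := by
        rw [← mul_assoc, (hcy.pow_right n).eq, mul_assoc, ← pow_succ']
      calc x * y * c * (y ^ n * c ^ n) = x * y * (c * (y ^ n * c ^ n)) := by group
        _ = x * y * (y ^ n * c ^ (n + 1)) := by rw [h4]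
        _ = _ := by group
  induction n with
  | zero => simp
  | succ n ih =>
    have h5 : (n + 1) * (n + 1 - 1) / 2 = n * (n - 1) / 2 + n := by
      rcases n with _ | n
      · simp
      · have h6 : (n + 1 + 1) * (n + 1 + 1 - 1) = (n + 1) * (n + 1 - 1) + 2 * (n + 1) := by
          simp only [Nat.add_sub_cancel]; ring
        rw [h6, Nat.add_mul_div_left _ _ (by norm_num)]
    set e := n * (n - 1) / 2 with he
    have h7 : c ^ e * x = x * c ^ e := (hcx.pow_left e).eq
    have h8 : c ^ e * y = y * c ^ e := (hcy.pow_left e).eq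
    have h9 : c ^ n * y = y * c ^ n := (hcy.pow_left n).eq
    rw [pow_succ, ih, h5]
    calc x ^ n * y ^ n * c ^ e * (x * y) = x ^ n * y ^ n * (c ^ e * x) * y := by group
      _ = x ^ n * (y ^ n * x) * (c ^ e * y) := by rw [h7]; group
      _ = x ^ n * (x * y ^ n * c ^ n) * (y * c ^ e) := by rw [h1, h8]
      _ = x ^ (n + 1) * y ^ n * (c ^ n * y) * c ^ e := by group
      _ = x ^ (n + 1) * y ^ n * (y * c ^ n) * c ^ e := by rw [h9]
      _ = x ^ (n + 1) * y ^ (n + 1) * c ^ (e + n) := by
        rw [pow_add]; 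
        have h10 : c ^ n * c ^ e = c ^ e * c ^ n := by rw [← pow_add, ← pow_add, add_comm]
        rw [mul_assoc _ (y * c ^ n) (c ^ e), mul_assoc y, h10]
        group

theorem cyclic_of_unique (hp2 : p ≠ 2) : ∀ (n : ℕ) (X : Type u) [Group X] [Finite X],
    IsPGroup p X → Nat.card X = n →
    (∀ x y : X, x ^ p = 1 → y ^ p = 1 → x ≠ 1 → y ∈ zpowers x) → IsCyclic X := by
  intro n
  induction n using Nat.strong_induction_on with
  | _ n IH =>
  intro X _ _ hX hn hU
  by_contra hcyc
  have hz : ∀ x : X, zpowers x ≠ ⊤ := fun x hx =>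
    hcyc (isCyclic_iff_exists_zpowers_eq_top.mpr ⟨x, hx⟩)
  obtain ⟨A, -, -, hcA⟩ := exists_max hX (lt_top_iff_ne_top.mpr (hz 1))
  have hAtop : A ≠ ⊤ := proper_of_card hp.out.one_lt hcA
  obtain ⟨y, hy⟩ : ∃ y, y ∉ A := by
    by_contra hcon
    push Not at hcon
    exact hAtop ((Subgroup.eq_top_iff' A).mpr hcon)
  obtain ⟨B, hyB, -, hcB⟩ := exists_max hX (lt_top_iff_ne_top.mpr (hz y))
  have hyB' : y ∈ B := hyB (mem_zpowers y)
  rw [Subgroup.card_top] at hcA hcB
  have hABc : Nat.card A = Nat.card B :=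
    Nat.eq_of_mul_eq_mul_left hp.out.pos (hcA.symm.trans hcB)
  have hcAX : Nat.card A < Nat.card X := by
    have h1 : 0 < Nat.card A := Nat.card_pos
    have h2 := hp.out.two_le
    nlinarith
  have hsub : ∀ H : Subgroup X, Nat.card H < Nat.card X → IsCyclic H := by
    intro H hH
    apply IH (Nat.card H) (by rw [← hn]; exact hH) H (hX.to_subgroup H) rfl
    intro a b ha hb hab
    have h1 := hU a b (by rw [← Subgroup.coe_pow, ha]; rfl) (by rw [← Subgroup.coe_pow, hb]; rfl)
      (fun h => hab (Subtype.ext h))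
    obtain ⟨k, hk⟩ := h1
    exact ⟨k, Subtype.ext (by rw [Subgroup.coe_zpow]; exact hk)⟩
  have hAcyc : IsCyclic A := hsub A hcAX
  have hBcyc : IsCyclic B := hsub B (by rw [← hABc]; exact hcAX)
  have hcommA : ∀ a ∈ A, ∀ b ∈ A, a * b = b * a := by
    intro a ha b hb
    have := (IsCyclic.commGroup (α := A)).mul_comm ⟨a, ha⟩ ⟨b, hb⟩
    exact congrArg Subtype.val this
  have hcommB : ∀ a ∈ B, ∀ b ∈ B, a * b = b * a := by
    intro a ha b hb
    have := (IsCyclic.commGroup (α := B)).mul_comm ⟨a, ha⟩ ⟨b, hb⟩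
    exact congrArg Subtype.val this
  -- the intersection is central
  have hcen : ∀ c ∈ A ⊓ B, ∀ x : X, c * x = x * c := by
    intro c hc
    have hle : A < Subgroup.centralizer {c} := by
      apply lt_of_le_of_ne
      · intro a ha
        rw [Subgroup.mem_centralizer_singleton_iff]
        exact hcommA a ha c hc.1
      · intro heq
        apply hy
        rw [heq, Subgroup.mem_centralizer_singleton_iff]
        exact hcommB y hyB' c hc.2
    have h1 := card_step hX hle
    rw [← hcA] at h1
    have h2 : Subgroup.centralizer {c} = ⊤ :=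
      Subgroup.eq_of_le_of_card_ge le_top (by rw [Subgroup.card_top]; exact h1)
    intro x
    have h3 : x ∈ Subgroup.centralizer {c} := h2 ▸ Subgroup.mem_top x
    rw [Subgroup.mem_centralizer_singleton_iff] at h3
    exact h3.symm
  obtain ⟨ψA, hψA⟩ := exists_hom hX (le_top : A ≤ ⊤) (by rw [Subgroup.card_top]; exact hcA)
  obtain ⟨ψB, hψB⟩ := exists_hom hX (le_top : B ≤ ⊤) (by rw [Subgroup.card_top]; exact hcB)
  have hpow : ∀ e : Multiplicative (ZMod p), e ^ p = 1 := by
    intro e
    rw [← ofAdd_toAdd e, ← ofAdd_nsmul]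
    simp
  have hpC : ∀ x : X, x ^ p ∈ A ⊓ B := by
    intro x
    constructor
    · have h1 : ψA (⟨x, mem_top x⟩ ^ p) = 1 := by rw [map_pow, hpow]
      exact (hψA _).1 h1
    · have h1 : ψB (⟨x, mem_top x⟩ ^ p) = 1 := by rw [map_pow, hpow]
      exact (hψB _).1 h1
  have hcomC : ∀ x y : X, y⁻¹ * x⁻¹ * y * x ∈ A ⊓ B := by
    intro x y
    constructor
    · have h1 : ψA ((⟨y, mem_top y⟩ : (⊤ : Subgroup X))⁻¹ * ⟨x, mem_top x⟩⁻¹ * ⟨y, mem_top y⟩ *
          ⟨x, mem_top x⟩) = 1 := by
        rw [map_mul, map_mul, map_mul, map_inv, map_inv, mul_comm (ψA _)⁻¹ (ψA _)⁻¹]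
        group
      exact (hψA _).1 h1
    · have h1 : ψB ((⟨y, mem_top y⟩ : (⊤ : Subgroup X))⁻¹ * ⟨x, mem_top x⟩⁻¹ * ⟨y, mem_top y⟩ *
          ⟨x, mem_top x⟩) = 1 := by
        rw [map_mul, map_mul, map_mul, map_inv, map_inv, mul_comm (ψB _)⁻¹ (ψB _)⁻¹]
        group
      exact (hψB _).1 h1
  have hmul : ∀ x y : X, (x * y) ^ p = x ^ p * y ^ p := by
    intro x y
    set c := y⁻¹ * x⁻¹ * y * x with hc
    have hcC : c ∈ A ⊓ B := hcomC x y
    have h1 : y * x = x * y * c := by rw [hc]; group
    have hcx : Commute c x := hcen c hcC x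
    have hcy : Commute c y := hcen c hcC y
    have h2 := pow_class_two h1 hcx hcy p
    have hcp : c ^ p = 1 := by
      -- `y ^ p` is central
      have h3 : ∀ n : ℕ, y ^ n * x = x * y ^ n * c ^ n := by
        intro n
        induction n with
        | zero => simp
        | succ n ih =>
          have h4 : c * y ^ n = y ^ n * c := (hcy.pow_right n).eq
          calc y ^ (n + 1) * x = y * (y ^ n * x) := by group
            _ = y * (x * y ^ n * c ^ n) := by rw [ih]
            _ = (y * x) * y ^ n * c ^ n := by group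
            _ = x * y * (c * y ^ n) * c ^ n := by rw [h1]; group
            _ = x * y * (y ^ n * c) * c ^ n := by rw [h4]
            _ = x * y ^ (n + 1) * c ^ (n + 1) := by group
      have h5 := h3 p
      rw [hcen _ (hpC y) x] at h5
      exact (mul_eq_left.mp h5.symm)
    have hdiv : p * (p - 1) / 2 = p * ((p - 1) / 2) := by
      have hodd := hp.out.odd_of_ne_two hp2
      obtain ⟨k, hk⟩ := hodd
      have : p - 1 = 2 * k := by omega
      rw [this, ← mul_assoc, mul_comm p 2, mul_assoc, Nat.mul_div_cancel_left _ (by norm_num),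
        Nat.mul_div_cancel_left _ (by norm_num)]
    rw [h2, hdiv, pow_mul, hcp, one_pow, mul_one]
  let π : X →* X :=
    { toFun := fun x => x ^ p
      map_one' := one_pow p
      map_mul' := hmul }
  have hker : Nat.card π.ker ≤ p := by
    by_cases htr : ∃ x : X, x ∈ π.ker ∧ x ≠ 1
    · obtain ⟨x, hx, hx1⟩ := htr
      have hxp : x ^ p = 1 := hx
      have hle : π.ker ≤ zpowers x := by
        intro w hw
        exact hU x w hxp hw hx1
      have h1 := Subgroup.card_le_of_le hle
      rw [Nat.card_zpowers, orderOf_eq_prime hxp hx1] at h1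
      exact h1
    · push Not at htr
      have h1 : π.ker = ⊥ := (Subgroup.eq_bot_iff_forall _).mpr htr
      rw [h1, Subgroup.card_bot]
      exact hp.out.pos
  have hrange : π.range ≤ A ⊓ B := by
    rintro _ ⟨x, rfl⟩
    exact hpC x
  have hcardr := Subgroup.card_le_of_le hrange
  have hcard : Nat.card π.ker * Nat.card π.range = Nat.card X := by
    have h1 := Subgroup.card_mul_index π.ker
    rw [Subgroup.index_ker] at h1
    exact h1
  have hCA : A ⊓ B < A := by
    apply lt_of_le_of_ne inf_le_left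
    intro h
    have h1 : A ≤ B := inf_eq_left.mp h
    have h2 : A = B := Subgroup.eq_of_le_of_card_ge h1 hABc.ge
    exact hy (h2 ▸ hyB')
  have h1 := card_step hX hCA
  have h2 : Nat.card π.ker * Nat.card π.range ≤ p * Nat.card (A ⊓ B : Subgroup X) :=
    Nat.mul_le_mul hker hcardr
  omega

end LemU

end Pool.Agent.Sigma57
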