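import Pool.Agent.Sigma57.Base

namespace Pool.Agent.Sigma57

open Subgroup

section Rigid

variable {G₁ G₂ : Type*} [Group G₁] [Group G₂] [Finite G₁] [Finite G₂] {p : ℕ}
  [hp : Fact p.Prime]

omit [Finite G₁] in
/-- room gives independent triples -/
lemma room_indep (hroom : Roomy p G₁) {a b : G₁} (hab : closure {a, b} ≠ ⊤) (hD : ¬ D2 a b) :
    ∃ w, ¬ D3 a b w := by
  obtain ⟨w, hw, hwa, hwb, hwn⟩ := hroom a b hab
  refine ⟨w, ?_⟩
  rintro (h | h | h)
  · exact hwn h
  · obtain ⟨i, j, hij⟩ := comm_pair hwb h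
    have h1 : w ^ j ∈ closure {a, b} := by
      have : w ^ j = (b ^ i)⁻¹ * a := by rw [hij]; group
      rw [this]
      exact Subgroup.mul_mem _ (Subgroup.inv_mem _ (Subgroup.zpow_mem _ (mem_pair_right a b) i))
        (mem_pair_left a b)
    rw [zpow_out (p := p) hw hwn h1, mul_one] at hij
    exact hD (Or.inl ⟨i, hij.symm⟩)
  · obtain ⟨i, j, hij⟩ := comm_pair hwa h
    have h1 : w ^ j ∈ closure {a, b} := by
      have : w ^ j = (a ^ i)⁻¹ * b := by rw [hij]; group
      rw [this]
      exact Subgroup.mul_mem _ (Subgroup.inv_mem _ (Subgroup.zpow_mem _ (mem_pair_left a b) i))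
        (mem_pair_right a b)
    rw [zpow_out (p := p) hw hwn h1, mul_one] at hij
    exact hD (Or.inr ⟨i, hij.symm⟩)

/-- in a two generated group an element which is not part of a generating pair lies in all
subgroups of index `p` -/
lemma frattini_like {G : Type*} [Group G] [Finite G] (hG : IsPGroup p G) {u v a : G}
    (huv : closure {u, v} = ⊤) (ha : ∀ x, closure {a, x} ≠ ⊤) {N : Subgroup G}
    (hN : Nat.card (⊤ : Subgroup G) = p * Nat.card N) : a ∈ N := by
  obtain ⟨N₁, hN₁, -, hc₁⟩ := exists_max hG (lt_top_iff_ne_top.mpr (ha u))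
  obtain ⟨N₂, hN₂, -, hc₂⟩ := exists_max hG (lt_top_iff_ne_top.mpr (ha v))
  have ha₁ : a ∈ N₁ := hN₁ (mem_pair_left _ _)
  have hu₁ : u ∈ N₁ := hN₁ (mem_pair_right _ _)
  have ha₂ : a ∈ N₂ := hN₂ (mem_pair_left _ _)
  have hv₂ : v ∈ N₂ := hN₂ (mem_pair_right _ _)
  have hv₁ : v ∉ N₁ := by
    intro h
    have h1 : (⊤ : Subgroup G) ≤ N₁ := huv ▸ closure_pair_le hu₁ h
    exact proper_of_card hp.out.one_lt hc₁ (le_antisymm le_top h1)
  have hu₂ : u ∉ N₂ := by
    intro h
    have h1 : (⊤ : Subgroup G) ≤ N₂ := huv ▸ closure_pair_le h hv₂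
    exact proper_of_card hp.out.one_lt hc₂ (le_antisymm le_top h1)
  obtain ⟨ψ₁, hψ₁⟩ := exists_hom hG (le_top : N₁ ≤ ⊤) hc₁
  obtain ⟨ψ₂, hψ₂⟩ := exists_hom hG (le_top : N₂ ≤ ⊤) hc₂
  obtain ⟨ψ, hψ⟩ := exists_hom hG (le_top : N ≤ ⊤) hN
  have hz : Nat.card (Multiplicative (ZMod p)) = p := by simp
  obtain ⟨n₁, hn₁⟩ := mem_powers_of_prime_card (g := ψ₁ ⟨v, Subgroup.mem_top v⟩)
    (g' := ψ ⟨v, Subgroup.mem_top v⟩) hz (fun h => hv₁ ((hψ₁ _).1 h))
  obtain ⟨n₂, hn₂⟩ := mem_powers_of_prime_card (g := ψ₂ ⟨u, Subgroup.mem_top u⟩)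
    (g' := ψ ⟨u, Subgroup.mem_top u⟩) hz (fun h => hu₂ ((hψ₂ _).1 h))
  have heq : ((powMonoidHom n₁).comp ψ₁) * ((powMonoidHom n₂).comp ψ₂) = ψ := by
    apply hom_ext huv (Subgroup.mem_top u) (Subgroup.mem_top v)
    · rw [MonoidHom.mul_apply, MonoidHom.comp_apply, MonoidHom.comp_apply,
        (hψ₁ ⟨u, Subgroup.mem_top u⟩).2 hu₁, map_one, one_mul]
      exact hn₂
    · rw [MonoidHom.mul_apply, MonoidHom.comp_apply, MonoidHom.comp_apply,
        (hψ₂ ⟨v, Subgroup.mem_top v⟩).2 hv₂, map_one, mul_one]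
      exact hn₁
  have h1 : ψ ⟨a, Subgroup.mem_top a⟩ = 1 := by
    rw [← heq, MonoidHom.mul_apply, MonoidHom.comp_apply, MonoidHom.comp_apply,
      (hψ₁ ⟨a, Subgroup.mem_top a⟩).2 ha₁, (hψ₂ ⟨a, Subgroup.mem_top a⟩).2 ha₂, map_one, map_one,
      one_mul]
  exact (hψ _).1 h1

/-- subgroups of index `p` of a two generated noncyclic roomy group are rigid -/
lemma top_case (hG₁ : IsPGroup p G₁) (hG₂ : IsPGroup p G₂) {φ : G₁ ≃ G₂} (hφ : SigmaIso φ)
    (hroom : Roomy p G₁) {s t : G₁} (hst : closure {s, t} = ⊤) (hnc : ∀ z : G₁, zpowers z ≠ ⊤)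
    {M : Subgroup G₁} (hM : Nat.card (⊤ : Subgroup G₁) = p * Nat.card M) : Rig φ M := by
  classical
  -- the second group is noncyclic
  have hnc₂ : ∀ z : G₂, zpowers z ≠ ⊤ := by
    intro z hz
    have h0 : closure ({φ s, φ t, z} : Set G₂) = ⊤ := by
      rw [eq_top_iff, ← hz, Subgroup.zpowers_le]
      exact Subgroup.subset_closure (by simp)
    have h1 : D2 (φ s) (φ t) := by
      have h2 : zpowers z = ⊤ := hz
      obtain ⟨z', hz'⟩ := (Subgroup.isCyclic_iff_exists_zpowers_eq_top _).mp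
        (by
          have : IsCyclic (zpowers z) := inferInstance
          rw [h2] at this
          exact Subgroup.isCyclic_of_le (le_top : closure {φ s, φ t} ≤ ⊤))
      exact d2_of_cyclic hG₂ hz'
    rcases (hφ.d2 s t).2 h1 with h2 | h2
    · apply hnc t
      rw [eq_top_iff, ← hst]
      exact closure_pair_le h2 (mem_zpowers t)
    · apply hnc s
      rw [eq_top_iff, ← hst]
      exact closure_pair_le (mem_zpowers s) h2
  -- generating pairs come from generating pairs
  have hgen : ∀ a b : G₁, closure {φ a, φ b} = ⊤ → closure {a, b} = ⊤ := by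
    intro a b hab
    by_contra hcon
    have hD : ¬ D2 a b := by
      intro h
      rcases (hφ.d2 a b).1 h with h1 | h1
      · apply hnc₂ (φ b)
        rw [eq_top_iff, ← hab]
        exact closure_pair_le h1 (mem_zpowers _)
      · apply hnc₂ (φ a)
        rw [eq_top_iff, ← hab]
        exact closure_pair_le (mem_zpowers _) h1
    obtain ⟨w, hw⟩ := room_indep hroom hcon hD
    apply hw
    rw [hφ.d3]
    exact Or.inl (hab ▸ Subgroup.mem_top _)
  obtain ⟨u, v, huv, huv'⟩ := R1 hG₁ hG₂ hφ (Rig.top φ) (le_refl ⊤) hst hnc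
    (fun _ _ _ _ _ => le_top)
  have hgen₂ : closure {φ u, φ v} = ⊤ := by
    rw [eq_top_iff]
    intro y _
    have := (huv' (φ.symm y)).1 (Subgroup.mem_top _)
    simpa using this
  obtain ⟨A, -, huA, hcA, -⟩ := exists_Ma hG₂ hgen₂ (hnc₂ (φ u))
  obtain ⟨B, -, hvB, hcB, -⟩ := exists_Ma hG₂
    (show closure {φ v, φ u} = ⊤ by rw [Set.pair_comm]; exact hgen₂) (hnc₂ (φ v))
  have hcc : Nat.card (⊤ : Subgroup G₁) = Nat.card (⊤ : Subgroup G₂) := by
    rw [Subgroup.card_top, Subgroup.card_top]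
    exact Nat.card_congr φ
  have hMA : Nat.card M = Nat.card A := by
    have : p * Nat.card M = p * Nat.card A := by rw [← hM, hcc, hcA]
    exact Nat.eq_of_mul_eq_mul_left hp.out.pos this
  have hAB : A ⊓ B < A := by
    apply lt_of_le_of_ne inf_le_left
    intro h
    have h1 : φ u ∈ B := (inf_eq_left.mp h) huA
    have h2 : (⊤ : Subgroup G₂) ≤ B := hgen₂ ▸ closure_pair_le h1 hvB
    exact proper_of_card hp.out.one_lt hcB (le_antisymm le_top h2)
  obtain ⟨a, haM, haAB⟩ : ∃ a ∈ M, φ a ∉ A ⊓ B := by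
    by_contra hcon
    push Not at hcon
    have h1 : (M : Set G₁) ⊆ {c | φ c ∈ A ⊓ B} := hcon
    have h2 := Set.ncard_le_ncard h1 (Set.toFinite _)
    rw [ncard_pre, ncard_coe] at h2
    have h3 := card_lt hAB
    omega
  obtain ⟨x, hx⟩ : ∃ x, closure {φ a, x} = ⊤ := by
    by_contra hcon
    push Not at hcon
    exact haAB ⟨frattini_like hG₂ hgen₂ hcon hcA, frattini_like hG₂ hgen₂ hcon hcB⟩
  obtain ⟨N, -, -, hcN, hN⟩ := exists_Ma hG₂ hx (hnc₂ (φ a))
  have hMN : ∀ m ∈ M, φ m ∈ N := by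
    intro m hm
    by_contra hcon
    have h1 := hgen a m (hN (φ m) (Subgroup.mem_top _) hcon)
    have h2 : (⊤ : Subgroup G₁) ≤ M := h1 ▸ closure_pair_le haM hm
    exact proper_of_card hp.out.one_lt hM (le_antisymm le_top h2)
  have hMNc : Nat.card N = Nat.card M := by
    have : p * Nat.card M = p * Nat.card N := by rw [← hM, hcc, hcN]
    exact (Nat.eq_of_mul_eq_mul_left hp.out.pos this).symm
  have hset : (M : Set G₁) = {c | φ c ∈ N} := by
    apply Set.eq_of_subset_of_ncard_le _ _ (Set.toFinite _)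
    · exact hMN
    · rw [ncard_pre, ncard_coe, hMNc]
  apply Rig.of_image (L := N)
  intro c
  constructor
  · exact hMN c
  · intro hc
    have : c ∈ {c | φ c ∈ N} := hc
    rw [← hset] at this
    exact this

/-- all noncyclic two generated subgroups are rigid -/
lemma main2 (hG₁ : IsPGroup p G₁) (hG₂ : IsPGroup p G₂) {φ : G₁ ≃ G₂} (hφ : SigmaIso φ)
    (hroom : Roomy p G₁) : ∀ n : ℕ, ∀ P : Subgroup G₁, (∃ a b : G₁, closure {a, b} = P) →
      ¬ IsCyclic P → Nat.card G₁ - Nat.card P = n → Rig φ P := by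
  classical
  intro n
  induction n using Nat.strong_induction_on with
  | _ n IH =>
  intro P hP hPnc hPn
  have IH' : ∀ Q : Subgroup G₁, (∃ a b : G₁, closure {a, b} = Q) → ¬ IsCyclic Q →
      Nat.card P < Nat.card Q → Rig φ Q := by
    intro Q hQ hQnc hPQ
    have h1 : Nat.card Q ≤ Nat.card G₁ := Subgroup.card_le_card_group Q
    exact IH (Nat.card G₁ - Nat.card Q) (by omega) Q hQ hQnc rfl
  set R : Subgroup G₁ := sInf {R | Rig φ R ∧ P ≤ R} with hRdef
  have hR : Rig φ R := Rig.sInf _ (fun R hR => hR.1)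
  have hPR : P ≤ R := le_sInf (fun R hR => hR.2)
  have hRmin : ∀ S : Subgroup G₁, Rig φ S → P ≤ S → R ≤ S := fun S h1 h2 => sInf_le ⟨h1, h2⟩
  let S := {K : Subgroup G₁ // (∃ a b : G₁, closure {a, b} = K) ∧ P ≤ K ∧ K ≤ R}
  have : Nonempty S := ⟨⟨P, hP, le_refl P, hPR⟩⟩
  obtain ⟨⟨K, ⟨s, t, hst⟩, hPK, hKR⟩, hKmax⟩ :=
    Finite.exists_max (fun q : S => Nat.card q.1)
  dsimp only at hKmax
  have hncK : ¬ IsCyclic K := fun h => hPnc (Subgroup.isCyclic_of_le hPK)
  have hz : ∀ z : G₁, zpowers z ≠ K := by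
    intro z hz
    apply hncK
    rw [← hz]
    infer_instance
  have hKrig : Rig φ K := by
    obtain ⟨a, b, -, h⟩ := R1 hG₁ hG₂ hφ hR hKR hst hz (by
      intro x hx y hy hxy
      have h1 : Nat.card (closure {x, y}) ≤ Nat.card K :=
        hKmax ⟨closure {x, y}, ⟨x, y, rfl⟩, hPK.trans hxy, closure_pair_le hx hy⟩
      rw [Subgroup.eq_of_le_of_card_ge hxy h1])
    exact Rig.of_image h
  have hRK : R = K := le_antisymm (hRmin K hKrig hPK) hKR
  by_cases hPeq : P = R
  · rw [hPeq]; exact hR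
  exfalso
  obtain ⟨M, hPM, hMR, hMc⟩ := exists_max hG₁ (lt_of_le_of_ne hPR hPeq)
  have hMrig : Rig φ M := by
    by_cases hRtop : R = ⊤
    · rw [hRtop] at hMc hRK
      exact top_case hG₁ hG₂ hφ hroom (hst.trans hRK.symm) (fun z h => hz z (h.trans hRK)) hMc
    · have hstR : closure {s, t} = R := hst.trans hRK.symm
      obtain ⟨w, hw, hws, hwt, hwn⟩ := hroom s t (by rw [hstR]; exact hRtop)
      rw [hstR] at hwn
      obtain ⟨ψ, hψ⟩ := exists_hom hG₁ hMR hMc
      obtain ⟨θ, hθinj, hθgen, hθ⟩ := twist hMR ψ hψ hstR hw hws hwt hwn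
      have hQc : Nat.card θ.range = Nat.card R :=
        (Nat.card_congr (MonoidHom.ofInjective hθinj).toEquiv).symm
      have hQnc : ¬ IsCyclic θ.range := by
        intro h
        have h1 : IsCyclic R :=
          isCyclic_of_injective (MonoidHom.ofInjective hθinj).toMonoidHom
            (MonoidHom.ofInjective hθinj).injective
        exact hPnc (Subgroup.isCyclic_of_le hPR)
      have hQ : Rig φ θ.range := IH' θ.range hθgen hQnc (by
        rw [hQc]; exact card_lt (lt_of_le_of_ne hPR hPeq))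
      have h2 := hR.inf hQ
      rw [hθ] at h2
      exact h2
  have h3 : R ≤ M := hRmin M hMrig hPM
  exact proper_of_card hp.out.one_lt hMc (le_antisymm hMR h3)

/-- `⟨x, w⟩` is not cyclic -/
lemma not_cyclic_pair {G : Type*} [Group G] [Finite G] (hG : IsPGroup p G) {x w : G}
    (hx : x ≠ 1) (hw : w ^ p = 1) (hwx : w ∉ zpowers x) : ¬ IsCyclic (closure {x, w}) := by
  intro h
  obtain ⟨z, hz⟩ := (Subgroup.isCyclic_iff_exists_zpowers_eq_top _).mp h
  rcases d2_of_cyclic hG hz with h1 | h1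
  · obtain ⟨j, rfl⟩ := h1
    simp only at hx hwx
    apply hx
    by_contra hj
    exact hj (zpow_out (p := p) (H := zpowers (w ^ j)) hw hwx (mem_zpowers _))
  · exact hwx h1

/-- cyclic subgroups are rigid -/
lemma rig_zpowers (hG₁ : IsPGroup p G₁) (hG₂ : IsPGroup p G₂) {φ : G₁ ≃ G₂} (hφ : SigmaIso φ)
    (hroom : Roomy p G₁) (x : G₁) : Rig φ (zpowers x) := by
  by_cases hx : x = 1
  · subst hx
    apply Rig.of_image (L := (⊥ : Subgroup G₂))
    intro c
    rw [Subgroup.zpowers_one_eq_bot, Subgroup.mem_bot, Subgroup.mem_bot]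
    constructor
    · rintro rfl; exact hφ.one
    · intro h; exact φ.injective (h.trans hφ.one.symm)
  have hxx : closure {x, x} = zpowers x := by
    rw [Set.pair_eq_singleton, Subgroup.zpowers_eq_closure]
  by_cases htop : closure {x, x} = ⊤
  · rw [← hxx, htop]; exact Rig.top φ
  obtain ⟨w, hw, hwx, -, hwn⟩ := hroom x x htop
  rw [hxx] at hwn htop
  have hnc1 := not_cyclic_pair hG₁ hx hw hwn
  by_cases hK : closure {x, w} = ⊤
  · obtain ⟨M, hxM, -, hMc⟩ := exists_max hG₁ (lt_top_iff_ne_top.mpr htop)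
    have hncz : ∀ z : G₁, zpowers z ≠ ⊤ := by
      intro z hz
      apply hnc1
      rw [hK, ← hz]
      infer_instance
    have hM := top_case hG₁ hG₂ hφ hroom hK hncz hMc
    have hwM : w ∉ M := by
      intro h
      have h2 : (⊤ : Subgroup G₁) ≤ M := hK ▸ closure_pair_le (hxM (mem_zpowers x)) h
      exact proper_of_card hp.out.one_lt hMc (le_antisymm le_top h2)
    have hMx : M = zpowers x := by
      apply le_antisymm _ hxM
      intro m hm
      obtain ⟨i, j, hij⟩ := comm_pair hwx (show m ∈ closure {x, w} by rw [hK]; exact mem_top _)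
      have h1 : w ^ j ∈ M := by
        have : w ^ j = (x ^ i)⁻¹ * m := by rw [hij]; group
        rw [this]
        exact Subgroup.mul_mem _ (Subgroup.inv_mem _ (Subgroup.zpow_mem _ (hxM (mem_zpowers x)) i)) hm
      rw [zpow_out (p := p) hw hwM h1, mul_one] at hij
      exact ⟨i, hij.symm⟩
    rw [← hMx]; exact hM
  · obtain ⟨w', hw', hwx', -, hwn'⟩ := hroom x w hK
    have hwn'' : w' ∉ zpowers x := by
      intro h
      apply hwn'
      have : zpowers x ≤ closure {x, w} := by simpa using mem_pair_left x w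
      exact this h
    have hnc2 := not_cyclic_pair hG₁ hx hw' hwn''
    have h1 := main2 hG₁ hG₂ hφ hroom _ _ ⟨x, w, rfl⟩ hnc1 rfl
    have h2 := main2 hG₁ hG₂ hφ hroom _ _ ⟨x, w', rfl⟩ hnc2 rfl
    have h3 := h1.inf h2
    have h4 : closure {x, w} ⊓ closure {x, w'} = zpowers x := by
      apply le_antisymm
      · rintro m ⟨hm1, hm2⟩
        obtain ⟨i, j, hij⟩ := comm_pair hwx' hm2
        have h1 : w' ^ j ∈ closure {x, w} := by
          have : w' ^ j = (x ^ i)⁻¹ * m := by rw [hij]; group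
          rw [this]
          exact Subgroup.mul_mem _ (Subgroup.inv_mem _ (Subgroup.zpow_mem _ (mem_pair_left x w) i)) hm1
        rw [zpow_out (p := p) hw' hwn' h1, mul_one] at hij
        exact ⟨i, hij.symm⟩
      · rw [Subgroup.zpowers_le]
        exact ⟨mem_pair_left _ _, mem_pair_left _ _⟩
    rw [h4] at h3
    exact h3

lemma rig_pair (hG₁ : IsPGroup p G₁) (hG₂ : IsPGroup p G₂) {φ : G₁ ≃ G₂} (hφ : SigmaIso φ)
    (hroom : Roomy p G₁) (a b : G₁) : Rig φ (closure {a, b}) := by
  by_cases h : IsCyclic (closure {a, b})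
  · obtain ⟨z, hz⟩ := (Subgroup.isCyclic_iff_exists_zpowers_eq_top _).mp h
    rw [← hz]
    exact rig_zpowers hG₁ hG₂ hφ hroom z
  · exact main2 hG₁ hG₂ hφ hroom _ _ ⟨a, b, rfl⟩ h rfl

/-- all subgroups are rigid -/
lemma rig_all (hG₁ : IsPGroup p G₁) (hG₂ : IsPGroup p G₂) {φ : G₁ ≃ G₂} (hφ : SigmaIso φ)
    (hroom : Roomy p G₁) (H : Subgroup G₁) : Rig φ H := by
  intro y hy
  induction hy using Subgroup.closure_induction with
  | mem x hx =>
    obtain ⟨c, hc, rfl⟩ := hx
    simpa using hc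
  | one =>
    have : φ.symm 1 = 1 := by rw [← hφ.one, Equiv.symm_apply_apply]
    rw [this]; exact H.one_mem
  | mul x y _ _ hx hy =>
    have h1 := (rig_pair hG₁ hG₂ hφ hroom (φ.symm x) (φ.symm y)).mem (c := φ.symm (x * y))
      (mem_pair_left _ _) (mem_pair_right _ _) (by
        simp only [Equiv.apply_symm_apply]
        exact Subgroup.mul_mem _ (mem_pair_left _ _) (mem_pair_right _ _))
    exact closure_pair_le hx hy h1
  | inv x _ hx =>
    have h1 := (rig_pair hG₁ hG₂ hφ hroom (φ.symm x) (φ.symm x)).mem (c := φ.symm x⁻¹)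
      (mem_pair_left _ _) (mem_pair_right _ _) (by
        simp only [Equiv.apply_symm_apply]
        exact Subgroup.inv_mem _ (mem_pair_left _ _))
    exact closure_pair_le hx hx h1

/-- the image of a rigid subgroup -/
def img (φ : G₁ ≃ G₂) (H : Subgroup G₁) : Subgroup G₂ := closure (φ '' (H : Set G₁))

omit [Finite G₁] [Finite G₂] in
lemma mem_img {φ : G₁ ≃ G₂} {H : Subgroup G₁} (h : Rig φ H) {y : G₂} :
    y ∈ img φ H ↔ φ.symm y ∈ H :=
  ⟨h y, fun hy => Subgroup.subset_closure ⟨φ.symm y, hy, by simp⟩⟩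

omit [Finite G₁] [Finite G₂] in
lemma coe_img {φ : G₁ ≃ G₂} {H : Subgroup G₁} (h : Rig φ H) :
    (img φ H : Set G₂) = φ '' (H : Set G₁) := by
  ext y
  rw [SetLike.mem_coe, mem_img h]
  constructor
  · intro hy; exact ⟨_, hy, by simp⟩
  · rintro ⟨c, hc, rfl⟩; simpa using hc

omit [Finite G₁] [Finite G₂] in
lemma card_img {φ : G₁ ≃ G₂} {H : Subgroup G₁} (h : Rig φ H) :
    Nat.card (img φ H) = Nat.card H := by
  have h1 : Nat.card (img φ H) = (img φ H : Set G₂).ncard := rfl
  rw [h1, coe_img h, Set.ncard_image_of_injective _ φ.injective]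
  rfl

/-- images of cyclic subgroups -/
lemma join_cyclic (hG₁ : IsPGroup p G₁) (hG₂ : IsPGroup p G₂) {φ : G₁ ≃ G₂} (hφ : SigmaIso φ)
    (hroom : Roomy p G₁) (b c : G₁) (hc : c ∈ zpowers b) : φ c ∈ zpowers (φ b) := by
  by_cases hb : b = 1
  · subst hb
    rw [Subgroup.zpowers_one_eq_bot, Subgroup.mem_bot] at hc
    rw [hc]; exact mem_zpowers _
  have hne : zpowers (1 : G₁) < zpowers b := by
    apply lt_of_le_of_ne
    · rw [Subgroup.zpowers_one_eq_bot]; exact bot_le
    · intro h
      apply hb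
      have : b ∈ zpowers (1 : G₁) := h ▸ mem_zpowers b
      rwa [Subgroup.zpowers_one_eq_bot, Subgroup.mem_bot] at this
  obtain ⟨M, -, hMb, hMc⟩ := exists_max hG₁ hne
  have hbM : b ∉ M := by
    intro h
    have h1 : zpowers b ≤ M := by rwa [Subgroup.zpowers_le]
    exact proper_of_card hp.out.one_lt hMc (le_antisymm hMb h1)
  have hrM := rig_all hG₁ hG₂ hφ hroom M
  have hrb := rig_all hG₁ hG₂ hφ hroom (zpowers b)
  have hlt : img φ M < zpowers (φ b) := by
    apply lt_of_le_of_ne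
    · intro y hy
      rw [mem_img hrM] at hy
      have h1 : D2 (φ (φ.symm y)) (φ b) := (hφ.d2 _ _).1 (Or.inl (hMb hy))
      rw [Equiv.apply_symm_apply] at h1
      rcases h1 with h1 | h1
      · exact h1
      · exfalso
        apply hbM
        have h2 : φ b ∈ img φ M := by
          have h3 : zpowers y ≤ img φ M := by
            rw [Subgroup.zpowers_le, mem_img hrM]; exact hy
          exact h3 h1
        rw [mem_img hrM] at h2
        simpa using h2
    · intro h
      apply hbM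
      have h2 : φ b ∈ img φ M := h ▸ mem_zpowers _
      rw [mem_img hrM] at h2
      simpa using h2
  have h1 := card_step hG₂ hlt
  rw [card_img hrM, ← hMc, ← card_img hrb] at h1
  have h2 : zpowers (φ b) ≤ img φ (zpowers b) := by
    rw [Subgroup.zpowers_le, mem_img hrb]
    simp
  rw [Subgroup.eq_of_le_of_card_ge h2 h1, mem_img hrb]
  simpa using hc

/-- images of two generated subgroups -/
lemma join_pair (hG₁ : IsPGroup p G₁) (hG₂ : IsPGroup p G₂) {φ : G₁ ≃ G₂} (hφ : SigmaIso φ)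
    (hroom : Roomy p G₁) (a b c : G₁) (hc : c ∈ closure {a, b}) :
    φ c ∈ closure {φ a, φ b} := by
  have hzl : zpowers (φ a) ≤ closure {φ a, φ b} := by
    rw [Subgroup.zpowers_le]; exact mem_pair_left _ _
  have hzr : zpowers (φ b) ≤ closure {φ a, φ b} := by
    rw [Subgroup.zpowers_le]; exact mem_pair_right _ _
  by_cases hD : D2 a b
  · rcases hD with h | h
    · exact hzr (join_cyclic hG₁ hG₂ hφ hroom b c (closure_pair_le h (mem_zpowers b) hc))
    · exact hzl (join_cyclic hG₁ hG₂ hφ hroom a c (closure_pair_le (mem_zpowers a) h hc))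
  have hna : zpowers a ≠ closure {a, b} := fun h => hD (Or.inr (h ▸ mem_pair_right a b))
  have hnb : zpowers b ≠ closure {b, a} := fun h => hD (Or.inl (h ▸ mem_pair_right b a))
  obtain ⟨A, hAP, haA, hcA, -⟩ := exists_Ma hG₁ rfl hna
  obtain ⟨B, hBP, hbB, hcB, -⟩ := exists_Ma hG₁ rfl hnb
  rw [Set.pair_comm b a] at hBP hcB
  have hbA : b ∉ A := by
    intro h
    exact proper_of_card hp.out.one_lt hcA (le_antisymm hAP (closure_pair_le haA h))
  have haB : a ∉ B := by
    intro h
    exact proper_of_card hp.out.one_lt hcB (le_antisymm hBP (closure_pair_le h hbB))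
  have hrA := rig_all hG₁ hG₂ hφ hroom A
  have hrB := rig_all hG₁ hG₂ hφ hroom B
  have hrD := rig_all hG₁ hG₂ hφ hroom (A ⊓ B)
  have hrP := rig_all hG₁ hG₂ hφ hroom (closure {a, b})
  set L := closure {φ a, φ b} with hL
  have h1 : img φ (A ⊓ B) < L ⊓ img φ A := by
    apply lt_of_le_of_ne
    · intro y hy
      rw [mem_img hrD] at hy
      refine ⟨?_, (mem_img hrA).2 hy.1⟩
      have h2 : D3 (φ a) (φ b) (φ (φ.symm y)) := (hφ.d3 _ _ _).1 (Or.inl (hAP hy.1))
      rw [Equiv.apply_symm_apply] at h2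
      rcases h2 with h2 | h2 | h2
      · exact h2
      · exact absurd (hrB.mem hbB hy.2 (by rw [Equiv.apply_symm_apply]; exact h2)) haB
      · exact absurd (hrA.mem haA hy.1 (by rw [Equiv.apply_symm_apply]; exact h2)) hbA
    · intro h
      apply haB
      have h2 : φ a ∈ L ⊓ img φ A := ⟨mem_pair_left _ _, (mem_img hrA).2 (by simpa using haA)⟩
      rw [← h, mem_img hrD] at h2
      simpa using h2.2
  have h2 : L ⊓ img φ A < L := by
    apply lt_of_le_of_ne inf_le_left
    intro h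
    apply hbA
    have h3 : φ b ∈ img φ A := (inf_eq_left.mp h) (mem_pair_right _ _)
    rw [mem_img hrA] at h3
    simpa using h3
  have h3 := card_step hG₂ h1
  have h4 := card_step hG₂ h2
  rw [card_img hrD] at h3
  have h5 := card_inf_ge hAP hBP hcB
  have h6 : Nat.card (img φ (closure {a, b})) ≤ Nat.card L := by
    rw [card_img hrP, hcA]
    calc p * Nat.card A ≤ p * (p * Nat.card (A ⊓ B : Subgroup G₁)) := Nat.mul_le_mul_left _ h5
      _ ≤ p * Nat.card (L ⊓ img φ A : Subgroup G₂) := Nat.mul_le_mul_left _ h3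
      _ ≤ _ := h4
  have h7 : L ≤ img φ (closure {a, b}) := by
    apply closure_pair_le
    · rw [mem_img hrP]; simpa using mem_pair_left a b
    · rw [mem_img hrP]; simpa using mem_pair_right a b
  rw [Subgroup.eq_of_le_of_card_ge h7 h6, mem_img hrP]
  simpa using hc

end Rigid

section Family

variable {p : ℕ} [hp : Fact p.Prime]

/-- the direct product of a nontrivial finite `p`-group and `C_p × C_p` is roomy -/
lemma roomy_prod (G₀ : Type*) [Group G₀] [Finite G₀] [Nontrivial G₀] (h₀ : IsPGroup p G₀) :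
    Roomy p (G₀ × Multiplicative (ZMod p) × Multiplicative (ZMod p)) := by
  intro x y _
  have hpow : ∀ e : Multiplicative (ZMod p), e ^ p = 1 := by
    intro e
    rw [← ofAdd_toAdd e, ← ofAdd_nsmul]
    simp
  by_cases h1 : ∃ e : Multiplicative (ZMod p) × Multiplicative (ZMod p),
      ((1 : G₀), e) ∉ closure {x, y}
  · obtain ⟨e, he⟩ := h1
    refine ⟨(1, e), ?_, ?_, ?_, he⟩
    · ext <;> simp [hpow]
    · apply Prod.ext
      · simp
      · exact mul_comm _ _
    · apply Prod.ext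
      · simp
      · exact mul_comm _ _
  push Not at h1
  by_cases h2 : x.1 = 1 ∧ y.1 = 1
  · have hdvd : p ∣ Nat.card G₀ := by
      obtain ⟨n, hn⟩ := IsPGroup.iff_card.mp h₀
      have hn0 : n ≠ 0 := by
        rintro rfl
        have h3 : Nat.card G₀ = 1 := by simpa using hn
        have h4 : 1 < Nat.card G₀ := Finite.one_lt_card
        omega
      rw [hn]; exact dvd_pow_self p hn0
    obtain ⟨g, hg⟩ := exists_prime_orderOf_dvd_card' (G := G₀) p hdvd
    refine ⟨(g, 1), ?_, ?_, ?_, ?_⟩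
    · apply Prod.ext
      · show g ^ p = 1
        rw [← hg]; exact pow_orderOf_eq_one g
      · simp
    · apply Prod.ext
      · simp [h2.1]
      · simp
    · apply Prod.ext
      · simp [h2.2]
      · simp
    · intro hmem
      have h3 : closure {x, y} ≤ (MonoidHom.fst G₀
          (Multiplicative (ZMod p) × Multiplicative (ZMod p))).ker :=
        closure_pair_le h2.1 h2.2
      have h4 : g = 1 := h3 hmem
      rw [h4, orderOf_one] at hg
      exact hp.out.one_lt.ne hg
  · exfalso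
    have hR₀ : (⊥ : Subgroup G₀) < closure {x.1, y.1} := by
      rw [bot_lt_iff_ne_bot]
      intro h
      apply h2
      constructor
      · have := mem_pair_left x.1 y.1
        rwa [h, Subgroup.mem_bot] at this
      · have := mem_pair_right x.1 y.1
        rwa [h, Subgroup.mem_bot] at this
    obtain ⟨M, -, hM, hMc⟩ := exists_max h₀ hR₀
    obtain ⟨ψ, hψ⟩ := exists_hom h₀ hM hMc
    have hmap : ∀ r ∈ closure {x, y}, r.1 ∈ closure {x.1, y.1} := by
      intro r hr
      have h3 : closure {x, y} ≤ (closure {x.1, y.1}).comap (MonoidHom.fst G₀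
          (Multiplicative (ZMod p) × Multiplicative (ZMod p))) :=
        closure_pair_le (mem_pair_left x.1 y.1) (mem_pair_right x.1 y.1)
      exact h3 hr
    have hlift : ∀ g ∈ closure {x.1, y.1}, ∃ r ∈ closure {x, y}, r.1 = g := by
      intro g hg
      have h3 : closure {x.1, y.1} ≤ (closure {x, y}).map (MonoidHom.fst G₀
          (Multiplicative (ZMod p) × Multiplicative (ZMod p))) :=
        closure_pair_le ⟨x, mem_pair_left x y, rfl⟩ ⟨y, mem_pair_right x y, rfl⟩
      obtain ⟨r, hr, hrg⟩ := h3 hg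
      exact ⟨r, hr, hrg⟩
    obtain ⟨g, hg, hgM⟩ : ∃ g ∈ closure {x.1, y.1}, g ∉ M := by
      by_contra hcon
      push Not at hcon
      exact proper_of_card hp.out.one_lt hMc (le_antisymm hM hcon)
    let f : closure {x, y} →*
        Multiplicative (ZMod p) × Multiplicative (ZMod p) × Multiplicative (ZMod p) :=
      { toFun := fun r => (ψ ⟨r.1.1, hmap r.1 r.2⟩, r.1.2)
        map_one' := by
          apply Prod.ext
          · exact map_one ψ
          · rfl
        map_mul' := by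
          intro a b
          apply Prod.ext
          · exact map_mul ψ ⟨a.1.1, hmap a.1 a.2⟩ ⟨b.1.1, hmap b.1 b.2⟩
          · rfl }
    have hfsurj : Function.Surjective f := by
      rintro ⟨v, e⟩
      have hz : Nat.card (Multiplicative (ZMod p)) = p := by simp
      obtain ⟨n, hn⟩ := mem_powers_of_prime_card (g := ψ ⟨g, hg⟩) (g' := v) hz
        (fun h => hgM ((hψ _).1 h))
      obtain ⟨r, hr, hrg⟩ := hlift (g ^ n) (Subgroup.pow_mem _ hg n)
      have hr' : r * (1, r.2⁻¹ * e) ∈ closure {x, y} := Subgroup.mul_mem _ hr (h1 _)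
      refine ⟨⟨r * (1, r.2⁻¹ * e), hr'⟩, ?_⟩
      apply Prod.ext
      · show ψ ⟨(r * (1, r.2⁻¹ * e)).1, _⟩ = v
        have h5 : (⟨(r * (1, r.2⁻¹ * e)).1, hmap _ hr'⟩ : closure {x.1, y.1}) = ⟨g, hg⟩ ^ n := by
          apply Subtype.ext
          show r.1 * 1 = g ^ n
          rw [mul_one, hrg]
        rw [h5, map_pow]
        exact hn
      · show r.2 * (r.2⁻¹ * e) = e
        group
    set u := f ⟨x, mem_pair_left x y⟩ with hu
    set v := f ⟨y, mem_pair_right x y⟩ with hv
    have hpow3 : ∀ e : Multiplicative (ZMod p) × Multiplicative (ZMod p) ×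
        Multiplicative (ZMod p), e ^ p = 1 := by
      intro e
      ext <;> simp [hpow]
    have hgen : ∀ e : Multiplicative (ZMod p) × Multiplicative (ZMod p) ×
        Multiplicative (ZMod p), e ∈ Subgroup.closure {u, v} := by
      intro e
      obtain ⟨r, rfl⟩ := hfsurj e
      have h3 : closure {x, y} ≤ ((Subgroup.closure {u, v}).comap f).map (closure {x, y}).subtype :=
        closure_pair_le ⟨⟨x, mem_pair_left x y⟩, mem_pair_left u v, rfl⟩
          ⟨⟨y, mem_pair_right x y⟩, mem_pair_right u v, rfl⟩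
      obtain ⟨r', hr', hrr'⟩ := h3 r.2
      have : r' = r := Subtype.ext hrr'
      rw [← this]
      exact hr'
    have hsurj : Function.Surjective (fun q : ZMod p × ZMod p => u ^ q.1.val * v ^ q.2.val) := by
      intro e
      obtain ⟨i, j, hij⟩ := comm_pair (mul_comm v u) (hgen e)
      refine ⟨((i : ZMod p), (j : ZMod p)), ?_⟩
      have key : ∀ (a : Multiplicative (ZMod p) × Multiplicative (ZMod p) ×
          Multiplicative (ZMod p)) (k : ℤ), a ^ ((k : ZMod p).val) = a ^ k := by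
        intro a k
        rw [← zpow_natCast, ZMod.val_intCast]
        have h6 : a ^ (k % (p : ℤ)) = a ^ k := by
          conv_rhs => rw [← Int.emod_add_mul_ediv k p, zpow_add, zpow_mul, zpow_natCast,
            hpow3, one_zpow, mul_one]
        exact h6
      show u ^ ((i : ZMod p).val) * v ^ ((j : ZMod p).val) = e
      rw [key, key, hij]
    have hcard := Nat.card_le_card_of_surjective _ hsurj
    have hc1 : Nat.card (ZMod p × ZMod p) = p * p := by
      rw [Nat.card_prod, Nat.card_zmod]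
    have hc2 : Nat.card (Multiplicative (ZMod p) × Multiplicative (ZMod p) ×
        Multiplicative (ZMod p)) = p * (p * p) := by
      rw [Nat.card_prod, Nat.card_prod]
      simp
    rw [hc1, hc2] at hcard
    have := hp.out.two_le
    nlinarith [Nat.mul_pos hp.out.pos hp.out.pos]

end Family

/-- rigidity of isomorphisms of independence complexes for roomy `p`-groups -/
theorem roomy_main (p : ℕ) [hp : Fact p.Prime] {G₁ G₂ : Type*} [Group G₁] [Group G₂]
    [Finite G₁] (hG₁ : IsPGroup p G₁) (hroom : Roomy p G₁) (φ : G₁ ≃ G₂) (hφ : SigmaIso φ) :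
    ∃ Φ : Subgroup G₁ ≃o Subgroup G₂,
      ∀ H : Subgroup G₁, (Φ H : Set G₂) = φ '' (H : Set G₁) ∧ Nat.card (Φ H) = Nat.card H := by
  have hfin : Finite G₂ := Finite.of_equiv G₁ φ
  have hG₂ : IsPGroup p G₂ := by
    obtain ⟨n, hn⟩ := IsPGroup.iff_card.mp hG₁
    exact IsPGroup.of_card (n := n) (by rw [← hn]; exact (Nat.card_congr φ).symm)
  have hr := fun H : Subgroup G₁ => rig_all hG₁ hG₂ hφ hroom H
  let Ψ : Subgroup G₂ → Subgroup G₁ := fun K =>
    { carrier := {c | φ c ∈ K}
      one_mem' := by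
        show φ 1 ∈ K
        rw [hφ.one]; exact K.one_mem
      mul_mem' := by
        intro a b ha hb
        exact closure_pair_le ha hb (join_pair hG₁ hG₂ hφ hroom a b (a * b)
          (Subgroup.mul_mem _ (mem_pair_left a b) (mem_pair_right a b)))
      inv_mem' := by
        intro a ha
        exact closure_pair_le ha ha (join_pair hG₁ hG₂ hφ hroom a a a⁻¹
          (Subgroup.inv_mem _ (mem_pair_left a a))) }
  have hΨ : ∀ K c, c ∈ Ψ K ↔ φ c ∈ K := fun K c => Iff.rfl
  refine ⟨⟨⟨img φ, Ψ, ?_, ?_⟩, ?_⟩, ?_⟩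
  · intro H
    ext c
    rw [hΨ, mem_img (hr H), Equiv.symm_apply_apply]
  · intro K
    ext y
    rw [mem_img (hr _), hΨ, Equiv.apply_symm_apply]
  · intro H H'
    constructor
    · intro h c hc
      have h1 : φ c ∈ img φ H' := h ((mem_img (hr H)).2 (by simpa using hc))
      rw [mem_img (hr H')] at h1
      simpa using h1
    · intro h y hy
      have h1 := (mem_img (hr H)).1 hy
      exact (mem_img (hr H')).2 (h h1)
  · intro H
    exact ⟨coe_img (hr H), card_img (hr H)⟩

end Pool.Agent.Sigma57
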