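import Pool.Agent.Sigma57.LemL
import Pool.Agent.Sigma57.LemU

/-! Normalisers of the exceptional subgroups. -/

namespace Pool.Agent.Sigma57

open Subgroup

section Step

universe u

variable {G : Type u} [Group G] {p : ℕ} [hp : Fact p.Prime]

/-- order of `⟨g, t⟩` if `t ∈ M`, `g` normalises `M`, `g ^ p ∈ M` -/
lemma card_gM [Finite G] (hG : IsPGroup p G) {M : Subgroup G} {g t : G} (ht : t ∈ M)
    (hg : Nz g M) (hgM : g ∉ M) (hgp : g ^ p ∈ M) (hM : M ≤ closure {g, t}) :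
    Nat.card (closure {g, t}) = p * Nat.card M := by
  have hlt : M < closure {g, t} := lt_of_le_of_ne hM (fun h => hgM (h ▸ mem_pair_left g t))
  obtain ⟨M', h1, h2, h3⟩ := exists_max hG hlt
  have hgM' : g ∉ M' := by
    intro h
    exact proper_of_card hp.out.one_lt h3 (le_antisymm h2 (closure_pair_le h (h1 ht)))
  have h4 : M' = M := by
    apply le_antisymm _ h1
    intro x hx
    obtain ⟨j, y, hy, rfl⟩ := mem_sP hg ht (h2 hx)
    have h5 : g ^ j ∈ M' := by
      have := M'.mul_mem hx (M'.inv_mem (h1 hy))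
      simpa using this
    obtain ⟨k, rfl⟩ := dvd_of_zpow_mem hgM' (h1 hgp) h5
    rw [zpow_mul, zpow_natCast]
    exact M.mul_mem (M.zpow_mem hgp k) hy
  rw [h3, h4]

/-- a subgroup of index `p` is normalised -/
lemma nz_of_card [Finite G] (hG : IsPGroup p G) {M R : Subgroup G} (hMR : M ≤ R)
    (hc : Nat.card R = p * Nat.card M) {g : G} (hg : g ∈ R) : Nz g M := by
  obtain ⟨ψ, hψ⟩ := exists_hom hG hMR hc
  have key : ∀ x : R, x ∈ M.subgroupOf R ↔ (⟨g, hg⟩ : R)⁻¹ * x * ⟨g, hg⟩ ∈ M.subgroupOf R := by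
    intro x
    rw [Subgroup.mem_subgroupOf, Subgroup.mem_subgroupOf, ← hψ, ← hψ, map_mul, map_mul, map_inv,
      mul_comm (ψ ⟨g, hg⟩)⁻¹, inv_mul_cancel_right]
  intro x
  constructor
  · intro hx
    exact (key ⟨x, hMR hx⟩).1 hx
  · intro hx
    have hxR : x ∈ R := by
      have h1 := R.mul_mem (R.mul_mem hg (hMR hx)) (R.inv_mem hg)
      have h2 : g * (g⁻¹ * x * g) * g⁻¹ = x := by group
      rwa [h2] at h1
    exact (key ⟨x, hxR⟩).2 hx

/-- `p`-th powers lie in a subgroup of index `p` -/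
lemma pow_mem_of_card [Finite G] (hG : IsPGroup p G) {M R : Subgroup G} (hMR : M ≤ R)
    (hc : Nat.card R = p * Nat.card M) {g : G} (hg : g ∈ R) : g ^ p ∈ M := by
  obtain ⟨ψ, hψ⟩ := exists_hom hG hMR hc
  have hpow : ∀ e : Multiplicative (ZMod p), e ^ p = 1 := by
    intro e
    rw [← ofAdd_toAdd e, ← ofAdd_nsmul]
    simp
  have h1 : ψ (⟨g, hg⟩ ^ p) = 1 := by rw [map_pow, hpow]
  exact (hψ _).1 h1

/-- the character with kernel `M` -/
lemma exists_char_ker [Finite G] (hG : IsPGroup p G) {M R : Subgroup G} (hMR : M ≤ R)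
    (hc : Nat.card R = p * Nat.card M) :
    ∃ f : G → ZMod p, IsChar R f ∧ ∀ x ∈ R, (f x = 0 ↔ x ∈ M) := by
  classical
  obtain ⟨ψ, hψ⟩ := exists_hom hG hMR hc
  let f : G → ZMod p := fun x => if hx : x ∈ R then Multiplicative.toAdd (ψ ⟨x, hx⟩) else 0
  have hf : ∀ x (hx : x ∈ R), f x = Multiplicative.toAdd (ψ ⟨x, hx⟩) := fun x hx => by
    simp only [f, hx, dif_pos]
  refine ⟨f, ?_, ?_⟩
  · constructor
    · intro x hx y hy
      rw [hf x hx, hf y hy, hf _ (R.mul_mem hx hy), ← toAdd_mul, ← map_mul]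
      rfl
    · intro x hx
      simp only [f, hx, dif_neg, not_false_eq_true]
  · intro x hx
    rw [hf x hx, ← hψ ⟨x, hx⟩]
    constructor
    · intro h; exact Multiplicative.toAdd.injective h
    · intro h; rw [h]; rfl

/-- factors of order `p` are central under the action of `p`-elements -/
lemma central_factor [Finite G] (hG : IsPGroup p G) {M R : Subgroup G} (hMR : M ≤ R)
    (hc : Nat.card R = p * Nat.card M) {c : G} (hcM : Nz c M) (hcR : Nz c R) {s : G}
    (hs : s ∈ R) : s⁻¹ * c⁻¹ * s * c ∈ M := by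
  obtain ⟨f, hf, hfk⟩ := exists_char_ker hG hMR hc
  -- choose an element outside `M`
  obtain ⟨r, hr, hrM⟩ : ∃ r ∈ R, r ∉ M := by
    by_contra hcon
    push Not at hcon
    exact proper_of_card hp.out.one_lt hc (le_antisymm hMR hcon)
  have hr0 : f r ≠ 0 := fun h => hrM ((hfk r hr).1 h)
  -- every element of `R` is a power of `r` modulo `M`
  have hrep : ∀ g : G → ZMod p, IsChar R g → (∀ x ∈ M, g x = 0) → g = (g r / f r) • f := by
    intro g hg hgM
    apply hg.ext (hf.smul _)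
    intro x hx
    -- `x r ^ (-n) ∈ M`
    set n : ℕ := (f x / f r).val with hn
    have h1 : f (x * (r ^ n)⁻¹) = 0 := by
      rw [hf.mul x hx _ (R.inv_mem (R.pow_mem hr n)), hf.inv (R.pow_mem hr n), hf.pow hr n,
        nsmul_eq_mul, hn, ZMod.natCast_val, ZMod.cast_id', id, div_mul_cancel₀ _ hr0]
      ring
    have h2 : x * (r ^ n)⁻¹ ∈ M :=
      (hfk _ (R.mul_mem hx (R.inv_mem (R.pow_mem hr n)))).1 h1
    have h3 := hgM _ h2
    rw [hg.mul x hx _ (R.inv_mem (R.pow_mem hr n)), hg.inv (R.pow_mem hr n), hg.pow hr n,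
        nsmul_eq_mul, hn, ZMod.natCast_val, ZMod.cast_id', id] at h3
    rw [Pi.smul_apply, smul_eq_mul]
    have h4 : g x = f x / f r * g r := by linear_combination h3
    rw [h4]; ring
  have h1 := hrep (cj c f) (hf.cj hcR) (by
    intro x hx
    rw [cj_apply]
    exact (hfk _ (hMR (hcM.conj hx))).2 (hcM.conj hx))
  set ρ := cj c f r / f r with hρ
  have h2 : ∀ n : ℕ, cj (c ^ n) f = (ρ ^ n) • f := by
    intro n
    induction n with
    | zero => simp [cj_one]
    | succ n ih => rw [pow_succ', cj_mul, ih, cj_smul, h1, smul_smul, pow_succ]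
  obtain ⟨m, hm⟩ := isPGroup_iff_pow_pow_eq_one.mp hG c
  have h3 := h2 (p ^ m)
  rw [hm, cj_one, ZMod.pow_card_pow] at h3
  have h4 : cj c f = f := by rw [h1, ← h3]
  have hcs : c⁻¹ * s * c ∈ R := hcR.conj hs
  have h5 : f (s⁻¹ * c⁻¹ * s * c) = 0 := by
    have h6 : s⁻¹ * c⁻¹ * s * c = s⁻¹ * (c⁻¹ * s * c) := by group
    rw [h6, hf.mul _ (R.inv_mem hs) _ hcs, hf.inv hs, ← cj_apply c f s, h4]
    ring
  have h7 : s⁻¹ * c⁻¹ * s * c ∈ R := by
    have h6 : s⁻¹ * c⁻¹ * s * c = s⁻¹ * (c⁻¹ * s * c) := by group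
    rw [h6]; exact R.mul_mem (R.inv_mem hs) hcs
  exact (hfk _ h7).1 h5

/-- a generator in the subgroup of index `p` -/
lemma exists_gen [Finite G] (hG : IsPGroup p G) {M R : Subgroup G} (hMR : M ≤ R)
    (hc : Nat.card R = p * Nat.card M) {x y : G} (hR : closure {x, y} = R) :
    ∃ t ∈ M, ∀ s ∈ R, s ∉ M → closure {s, t} = R := by
  have hxR : x ∈ R := hR ▸ mem_pair_left x y
  have hyR : y ∈ R := hR ▸ mem_pair_right x y
  -- a generator in `M`
  obtain ⟨t, ht, z, hz⟩ : ∃ t ∈ M, ∃ z, closure {t, z} = R := by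
    by_cases hx : x ∈ M
    · exact ⟨x, hx, y, hR⟩
    · obtain ⟨f, hf, hfk⟩ := exists_char_ker hG hMR hc
      have hx0 : f x ≠ 0 := fun h => hx ((hfk x hxR).1 h)
      set n : ℕ := (f y / f x).val with hn
      refine ⟨y * (x ^ n)⁻¹, ?_, x, ?_⟩
      · apply (hfk _ (R.mul_mem hyR (R.inv_mem (R.pow_mem hxR n)))).1
        rw [hf.mul y hyR _ (R.inv_mem (R.pow_mem hxR n)), hf.inv (R.pow_mem hxR n),
          hf.pow hxR n, nsmul_eq_mul, hn, ZMod.natCast_val, ZMod.cast_id', id,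
          div_mul_cancel₀ _ hx0]
        ring
      · apply le_antisymm
        · exact closure_pair_le (R.mul_mem hyR (R.inv_mem (R.pow_mem hxR n))) hxR
        · rw [← hR]
          have h1 := mem_pair_right (y * (x ^ n)⁻¹) x
          apply closure_pair_le h1
          have h2 := Subgroup.mul_mem _ (mem_pair_left (y * (x ^ n)⁻¹) x)
            (Subgroup.pow_mem _ h1 n)
          simpa using h2
  refine ⟨t, ht, fun s hs hsM => ?_⟩
  by_contra hcon
  have htR : t ∈ R := hMR ht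
  obtain ⟨M', h1, h2, h3⟩ := exists_max hG (lt_of_le_of_ne (closure_pair_le hs htR) hcon)
  have h4 : M = M' := unique_max hG hz hMR h2 hc h3 ht (h1 (mem_pair_right s t))
  exact hsM (h4 ▸ h1 (mem_pair_left s t))

/-- the configuration of the tower -/
structure Cfg (p : ℕ) (P N : Subgroup G) (u b : G) (k : ℕ) : Prop where
  hk : 1 ≤ k
  hN : closure {u, b} = N
  hb : b ∈ P
  hPN : P ≤ N
  hnor : Nor P = N
  hu : u ^ p ^ k ∈ P
  hu' : u ^ p ^ (k - 1) ∉ P
  hP : k = 1 ∨ closure {u ^ p ^ k, b} = P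
  hnc : zpowers b ≠ P

/-- exponents of powers of `u` in `P` -/
lemma dvd_of_zpow_mem' {P : Subgroup G} {u : G} {k : ℕ} (hk : 1 ≤ k) (hu : u ^ p ^ k ∈ P)
    (hu' : u ^ p ^ (k - 1) ∉ P) {j : ℤ} (hj : u ^ j ∈ P) : ((p ^ k : ℕ) : ℤ) ∣ j := by
  have h1 : (Int.gcd j ((p ^ k : ℕ) : ℤ)) ∣ p ^ k := by
    have := Int.gcd_dvd_right (a := j) (b := ((p ^ k : ℕ) : ℤ))
    exact_mod_cast this
  obtain ⟨i, hi, hgi⟩ := (Nat.dvd_prime_pow hp.out).1 h1
  have h2 : u ^ ((Int.gcd j ((p ^ k : ℕ) : ℤ) : ℕ) : ℤ) ∈ P := by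
    rw [Int.gcd_eq_gcd_ab, zpow_add, zpow_mul, zpow_mul]
    refine P.mul_mem (P.zpow_mem hj _) (P.zpow_mem ?_ _)
    rw [zpow_natCast]; exact hu
  rw [hgi, zpow_natCast] at h2
  have h3 : i = k := by
    by_contra hne
    have h4 : i ≤ k - 1 := by omega
    apply hu'
    obtain ⟨e, he⟩ := Nat.exists_eq_add_of_le h4
    rw [he, pow_add, pow_mul]
    exact P.pow_mem h2 _
  rw [h3] at hgi
  rw [← hgi]
  exact Int.gcd_dvd_left j _

end Step

end Pool.Agent.Sigma57
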