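import Pool.Agent.Sigma57.Tower
import Pool.Agent.Sigma57.Room

/-! All isomorphisms of independence complexes of a finite `p`-group, `p ≥ 5`, which is not
generated by two elements, come from the subgroup lattices. -/

namespace Pool.Agent.Sigma57

open Subgroup

section Join

variable {G₁ G₂ : Type*} [Group G₁] [Group G₂] [Finite G₁] [Finite G₂] {p : ℕ}
  [hp : Fact p.Prime]

/-- images of cyclic subgroups -/
lemma joinC (hG₁ : IsPGroup p G₁) (hG₂ : IsPGroup p G₂) {φ : G₁ ≃ G₂} (hφ : SigmaIso φ)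
    (hr : ∀ H : Subgroup G₁, Rig φ H) (b c : G₁) (hc : c ∈ zpowers b) :
    φ c ∈ zpowers (φ b) := by
  by_cases hb : b = 1
  · subst hb
    rw [Subgroup.zpowers_one_eq_bot, Subgroup.mem_bot] at hc
    rw [hc]; exact mem_zpowers _
  have hne : zpowers (1 : G₁) < zpowers b := by
    apply lt_of_le_of_ne
    · rw [Subgroup.zpowers_one_eq_bot]; exact bot_le
    · intro h
      apply hb
      have : b ∈ zpowers (1 : G₁) := h ▸ mem_zpowers b
      rwa [Subgroup.zpowers_one_eq_bot, Subgroup.mem_bot] at this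
  obtain ⟨M, -, hMb, hMc⟩ := exists_max hG₁ hne
  have hbM : b ∉ M := by
    intro h
    have h1 : zpowers b ≤ M := by rwa [Subgroup.zpowers_le]
    exact proper_of_card hp.out.one_lt hMc (le_antisymm hMb h1)
  have hrM := hr M
  have hrb := hr (zpowers b)
  have hlt : img φ M < zpowers (φ b) := by
    apply lt_of_le_of_ne
    · intro y hy
      rw [mem_img hrM] at hy
      have h1 : D2 (φ (φ.symm y)) (φ b) := (hφ.d2 _ _).1 (Or.inl (hMb hy))
      rw [Equiv.apply_symm_apply] at h1
      rcases h1 with h1 | h1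
      · exact h1
      · exfalso
        apply hbM
        have h2 : φ b ∈ img φ M := by
          have h3 : zpowers y ≤ img φ M := by
            rw [Subgroup.zpowers_le, mem_img hrM]; exact hy
          exact h3 h1
        rw [mem_img hrM] at h2
        simpa using h2
    · intro h
      apply hbM
      have h2 : φ b ∈ img φ M := h ▸ mem_zpowers _
      rw [mem_img hrM] at h2
      simpa using h2
  have h1 := card_step hG₂ hlt
  rw [card_img hrM, ← hMc, ← card_img hrb] at h1
  have h2 : zpowers (φ b) ≤ img φ (zpowers b) := by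
    rw [Subgroup.zpowers_le, mem_img hrb]
    simp
  rw [Subgroup.eq_of_le_of_card_ge h2 h1, mem_img hrb]
  simpa using hc

/-- images of two generated subgroups -/
lemma joinP (hG₁ : IsPGroup p G₁) (hG₂ : IsPGroup p G₂) {φ : G₁ ≃ G₂} (hφ : SigmaIso φ)
    (hr : ∀ H : Subgroup G₁, Rig φ H) (a b c : G₁) (hc : c ∈ closure {a, b}) :
    φ c ∈ closure {φ a, φ b} := by
  have hzl : zpowers (φ a) ≤ closure {φ a, φ b} := by
    rw [Subgroup.zpowers_le]; exact mem_pair_left _ _
  have hzr : zpowers (φ b) ≤ closure {φ a, φ b} := by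
    rw [Subgroup.zpowers_le]; exact mem_pair_right _ _
  by_cases hD : D2 a b
  · rcases hD with h | h
    · exact hzr (joinC hG₁ hG₂ hφ hr b c (closure_pair_le h (mem_zpowers b) hc))
    · exact hzl (joinC hG₁ hG₂ hφ hr a c (closure_pair_le (mem_zpowers a) h hc))
  have hna : zpowers a ≠ closure {a, b} := fun h => hD (Or.inr (h ▸ mem_pair_right a b))
  have hnb : zpowers b ≠ closure {b, a} := fun h => hD (Or.inl (h ▸ mem_pair_right b a))
  obtain ⟨A, hAP, haA, hcA, -⟩ := exists_Ma hG₁ rfl hna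
  obtain ⟨B, hBP, hbB, hcB, -⟩ := exists_Ma hG₁ rfl hnb
  rw [Set.pair_comm b a] at hBP hcB
  have hbA : b ∉ A := by
    intro h
    exact proper_of_card hp.out.one_lt hcA (le_antisymm hAP (closure_pair_le haA h))
  have haB : a ∉ B := by
    intro h
    exact proper_of_card hp.out.one_lt hcB (le_antisymm hBP (closure_pair_le h hbB))
  have hrA := hr A
  have hrB := hr B
  have hrD := hr (A ⊓ B)
  have hrP := hr (closure {a, b})
  set L := closure {φ a, φ b} with hL
  have h1 : img φ (A ⊓ B) < L ⊓ img φ A := by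
    apply lt_of_le_of_ne
    · intro y hy
      rw [mem_img hrD] at hy
      refine ⟨?_, (mem_img hrA).2 hy.1⟩
      have h2 : D3 (φ a) (φ b) (φ (φ.symm y)) := (hφ.d3 _ _ _).1 (Or.inl (hAP hy.1))
      rw [Equiv.apply_symm_apply] at h2
      rcases h2 with h2 | h2 | h2
      · exact h2
      · exact absurd (hrB.mem hbB hy.2 (by rw [Equiv.apply_symm_apply]; exact h2)) haB
      · exact absurd (hrA.mem haA hy.1 (by rw [Equiv.apply_symm_apply]; exact h2)) hbA
    · intro h
      apply haB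
      have h2 : φ a ∈ L ⊓ img φ A := ⟨mem_pair_left _ _, (mem_img hrA).2 (by simpa using haA)⟩
      rw [← h, mem_img hrD] at h2
      simpa using h2.2
  have h2 : L ⊓ img φ A < L := by
    apply lt_of_le_of_ne inf_le_left
    intro h
    apply hbA
    have h3 : φ b ∈ img φ A := (inf_eq_left.mp h) (mem_pair_right _ _)
    rw [mem_img hrA] at h3
    simpa using h3
  have h3 := card_step hG₂ h1
  have h4 := card_step hG₂ h2
  rw [card_img hrD] at h3
  have h5 := card_inf_ge hAP hBP hcB
  have h6 : Nat.card (img φ (closure {a, b})) ≤ Nat.card L := by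
    rw [card_img hrP, hcA]
    calc p * Nat.card A ≤ p * (p * Nat.card (A ⊓ B : Subgroup G₁)) := Nat.mul_le_mul_left _ h5
      _ ≤ p * Nat.card (L ⊓ img φ A : Subgroup G₂) := Nat.mul_le_mul_left _ h3
      _ ≤ _ := h4
  have h7 : L ≤ img φ (closure {a, b}) := by
    apply closure_pair_le
    · rw [mem_img hrP]; simpa using mem_pair_left a b
    · rw [mem_img hrP]; simpa using mem_pair_right a b
  rw [Subgroup.eq_of_le_of_card_ge h7 h6, mem_img hrP]
  simpa using hc

/-- the isomorphism of the subgroup lattices -/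
theorem iso_of_rig (hG₁ : IsPGroup p G₁) (hG₂ : IsPGroup p G₂) {φ : G₁ ≃ G₂} (hφ : SigmaIso φ)
    (hr : ∀ H : Subgroup G₁, Rig φ H) : ∃ Φ : Subgroup G₁ ≃o Subgroup G₂,
      ∀ H : Subgroup G₁, (Φ H : Set G₂) = φ '' (H : Set G₁) ∧ Nat.card (Φ H) = Nat.card H := by
  let Ψ : Subgroup G₂ → Subgroup G₁ := fun K =>
    { carrier := {c | φ c ∈ K}
      one_mem' := by
        show φ 1 ∈ K
        rw [hφ.one]; exact K.one_mem
      mul_mem' := by
        intro a b ha hb
        exact closure_pair_le ha hb (joinP hG₁ hG₂ hφ hr a b (a * b)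
          (Subgroup.mul_mem _ (mem_pair_left a b) (mem_pair_right a b)))
      inv_mem' := by
        intro a ha
        exact closure_pair_le ha ha (joinP hG₁ hG₂ hφ hr a a a⁻¹
          (Subgroup.inv_mem _ (mem_pair_left a a))) }
  have hΨ : ∀ K c, c ∈ Ψ K ↔ φ c ∈ K := fun K c => Iff.rfl
  refine ⟨⟨⟨img φ, Ψ, ?_, ?_⟩, ?_⟩, ?_⟩
  · intro H
    ext c
    rw [hΨ, mem_img (hr H), Equiv.symm_apply_apply]
  · intro K
    ext y
    rw [mem_img (hr _), hΨ, Equiv.apply_symm_apply]
  · intro H H'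
    constructor
    · intro h c hc
      have h1 : φ c ∈ img φ H' := h ((mem_img (hr H)).2 (by simpa using hc))
      rw [mem_img (hr H')] at h1
      simpa using h1
    · intro h y hy
      have h1 := (mem_img (hr H)).1 hy
      exact (mem_img (hr H')).2 (h h1)
  · intro H
    exact ⟨coe_img (hr H), card_img (hr H)⟩

/-- rigidity of all subgroups from the two generated ones -/
lemma rigA {φ : G₁ ≃ G₂} (hφ : SigmaIso φ) (hr : ∀ a b : G₁, Rig φ (closure {a, b}))
    (H : Subgroup G₁) : Rig φ H := by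
  intro y hy
  induction hy using Subgroup.closure_induction with
  | mem x hx =>
    obtain ⟨c, hc, rfl⟩ := hx
    simpa using hc
  | one =>
    have : φ.symm 1 = 1 := by rw [← hφ.one, Equiv.symm_apply_apply]
    rw [this]; exact H.one_mem
  | mul x y _ _ hx hy =>
    have h1 := (hr (φ.symm x) (φ.symm y)).mem (c := φ.symm (x * y))
      (mem_pair_left _ _) (mem_pair_right _ _) (by
        simp only [Equiv.apply_symm_apply]
        exact Subgroup.mul_mem _ (mem_pair_left _ _) (mem_pair_right _ _))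
    exact closure_pair_le hx hy h1
  | inv x _ hx =>
    have h1 := (hr (φ.symm x) (φ.symm x)).mem (c := φ.symm x⁻¹)
      (mem_pair_left _ _) (mem_pair_right _ _) (by
        simp only [Equiv.apply_symm_apply]
        exact Subgroup.inv_mem _ (mem_pair_left _ _))
    exact closure_pair_le hx hx h1

/-- maximal cyclic subgroups of rigid subgroups are rigid -/
lemma R0 (hG₁ : IsPGroup p G₁) (hG₂ : IsPGroup p G₂) {φ : G₁ ≃ G₂} (hφ : SigmaIso φ)
    {R : Subgroup G₁} (hR : Rig φ R) {x : G₁} (hx : x ∈ R)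
    (hmaxR : ∀ y ∈ R, x ∈ zpowers y → y ∈ zpowers x) : Rig φ (zpowers x) := by
  classical
  by_cases hx1 : x = 1
  · subst hx1
    apply Rig.of_image (L := (⊥ : Subgroup G₂))
    intro c
    rw [Subgroup.zpowers_one_eq_bot, Subgroup.mem_bot, Subgroup.mem_bot]
    constructor
    · rintro rfl; exact hφ.one
    · intro h; exact φ.injective (h.trans hφ.one.symm)
  have hp2 : 2 ≤ p := hp.out.two_le
  let S := {q : G₁ // zpowers q = zpowers x}
  have : Nonempty S := ⟨⟨x, rfl⟩⟩
  obtain ⟨⟨a, ha⟩, hmax0⟩ := Finite.exists_max (fun q : S => Nat.card (zpowers (φ q.1)))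
  dsimp only at ha hmax0
  have hmax : ∀ y : G₁, zpowers y = zpowers x →
      Nat.card (zpowers (φ y)) ≤ Nat.card (zpowers (φ a)) := fun y hy => hmax0 ⟨y, hy⟩
  have haR : a ∈ R := by
    have h1 : zpowers x ≤ R := by rwa [Subgroup.zpowers_le]
    exact h1 (ha ▸ mem_zpowers a)
  have hxa : x ∈ zpowers a := ha ▸ mem_zpowers x
  set L := zpowers (φ a) with hL
  have hLC : ∀ c, φ c ∈ L → c ∈ zpowers x := by
    intro c hc
    have hcR : c ∈ R := hR.mem haR haR (by
      rw [Set.pair_eq_singleton, ← Subgroup.zpowers_eq_closure]; exact hc)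
    rcases (hφ.d2 c a).2 (Or.inl hc) with h | h
    · exact ha ▸ h
    · apply hmaxR c hcR
      have h1 : zpowers a ≤ zpowers c := by rwa [Subgroup.zpowers_le]
      exact h1 hxa
  set T : Set G₁ := {c | φ c ∈ L} with hT
  have hTc : T.ncard = Nat.card L := ncard_pre φ L
  have hTK : T ⊆ (zpowers x : Set G₁) := fun c hc => hLC c hc
  have h1T : (1 : G₁) ∈ T := by
    show φ 1 ∈ L
    rw [hφ.one]; exact L.one_mem
  suffices hcard : Nat.card (zpowers x) ≤ Nat.card L by
    have hTeq : T = (zpowers x : Set G₁) := by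
      apply Set.eq_of_subset_of_ncard_le hTK _ (Set.toFinite _)
      rw [hTc, ncard_coe]; exact hcard
    apply Rig.of_image (L := L)
    intro c
    constructor
    · intro hc
      have : c ∈ T := by rw [hTeq]; exact hc
      exact this
    · exact hLC c
  by_contra hlt
  rw [not_le] at hlt
  have hpL : p * Nat.card L ≤ Nat.card (zpowers x) := by
    obtain ⟨m, hm⟩ := card_pow hG₂ L
    obtain ⟨n, hn⟩ := card_pow hG₁ (zpowers x)
    exact pow_step hm hn hlt
  have hK : closure {1, x} = zpowers x := by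
    apply le_antisymm
    · exact closure_pair_le (Subgroup.one_mem _) (mem_zpowers x)
    · rw [Subgroup.zpowers_le]; exact mem_pair_right _ _
  have hne : zpowers (1 : G₁) ≠ zpowers x := by
    intro h
    apply hx1
    have : x ∈ zpowers (1 : G₁) := h ▸ mem_zpowers x
    rwa [Subgroup.zpowers_one_eq_bot, Subgroup.mem_bot] at this
  obtain ⟨M, hMK, -, hcM, hM⟩ := exists_Ma hG₁ hK hne
  have hout : ∀ c ∈ zpowers x, c ∉ M → c ∈ T := by
    intro c hc hcM'
    have h1 : zpowers c = zpowers x := by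
      rw [← hM c hc hcM']
      apply le_antisymm
      · rw [Subgroup.zpowers_le]; exact mem_pair_right _ _
      · exact closure_pair_le (Subgroup.one_mem _) (mem_zpowers c)
    rcases (hφ.d2 c a).1 (Or.inl (by rw [ha]; exact hc)) with h | h
    · exact h
    · have h2 : zpowers (φ a) ≤ zpowers (φ c) := by rwa [Subgroup.zpowers_le]
      show φ c ∈ zpowers (φ a)
      rw [Subgroup.eq_of_le_of_card_ge h2 (hmax c h1)]
      exact mem_zpowers _
  have h1 : (zpowers x : Set G₁) ⊆ (M : Set G₁) ∪ T := by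
    intro c hc
    by_cases h1 : c ∈ M
    · exact Or.inl h1
    · exact Or.inr (hout c hc h1)
  have h2 := Set.ncard_le_ncard h1 (Set.toFinite _)
  have h3 := Set.ncard_union_add_ncard_inter (M : Set G₁) T
  have h4 : 1 ≤ ((M : Set G₁) ∩ T).ncard := by
    rw [Nat.one_le_iff_ne_zero, Ne, Set.ncard_eq_zero (Set.toFinite _)]
    exact Set.nonempty_iff_ne_empty.mp ⟨1, M.one_mem, h1T⟩
  have h5 : (M : Set G₁).ncard = Nat.card M := rfl
  have h6 : (zpowers x : Set G₁).ncard = Nat.card (zpowers x) := rfl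
  have h7 : 0 < Nat.card M := Nat.card_pos
  have h8 : Nat.card L ≤ Nat.card M := by
    rw [hcM] at hpL
    exact Nat.le_of_mul_le_mul_left hpL hp.out.pos
  rw [h6, hcM] at h2
  rw [h5, hTc] at h3
  nlinarith

end Join

section Main

variable {G₁ G₂ : Type*} [Group G₁] [Group G₂] [Finite G₁] [Finite G₂] {p : ℕ}
  [hp : Fact p.Prime]

/-- noncyclic two generated subgroups are rigid -/
lemma rig2 (hG₁ : IsPGroup p G₁) (hG₂ : IsPGroup p G₂) (hp5 : 5 ≤ p) {φ : G₁ ≃ G₂}
    (hφ : SigmaIso φ) (hnt : ∀ x y : G₁, closure {x, y} ≠ ⊤) :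
    ∀ n : ℕ, ∀ P : Subgroup G₁, (∃ a b : G₁, closure {a, b} = P) →
      ¬ IsCyclic P → Nat.card G₁ - Nat.card P = n → Rig φ P := by
  classical
  intro n
  induction n using Nat.strong_induction_on with
  | _ n IH =>
  intro P hP hPnc hPn
  have IH' : ∀ Q : Subgroup G₁, (∃ a b : G₁, closure {a, b} = Q) → ¬ IsCyclic Q →
      Nat.card P < Nat.card Q → Rig φ Q := by
    intro Q hQ hQnc hPQ
    have h1 : Nat.card Q ≤ Nat.card G₁ := Subgroup.card_le_card_group Q
    exact IH (Nat.card G₁ - Nat.card Q) (by omega) Q hQ hQnc rfl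
  set R : Subgroup G₁ := sInf {R | Rig φ R ∧ P ≤ R} with hRdef
  have hR : Rig φ R := Rig.sInf _ (fun R hR => hR.1)
  have hPR : P ≤ R := le_sInf (fun R hR => hR.2)
  have hRmin : ∀ S : Subgroup G₁, Rig φ S → P ≤ S → R ≤ S := fun S h1 h2 => sInf_le ⟨h1, h2⟩
  let S := {K : Subgroup G₁ // (∃ a b : G₁, closure {a, b} = K) ∧ P ≤ K ∧ K ≤ R}
  have : Nonempty S := ⟨⟨P, hP, le_refl P, hPR⟩⟩
  obtain ⟨⟨K, ⟨s, t, hst⟩, hPK, hKR⟩, hKmax⟩ :=
    Finite.exists_max (fun q : S => Nat.card q.1)
  dsimp only at hKmax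
  have hncK : ¬ IsCyclic K := fun h => hPnc (Subgroup.isCyclic_of_le hPK)
  have hz : ∀ z : G₁, zpowers z ≠ K := by
    intro z hz
    apply hncK
    rw [← hz]
    infer_instance
  have hKrig : Rig φ K := by
    obtain ⟨a, b, -, h⟩ := R1 hG₁ hG₂ hφ hR hKR hst hz (by
      intro x hx y hy hxy
      have h1 : Nat.card (closure {x, y}) ≤ Nat.card K :=
        hKmax ⟨closure {x, y}, ⟨x, y, rfl⟩, hPK.trans hxy, closure_pair_le hx hy⟩
      rw [Subgroup.eq_of_le_of_card_ge hxy h1])
    exact Rig.of_image h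
  have hRK : R = K := le_antisymm (hRmin K hKrig hPK) hKR
  by_cases hPeq : P = R
  · rw [hPeq]; exact hR
  exfalso
  obtain ⟨M, hPM, hMR, hMc⟩ := exists_max hG₁ (lt_of_le_of_ne hPR hPeq)
  obtain ⟨x, y, hxy⟩ := two_gen_of_star hG₁ hp5 hMR hMc (hst.trans hRK.symm) (by
    intro x y hlt
    have h1 : P ≤ closure {x, y} := hPM.trans hlt.le
    refine hRmin _ (IH' (closure {x, y}) ⟨x, y, rfl⟩
      (fun h => hPnc (Subgroup.isCyclic_of_le h1)) ?_) h1
    have h2 := card_lt hlt
    have h3 := Subgroup.card_le_of_le hPM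
    omega) (by
    intro z hz
    apply hPnc
    have h1 : IsCyclic M := by rw [← hz]; infer_instance
    exact Subgroup.isCyclic_of_le hPM)
  exact hnt x y hxy

/-- cyclic subgroups are rigid -/
lemma rig1 (hG₁ : IsPGroup p G₁) (hG₂ : IsPGroup p G₂) (hp2 : p ≠ 2) {φ : G₁ ≃ G₂}
    (hφ : SigmaIso φ) (hnt : ∀ x y : G₁, closure {x, y} ≠ ⊤)
    (h2 : ∀ x y : G₁, ¬ IsCyclic (closure {x, y}) → Rig φ (closure {x, y})) :
    ∀ n : ℕ, ∀ x : G₁, Nat.card G₁ - Nat.card (zpowers x) = n → Rig φ (zpowers x) := by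
  classical
  intro n
  induction n using Nat.strong_induction_on with
  | _ n IH =>
  intro x hxn
  by_contra hnr
  set C := zpowers x with hC
  have hxC : x ∈ C := mem_zpowers x
  have IH' : ∀ Q : Subgroup G₁, IsCyclic Q → Nat.card C < Nat.card Q → Rig φ Q := by
    intro Q hQ hCQ
    obtain ⟨z, hz⟩ := (Subgroup.isCyclic_iff_exists_zpowers_eq_top _).mp hQ
    have h1 : Nat.card Q ≤ Nat.card G₁ := Subgroup.card_le_card_group Q
    rw [← hz]
    exact IH (Nat.card G₁ - Nat.card (zpowers z)) (by rw [hz]; omega) z rfl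
  set R : Subgroup G₁ := sInf {R | Rig φ R ∧ C ≤ R} with hRdef
  have hR : Rig φ R := Rig.sInf _ (fun R hR => hR.1)
  have hCR : C ≤ R := le_sInf (fun R hR => hR.2)
  have hRmin : ∀ S : Subgroup G₁, Rig φ S → C ≤ S → R ≤ S := fun S h1 h2 => sInf_le ⟨h1, h2⟩
  have hCne : C ≠ R := fun h => hnr (h ▸ hR)
  -- `R` is cyclic
  let S := {y : G₁ // y ∈ R ∧ x ∈ zpowers y}
  have : Nonempty S := ⟨⟨x, hCR hxC, mem_zpowers x⟩⟩
  obtain ⟨⟨y, hyR, hxy⟩, hymax⟩ := Finite.exists_max (fun q : S => Nat.card (zpowers q.1))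
  dsimp only at hymax
  have hCy : C ≤ zpowers y := by rw [hC, Subgroup.zpowers_le]; exact hxy
  have hyrig : Rig φ (zpowers y) := by
    apply R0 hG₁ hG₂ hφ hR hyR
    intro z hz hyz
    have h3 : zpowers y ≤ zpowers z := by rwa [Subgroup.zpowers_le]
    have h4 : Nat.card (zpowers z) ≤ Nat.card (zpowers y) := hymax ⟨z, hz, h3 hxy⟩
    rw [Subgroup.eq_of_le_of_card_ge h3 h4]
    exact mem_zpowers z
  have hRy : R = zpowers y :=
    le_antisymm (hRmin _ hyrig hCy) (by rw [Subgroup.zpowers_le]; exact hyR)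
  have hcR : Nat.card R = p * Nat.card C := by
    obtain ⟨M, hCM, hMR, hMc⟩ := exists_max hG₁ (lt_of_le_of_ne hCR hCne)
    by_cases hCM' : C = M
    · rw [hCM']; exact hMc
    exfalso
    have h3 : IsCyclic R := by rw [hRy]; infer_instance
    have h4 : IsCyclic M := Subgroup.isCyclic_of_le hMR
    have h5 := hRmin M (IH' M h4 (card_lt (lt_of_le_of_ne hCM hCM'))) hCM
    exact proper_of_card hp.out.one_lt hMc (le_antisymm hMR h5)
  -- elements of order `p` modulo `C`
  have hord : ∀ g : G₁, Nz g C → g ^ p ∈ C → g ∈ R := by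
    intro g hg hgp
    by_cases hgC : g ∈ C
    · exact hCR hgC
    have hle : C ≤ closure {g, x} := by
      rw [hC, Subgroup.zpowers_le]; exact mem_pair_right _ _
    have h3 := card_gM hG₁ hxC hg hgC hgp hle
    have hlt : Nat.card C < Nat.card (closure {g, x}) := by
      rw [h3]
      have : 0 < Nat.card C := Nat.card_pos
      have := hp.out.one_lt
      nlinarith
    have hrig : Rig φ (closure {g, x}) := by
      by_cases hcy : IsCyclic (closure {g, x})
      · exact IH' _ hcy hlt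
      · exact h2 g x hcy
    have h4 := hRmin _ hrig hle
    rw [Subgroup.eq_of_le_of_card_ge h4 (by rw [h3, hcR])]
    exact mem_pair_left _ _
  obtain ⟨g, hg, hgen⟩ := cyclic_quot hG₁ hp2 (N := C) (H := Nor C) (fun h hh => hh) (by
    intro a ha b hb hap hbp haC
    obtain ⟨m, hm⟩ := exists_pow_mul hG₁ hCR hcR (hord a ha hap) haC (hord b hb hbp)
    exact ⟨m, by rw [zpow_natCast]; exact hm⟩)
  -- `C ≤ ⟨g⟩`
  have hK : closure {1, y} = R := by
    rw [hRy]
    apply le_antisymm
    · exact closure_pair_le (Subgroup.one_mem _) (mem_zpowers y)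
    · rw [Subgroup.zpowers_le]; exact mem_pair_right _ _
  have hRg : R ≤ zpowers g := by
    have hyC : y ∉ C := by
      intro h
      apply hCne
      apply le_antisymm hCR
      rw [hRy, Subgroup.zpowers_le]; exact h
    obtain ⟨j, w, hw, hyj⟩ := hgen y (nz_of_card hG₁ hCR hcR hyR)
    have hgR : g ^ j ∈ R := by
      have : g ^ j = y * w⁻¹ := by rw [hyj]; group
      rw [this]
      exact R.mul_mem hyR (R.inv_mem (hCR hw))
    have hgC : g ^ j ∉ C := by
      intro h
      apply hyC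
      rw [hyj]
      exact C.mul_mem h hw
    have h3 : zpowers (g ^ j) = R := by
      by_contra hne
      have hle : zpowers (g ^ j) ≤ R := by rwa [Subgroup.zpowers_le]
      obtain ⟨M, h4, h5, h6⟩ := exists_max hG₁ (lt_of_le_of_ne hle hne)
      have h7 := unique_max hG₁ hK hCR h5 hcR h6 C.one_mem M.one_mem
      exact hgC (h7 ▸ h4 (mem_zpowers _))
    rw [← h3, Subgroup.zpowers_le]
    exact Subgroup.zpow_mem _ (mem_zpowers g) j
  have hNor : Nor C = zpowers g := by
    apply le_antisymm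
    · intro z hz
      obtain ⟨j, w, hw, hj⟩ := hgen z hz
      rw [hj]
      exact Subgroup.mul_mem _ (Subgroup.zpow_mem _ (mem_zpowers g) j) (hRg (hCR hw))
    · rw [Subgroup.zpowers_le]; exact hg
  have htop : zpowers g ≠ ⊤ := by
    intro h
    apply hnt g g
    rw [Set.pair_eq_singleton, ← Subgroup.zpowers_eq_closure, h]
  apply (lt_Nor hG₁ htop).not_ge
  intro h hh
  rw [← hNor]
  -- `h` normalises `C`
  have hxg : x ∈ zpowers g := hRg (hCR hxC)
  have hxh : h⁻¹ * x * h ∈ zpowers g := (show Nz h (zpowers g) from hh).conj hxg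
  have hcyc : IsCyclic (closure {x, h⁻¹ * x * h}) := by
    have h3 : IsCyclic (zpowers g) := inferInstance
    exact Subgroup.isCyclic_of_le (closure_pair_le hxg hxh)
  obtain ⟨z, hz⟩ := (Subgroup.isCyclic_iff_exists_zpowers_eq_top _).mp hcyc
  have hCj : Cj h C = zpowers (h⁻¹ * x * h) := by
    have h3 := Cj_closure h x x
    rwa [Set.pair_eq_singleton, Set.pair_eq_singleton, ← Subgroup.zpowers_eq_closure,
      ← Subgroup.zpowers_eq_closure] at h3
  have hcard := card_Cj h C
  show Nz h C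
  apply Nz_of_Cj
  rcases d2_of_cyclic hG₁ hz with h3 | h3
  · have hle : C ≤ Cj h C := by rw [hCj, hC, Subgroup.zpowers_le]; exact h3
    exact (Subgroup.eq_of_le_of_card_ge hle hcard.le).symm
  · have hle : Cj h C ≤ C := by rw [hCj, Subgroup.zpowers_le]; exact h3
    exact Subgroup.eq_of_le_of_card_ge hle hcard.ge

end Main

/-- rigidity of isomorphisms of independence complexes for finite `p`-groups, `p ≥ 5`, which are
not generated by two elements -/
theorem three_main (p : ℕ) [hp : Fact p.Prime] (hp5 : 5 ≤ p) {G₁ G₂ : Type*} [Group G₁]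
    [Group G₂] [Finite G₁] (hG₁ : IsPGroup p G₁) (hnt : ∀ x y : G₁, closure {x, y} ≠ ⊤)
    (φ : G₁ ≃ G₂) (hφ : SigmaIso φ) :
    ∃ Φ : Subgroup G₁ ≃o Subgroup G₂,
      ∀ H : Subgroup G₁, (Φ H : Set G₂) = φ '' (H : Set G₁) ∧ Nat.card (Φ H) = Nat.card H := by
  have hfin : Finite G₂ := Finite.of_equiv G₁ φ
  have hG₂ : IsPGroup p G₂ := by
    obtain ⟨n, hn⟩ := IsPGroup.iff_card.mp hG₁
    exact IsPGroup.of_card (n := n) (by rw [← hn]; exact (Nat.card_congr φ).symm)
  have h2 : ∀ x y : G₁, ¬ IsCyclic (closure {x, y}) → Rig φ (closure {x, y}) := fun x y h =>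
    rig2 hG₁ hG₂ hp5 hφ hnt _ _ ⟨x, y, rfl⟩ h rfl
  apply iso_of_rig hG₁ hG₂ hφ
  apply rigA hφ
  intro a b
  by_cases h : IsCyclic (closure {a, b})
  · obtain ⟨z, hz⟩ := (Subgroup.isCyclic_iff_exists_zpowers_eq_top _).mp h
    rw [← hz]
    exact rig1 hG₁ hG₂ (by omega) hφ hnt h2 _ z rfl
  · exact h2 a b h

end Pool.Agent.Sigma57
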