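import Pool.Agent.Sigma57.First

/-! The tower of normalisers. -/

namespace Pool.Agent.Sigma57

open Subgroup

section Cp2

universe u

variable {p : ℕ} [hp : Fact p.Prime]

/-- a noncyclic `p`-group, `p` odd: a central element of order `p` and another one -/
lemma exists_cp2 (hp2 : p ≠ 2) {X : Type u} [Group X] [Finite X] (hX : IsPGroup p X)
    (hnc : ¬ IsCyclic X) : ∃ z c : X, z ^ p = 1 ∧ c ^ p = 1 ∧ z ≠ 1 ∧ c ∉ zpowers z ∧
      ∀ g : X, Commute z g := by
  have h1 : ∃ x y : X, x ^ p = 1 ∧ y ^ p = 1 ∧ x ≠ 1 ∧ y ∉ zpowers x := by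
    by_contra hcon
    push Not at hcon
    exact hnc (cyclic_of_unique hp2 _ X hX rfl hcon)
  obtain ⟨x, y, hx, hy, hx1, hyx⟩ := h1
  have : Nontrivial X := ⟨⟨x, 1, hx1⟩⟩
  have hcn : Nontrivial (Subgroup.center X) := hX.center_nontrivial
  have hdvd : p ∣ Nat.card (Subgroup.center X) := by
    obtain ⟨n, hn⟩ := IsPGroup.iff_card.mp (hX.to_subgroup (Subgroup.center X))
    have hn0 : n ≠ 0 := by
      rintro rfl
      have h4 : 1 < Nat.card (Subgroup.center X) := Finite.one_lt_card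
      rw [hn, pow_zero] at h4
      exact lt_irrefl _ h4
    rw [hn]; exact dvd_pow_self p hn0
  obtain ⟨z, hz⟩ := exists_prime_orderOf_dvd_card' (G := Subgroup.center X) p hdvd
  have hzo : orderOf (z : X) = p := by rw [Subgroup.orderOf_coe, hz]
  have hzp : (z : X) ^ p = 1 := by rw [← hzo]; exact pow_orderOf_eq_one _
  have hz1 : (z : X) ≠ 1 := by
    intro h
    rw [h, orderOf_one] at hzo
    exact hp.out.one_lt.ne hzo
  have hzc : ∀ g : X, Commute (z : X) g := fun g => ((Subgroup.mem_center_iff.mp z.2) g).symm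
  have hcardz : Nat.card (zpowers (z : X)) = p := by rw [Nat.card_zpowers, hzo]
  by_cases hxz : x ∈ zpowers (z : X)
  · refine ⟨z, y, hzp, hy, hz1, ?_, hzc⟩
    intro hyz
    apply hyx
    have hle : zpowers x ≤ zpowers (z : X) := by rwa [Subgroup.zpowers_le]
    have hcardx : Nat.card (zpowers x) = p := by
      rw [Nat.card_zpowers]; exact orderOf_eq_prime hx hx1
    rw [Subgroup.eq_of_le_of_card_ge hle (by rw [hcardz, hcardx])]
    exact hyz
  · exact ⟨z, x, hzp, hx, hz1, hxz, hzc⟩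

end Cp2

section Tower

universe u

variable {G : Type u} [Group G] {p : ℕ} [hp : Fact p.Prime] {P N : Subgroup G} {u b : G} {k : ℕ}

omit hp in
lemma Cfg.nzu (h : Cfg p P N u b k) : Nz u P := by
  have h1 : u ∈ N := h.hN ▸ mem_pair_left u b
  rw [← h.hnor] at h1
  exact h1

omit hp in
lemma Cfg.nor (h : Cfg p P N u b k) {g : G} (hg : Nz g P) : g ∈ N := by
  rw [← h.hnor]; exact hg

omit hp in
lemma Cfg.nor' (h : Cfg p P N u b k) {g : G} (hg : g ∈ N) : Nz g P := by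
  rw [← h.hnor] at hg; exact hg

omit hp in
lemma Cfg.rep (h : Cfg p P N u b k) : ∀ x ∈ N, ∃ j : ℤ, ∃ y ∈ P, x = u ^ j * y := by
  intro x hx
  rw [← h.hN] at hx
  exact mem_sP h.nzu h.hb hx

omit hp in
lemma Cfg.sp (h : Cfg p P N u b k) : (u ^ p ^ (k - 1)) ^ p = u ^ p ^ k := by
  have := h.hk
  rw [← pow_mul, ← pow_succ, Nat.sub_add_cancel this]

omit hp in
lemma Cfg.PR (h : Cfg p P N u b k) : P ≤ closure {u ^ p ^ (k - 1), b} := by
  rcases h.hP with h1 | h1
  · rw [h1]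
    simp only [Nat.sub_self, pow_zero, pow_one]
    rw [h.hN]
    exact h.hPN
  · rw [← h1]
    apply closure_pair_le
    · rw [← h.sp]
      exact Subgroup.pow_mem _ (mem_pair_left _ _) p
    · exact mem_pair_right _ _

omit hp in
lemma Cfg.RN (h : Cfg p P N u b k) : closure {u ^ p ^ (k - 1), b} ≤ N := by
  apply closure_pair_le
  · exact N.pow_mem (h.hN ▸ mem_pair_left u b) _
  · exact h.hPN h.hb

lemma Cfg.cardR [Finite G] (hG : IsPGroup p G) (h : Cfg p P N u b k) :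
    Nat.card (closure {u ^ p ^ (k - 1), b}) = p * Nat.card P :=
  card_gM hG h.hb (h.nzu.pow _) h.hu' (by rw [h.sp]; exact h.hu) h.PR

/-- the character with kernel `P` -/
lemma Cfg.chi (h : Cfg p P N u b k) : ∃ χ : G → ZMod (p ^ k), IsChar N χ ∧
    ∀ x ∈ N, (p • χ x = 0 ↔ x ∈ closure {u ^ p ^ (k - 1), b}) := by
  have hk := h.hk
  have huN : u ∈ N := h.hN ▸ mem_pair_left u b
  obtain ⟨χ, hχ, hval, hker⟩ := exists_exchar h.hk huN h.hPN h.nzu h.hu h.hu' h.rep
  refine ⟨χ, hχ, fun x hx => ?_⟩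
  constructor
  · intro h0
    obtain ⟨j, y, hy, rfl⟩ := h.rep x hx
    rw [hval j y hy, nsmul_eq_mul] at h0
    have h1 : ((p * j : ℤ) : ZMod (p ^ k)) = 0 := by push_cast; exact h0
    rw [ZMod.intCast_zmod_eq_zero_iff_dvd] at h1
    have h2 : ((p : ℤ) * (p : ℤ) ^ (k - 1)) ∣ p * j := by
      have h3 : ((p : ℤ) * (p : ℤ) ^ (k - 1)) = ((p ^ k : ℕ) : ℤ) := by
        rw [← pow_succ', Nat.sub_add_cancel hk]; push_cast; rfl
      rw [h3]; exact h1
    obtain ⟨e, rfl⟩ := Int.dvd_of_mul_dvd_mul_left (Int.natCast_ne_zero.mpr hp.out.ne_zero) h2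
    refine Subgroup.mul_mem _ ?_ (h.PR hy)
    rw [zpow_mul]
    refine Subgroup.zpow_mem _ ?_ e
    rw [← Nat.cast_pow, zpow_natCast]
    exact mem_pair_left _ _
  · intro hx'
    have hle : closure {u ^ p ^ (k - 1), b} ≤ kerC (hχ.nsmul p) := by
      apply closure_pair_le
      · refine ⟨N.pow_mem huN _, ?_⟩
        have h1 := hval ((p ^ (k - 1) : ℕ) : ℤ) 1 P.one_mem
        rw [mul_one, zpow_natCast] at h1
        rw [Pi.smul_apply, h1, nsmul_eq_mul, Int.cast_natCast, ← Nat.cast_mul, ← pow_succ',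
          Nat.sub_add_cancel hk, ZMod.natCast_self]
      · refine ⟨h.hPN h.hb, ?_⟩
        have h1 := (hker b (h.hPN h.hb)).2 h.hb
        rw [Pi.smul_apply, h1, smul_zero]
    exact (hle hx').2

/-- elements of order `p` modulo `N` normalise `R` -/
lemma Cfg.nzR [Finite G] (hG : IsPGroup p G) (hp5 : 5 ≤ p) (h : Cfg p P N u b k) {g : G}
    (hg : Nz g N) (hgp : g ^ p ∈ N) : Nz g (closure {u ^ p ^ (k - 1), b}) := by
  obtain ⟨χ, hχ, hχR⟩ := h.chi
  have h1 := p_dif_zero hG hp5 h.hN hg hgp h.hk hχ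
  have h2 : ∀ x, p • χ (g⁻¹ * x * g) = p • χ x := by
    intro x
    have h3 := congrFun h1 x
    simp only [dif, Pi.smul_apply, Pi.sub_apply, cj_apply, smul_sub, Pi.zero_apply] at h3
    exact sub_eq_zero.mp h3
  intro x
  constructor
  · intro hx
    have hxN := h.RN hx
    rw [← hχR _ (hg.conj hxN), h2, hχR x hxN]
    exact hx
  · intro hx
    have hxN : x ∈ N := (hg x).2 (h.RN hx)
    rw [← hχR _ hxN, ← h2, hχR _ (hg.conj hxN)]
    exact hx

/-- conjugates of `b` -/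
lemma Cfg.notP [Finite G] (hG : IsPGroup p G) (hp5 : 5 ≤ p) (h : Cfg p P N u b k) {g : G}
    (hg : Nz g N) (hgp : g ^ p ∈ N) (hgN : g ∉ N) : b ∉ Cj g P := by
  intro hb
  apply hgN
  apply h.nor
  apply Nz_of_Cj
  have h1 : Cj g P ≤ closure {u ^ p ^ (k - 1), b} := by
    have := Cj_mono (g := g) h.PR
    rwa [Cj_of_Nz (h.nzR hG hp5 hg hgp)] at this
  exact (unique_max hG (K := closure {u ^ p ^ (k - 1), b}) (a := b) (b := u ^ p ^ (k - 1))
    (by rw [Set.pair_comm]) h.PR h1 (h.cardR hG) (by rw [card_Cj]; exact h.cardR hG) h.hb hb).symm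

/-- the index of a conjugate of `P` -/
lemma Cfg.exists_index [Finite G] (hG : IsPGroup p G) (hp5 : 5 ≤ p) (h : Cfg p P N u b k) {g : G}
    (hg : Nz g N) (hgp : g ^ p ∈ N) (hgN : g ∉ N) :
    ∃ j : ZMod p, u ^ p ^ (k - 1) * b ^ j.val ∈ Cj g P := by
  have h1 : Cj g P ≤ closure {u ^ p ^ (k - 1), b} := by
    have := Cj_mono (g := g) h.PR
    rwa [Cj_of_Nz (h.nzR hG hp5 hg hgp)] at this
  have hbR : b ∈ closure {u ^ p ^ (k - 1), b} := mem_pair_right _ _
  have hsR : u ^ p ^ (k - 1) ∈ closure {u ^ p ^ (k - 1), b} := mem_pair_left _ _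
  obtain ⟨f, hf, hfk⟩ := exists_char_ker hG h1 (by rw [card_Cj]; exact h.cardR hG)
  have hb0 : f b ≠ 0 := fun h0 => h.notP hG hp5 hg hgp hgN ((hfk b hbR).1 h0)
  refine ⟨-(f (u ^ p ^ (k - 1))) / f b, ?_⟩
  apply (hfk _ (Subgroup.mul_mem _ hsR (Subgroup.pow_mem _ hbR _))).1
  rw [hf.mul _ hsR _ (Subgroup.pow_mem _ hbR _), hf.pow hbR, nsmul_eq_mul, ZMod.natCast_val,
    ZMod.cast_id', id, div_mul_cancel₀ _ hb0]
  ring

/-- equal indices -/
lemma Cfg.index_inj [Finite G] (hG : IsPGroup p G) (hp5 : 5 ≤ p) (h : Cfg p P N u b k) {g g' : G}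
    (hg : Nz g N) (hgp : g ^ p ∈ N) (hg' : Nz g' N) (hgp' : g' ^ p ∈ N) {j : ℕ}
    (h1 : u ^ p ^ (k - 1) * b ^ j ∈ Cj g P) (h2 : u ^ p ^ (k - 1) * b ^ j ∈ Cj g' P) :
    g * g'⁻¹ ∈ N := by
  have hle : ∀ g, Nz g N → g ^ p ∈ N → Cj g P ≤ closure {u ^ p ^ (k - 1), b} := by
    intro g hg hgp
    have := Cj_mono (g := g) h.PR
    rwa [Cj_of_Nz (h.nzR hG hp5 hg hgp)] at this
  have hK : closure {u ^ p ^ (k - 1) * b ^ j, b} = closure {u ^ p ^ (k - 1), b} := by
    apply le_antisymm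
    · exact closure_pair_le (Subgroup.mul_mem _ (mem_pair_left _ _)
        (Subgroup.pow_mem _ (mem_pair_right _ _) _)) (mem_pair_right _ _)
    · apply closure_pair_le _ (mem_pair_right _ _)
      have h3 := Subgroup.mul_mem _ (mem_pair_left (u ^ p ^ (k - 1) * b ^ j) b)
        (Subgroup.inv_mem _ (Subgroup.pow_mem _ (mem_pair_right (u ^ p ^ (k - 1) * b ^ j) b) j))
      simpa using h3
  have heq := unique_max hG hK (hle g hg hgp) (hle g' hg' hgp')
    (by rw [card_Cj]; exact h.cardR hG) (by rw [card_Cj]; exact h.cardR hG) h1 h2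
  apply h.nor
  intro x
  have h3 : x ∈ P ↔ g⁻¹ * x * g ∈ Cj g P := by
    rw [mem_Cj]
    have : g * (g⁻¹ * x * g) * g⁻¹ = x := by group
    rw [this]
  rw [h3, heq, mem_Cj]
  have : g' * (g⁻¹ * x * g) * g'⁻¹ = (g * g'⁻¹)⁻¹ * x * (g * g'⁻¹) := by group
  rw [this]

/-- the quotient `Nor N / N` is cyclic -/
lemma Cfg.cyc [Finite G] (hG : IsPGroup p G) (hp5 : 5 ≤ p) (h : Cfg p P N u b k) :
    ∃ g, Nz g N ∧ ∀ x, Nz x N → ∃ j : ℤ, ∃ y ∈ N, x = g ^ j * y := by
  classical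
  have hn : (N.subgroupOf (Nor N)).Normal := by
    constructor
    intro n hn g
    rw [Subgroup.mem_subgroupOf] at hn ⊢
    exact (show Nz (g : G) N from g.2).conj' hn
  by_cases hcyc : IsCyclic (Nor N ⧸ N.subgroupOf (Nor N))
  · obtain ⟨g, hg⟩ := IsCyclic.exists_generator (α := Nor N ⧸ N.subgroupOf (Nor N))
    obtain ⟨g, rfl⟩ := QuotientGroup.mk_surjective g
    refine ⟨g, g.2, fun x hx => ?_⟩
    obtain ⟨j, hj⟩ := hg ((⟨x, hx⟩ : Nor N) : Nor N ⧸ N.subgroupOf (Nor N))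
    have hj' : ((g : Nor N ⧸ N.subgroupOf (Nor N))) ^ j =
      ((⟨x, hx⟩ : Nor N) : Nor N ⧸ N.subgroupOf (Nor N)) := hj
    rw [← QuotientGroup.mk_zpow, QuotientGroup.eq, mem_subgroupOf] at hj'
    refine ⟨j, (g : G)⁻¹ ^ j * x, ?_, by group⟩
    simpa using hj'
  · exfalso
    obtain ⟨z, c, hzp, hcp, hz1, hcz, hzc⟩ := exists_cp2 (by omega)
      ((hG.to_subgroup (Nor N)).to_quotient (N.subgroupOf (Nor N))) hcyc
    obtain ⟨z, rfl⟩ := QuotientGroup.mk_surjective z
    obtain ⟨c, rfl⟩ := QuotientGroup.mk_surjective c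
    have hmem : ∀ g : Nor N, ((g : Nor N ⧸ N.subgroupOf (Nor N)) = 1 ↔ (g : G) ∈ N) := by
      intro g
      rw [QuotientGroup.eq_one_iff, mem_subgroupOf]
    -- the elements `c z ^ i`
    have hx1 : ∀ i : ℕ, ((c * z ^ i : Nor N) : G) ^ p ∈ N := by
      intro i
      have h1 : (((c * z ^ i) ^ p : Nor N) : Nor N ⧸ N.subgroupOf (Nor N)) = 1 := by
        rw [QuotientGroup.mk_pow, QuotientGroup.mk_mul, QuotientGroup.mk_pow,
          (((hzc _).symm).pow_right i).mul_pow, hcp, one_mul, ← pow_mul, mul_comm, pow_mul, hzp,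
          one_pow]
      rw [hmem] at h1
      simpa using h1
    have hx2 : ∀ i : ℕ, ((c * z ^ i : Nor N) : G) ∉ N := by
      intro i hi
      rw [← hmem, QuotientGroup.mk_mul, QuotientGroup.mk_pow] at hi
      apply hcz
      rw [eq_inv_of_mul_eq_one_left hi]
      exact Subgroup.inv_mem _ (Subgroup.pow_mem _ (mem_zpowers _) _)
    have hz2 : (z : G) ^ p ∈ N := by
      have h1 : ((z ^ p : Nor N) : Nor N ⧸ N.subgroupOf (Nor N)) = 1 := by
        rw [QuotientGroup.mk_pow, hzp]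
      rw [hmem] at h1
      simpa using h1
    have hz3 : (z : G) ∉ N := by rwa [Ne, hmem] at hz1
    have hidx : ∀ i : ZMod p, ∃ j : ZMod p, u ^ p ^ (k - 1) * b ^ j.val ∈
        Cj ((c * z ^ i.val : Nor N) : G) P := fun i =>
      h.exists_index hG hp5 (show Nz ((c * z ^ i.val : Nor N) : G) N from (c * z ^ i.val).2)
        (hx1 i.val) (hx2 i.val)
    choose F hF using hidx
    obtain ⟨j₀, hj₀⟩ := h.exists_index hG hp5 (show Nz (z : G) N from z.2) hz2 hz3
    have hinj : Function.Injective F := by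
      intro i i' hii
      have h1 := hF i
      have h2 := hF i'
      rw [← hii] at h2
      have h3 := h.index_inj hG hp5 (show Nz ((c * z ^ i.val : Nor N) : G) N from
        (c * z ^ i.val).2) (hx1 i.val) (show Nz ((c * z ^ i'.val : Nor N) : G) N from
        (c * z ^ i'.val).2) (hx1 i'.val) h1 h2
      have h4 : (((c * z ^ i.val) * (c * z ^ i'.val)⁻¹ : Nor N) :
          Nor N ⧸ N.subgroupOf (Nor N)) = 1 := by
        rw [hmem]; exact h3
      rw [QuotientGroup.mk_mul, QuotientGroup.mk_inv, mul_inv_eq_one, QuotientGroup.mk_mul,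
        QuotientGroup.mk_mul, mul_right_inj, QuotientGroup.mk_pow, QuotientGroup.mk_pow] at h4
      have hord : orderOf (z : Nor N ⧸ N.subgroupOf (Nor N)) = p := orderOf_eq_prime hzp hz1
      have h5 := pow_inj_mod.mp h4
      rw [hord, Nat.mod_eq_of_lt (ZMod.val_lt _), Nat.mod_eq_of_lt (ZMod.val_lt _)] at h5
      exact ZMod.val_injective p h5
    obtain ⟨i, hi⟩ := (Finite.injective_iff_surjective.mp hinj) j₀
    have h1 := hF i
    rw [hi] at h1
    have h3 := h.index_inj hG hp5 (show Nz ((c * z ^ i.val : Nor N) : G) N from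
        (c * z ^ i.val).2) (hx1 i.val) (show Nz (z : G) N from z.2) hz2 h1 hj₀
    have h4 : (((c * z ^ i.val) * z⁻¹ : Nor N) : Nor N ⧸ N.subgroupOf (Nor N)) = 1 := by
      rw [hmem]; exact h3
    rw [QuotientGroup.mk_mul, QuotientGroup.mk_inv, mul_inv_eq_one, QuotientGroup.mk_mul,
      QuotientGroup.mk_pow] at h4
    apply hcz
    rw [eq_mul_inv_of_mul_eq h4]
    exact Subgroup.mul_mem _ (mem_zpowers _) (Subgroup.inv_mem _ (Subgroup.pow_mem _
      (mem_zpowers _) _))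

omit hp in
lemma cj_zpow {A : Type*} [AddCommGroup A] {g : G} {f : G → A} (h : cj g f = f) (j : ℤ) :
    cj (g ^ j) f = f := by
  have hnat : ∀ n : ℕ, cj (g ^ n) f = f := by
    intro n
    induction n with
    | zero => simp [cj_one]
    | succ n ih => rw [pow_succ, cj_mul, h, ih]
  cases j with
  | ofNat n => rw [Int.ofNat_eq_natCast, zpow_natCast, hnat]
  | negSucc n =>
    rw [zpow_negSucc]
    conv_lhs => rw [← hnat (n + 1)]
    rw [← cj_mul, inv_mul_cancel, cj_one]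

/-- the conjugate of `b` and `b` generate `R` -/
lemma Cfg.genR [Finite G] (hG : IsPGroup p G) (hp5 : 5 ≤ p) (h : Cfg p P N u b k) {g : G}
    (hg : Nz g N) (hgp : g ^ p ∈ N) (hgN : g ∉ N) : g⁻¹ * b * g ∉ P ∧
      g⁻¹ * b * g ∈ closure {u ^ p ^ (k - 1), b} ∧
      closure {u ^ p ^ (k - 1), b} ≤ closure {g, b} := by
  have h1 : g⁻¹ * b * g ∉ P := by
    intro h0
    apply h.notP hG hp5 (g := g⁻¹) hg.inv (by rw [inv_pow]; exact N.inv_mem hgp)
      (fun h2 => hgN (by simpa using N.inv_mem h2))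
    rw [mem_Cj, inv_inv]
    exact h0
  have hbR : b ∈ closure {u ^ p ^ (k - 1), b} := mem_pair_right _ _
  have h2 : g⁻¹ * b * g ∈ closure {u ^ p ^ (k - 1), b} := (h.nzR hG hp5 hg hgp).conj hbR
  refine ⟨h1, h2, ?_⟩
  have h3 : closure {b, g⁻¹ * b * g} = closure {u ^ p ^ (k - 1), b} := by
    by_contra hne
    obtain ⟨M', h4, h5, h6⟩ := exists_max hG (lt_of_le_of_ne (closure_pair_le hbR h2) hne)
    have h7 := unique_max hG (K := closure {u ^ p ^ (k - 1), b}) (a := b) (b := u ^ p ^ (k - 1))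
      (by rw [Set.pair_comm]) h.PR h5 (h.cardR hG) h6 h.hb (h4 (mem_pair_left _ _))
    exact h1 (h7 ▸ h4 (mem_pair_right _ _))
  rw [← h3]
  apply closure_pair_le (mem_pair_right _ _)
  exact Subgroup.mul_mem _ (Subgroup.mul_mem _ (Subgroup.inv_mem _ (mem_pair_left _ _))
    (mem_pair_right _ _)) (mem_pair_left _ _)

/-- the main case of the tower: `g ^ p` and `b` generate `N` -/
lemma Cfg.genN [Finite G] (hG : IsPGroup p G) (hp5 : 5 ≤ p) (h : Cfg p P N u b k) (hk2 : 2 ≤ k)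
    {g : G} (hg : Nz g N) (hgp : g ^ p ∈ N) (hgN : g ∉ N) : closure {g ^ p, b} = N := by
  have hPgen : closure {u ^ p ^ k, b} = P := h.hP.resolve_left (by omega)
  have hPgen' : closure {b, u ^ p ^ k} = P := by rw [Set.pair_comm]; exact hPgen
  have huN : u ∈ N := h.hN ▸ mem_pair_left u b
  have hbN : b ∈ N := h.hPN h.hb
  obtain ⟨hA1, hA2, -⟩ := h.genR hG hp5 hg hgp hgN
  by_contra hne
  obtain ⟨M', h1, h2, h3⟩ := exists_max hG (lt_of_le_of_ne (closure_pair_le hgp hbN) hne)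
  obtain ⟨f, hf, hfk⟩ := exists_char_ker hG h2 h3
  have hfb : f b = 0 := (hfk b hbN).2 (h1 (mem_pair_right _ _))
  have hfg : f (g ^ p) = 0 := (hfk _ hgp).2 (h1 (mem_pair_left _ _))
  have hfu : f u ≠ 0 := by
    intro h0
    have h4 : u ∈ M' := (hfk u huN).1 h0
    have h5 : N ≤ M' := by
      have := closure_pair_le h4 (h1 (mem_pair_right (g ^ p) b))
      rwa [h.hN] at this
    exact proper_of_card hp.out.one_lt h3 (le_antisymm h2 h5)
  -- `g ^ p` is a power of `u ^ p` times an element of `P`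
  have hfP : ∀ y ∈ P, f y = 0 := by
    have hle : P ≤ kerC hf := by
      rw [← hPgen]
      apply closure_pair_le
      · refine ⟨N.pow_mem huN _, ?_⟩
        obtain ⟨e, he⟩ : p ∣ p ^ k := dvd_pow_self p (by omega)
        rw [hf.pow huN, he]
        simp
      · exact ⟨hbN, hfb⟩
    intro y hy
    exact (hle hy).2
  obtain ⟨j, y, hy, hgj⟩ := h.rep _ hgp
  have hj : (p : ℤ) ∣ j := by
    rw [hgj, hf.mul _ (N.zpow_mem huN j) _ (h.hPN hy), hfP y hy, add_zero, hf.zpow huN,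
      zsmul_eq_mul] at hfg
    have h4 := (mul_eq_zero.mp hfg).resolve_right hfu
    rwa [ZMod.intCast_zmod_eq_zero_iff_dvd] at h4
  obtain ⟨e, rfl⟩ := hj
  -- the character `λ` of `P`
  obtain ⟨K, hKP, hbK, hKc, hKa⟩ := exists_Ma hG hPgen' h.hnc
  have haP : u ^ p ^ k ∈ P := h.hu
  have haK : u ^ p ^ k ∉ K := by
    intro h0
    have h5 : P ≤ K := by
      have := closure_pair_le h0 hbK
      rwa [hPgen] at this
    exact proper_of_card hp.out.one_lt hKc (le_antisymm hKP h5)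
  obtain ⟨lam, hlam, hlamk⟩ := exists_char_ker hG hKP hKc
  have hlb : lam b = 0 := (hlamk b h.hb).2 hbK
  have hup : cj (u ^ p) lam = lam := by
    rw [cj_p_one hG (by omega) hPgen h.nzu hlam p]
    have : p • dif u lam = 0 := by ext z; simp
    rw [this, add_zero]
  have hus : cj (u ^ p ^ (k - 1)) lam = lam := by
    rw [cj_p_one hG (by omega) hPgen h.nzu hlam]
    obtain ⟨e', he'⟩ : p ∣ p ^ (k - 1) := dvd_pow_self p (by omega)
    have : p ^ (k - 1) • dif u lam = 0 := by rw [he']; ext z; simp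
    rw [this, add_zero]
  have hgl : cj (g ^ p) lam = lam := by
    rw [hgj, cj_mul, hlam.cj_self hy, zpow_mul, zpow_natCast, cj_zpow hup]
  -- the subgroup `K`
  have hKmem : ∀ x, x ∈ K ↔ x ∈ P ∧ lam x = 0 := by
    intro x
    constructor
    · intro hx
      exact ⟨hKP hx, (hlamk x (hKP hx)).2 hx⟩
    · rintro ⟨hx, h0⟩
      exact (hlamk x hx).1 h0
  have hsP : Nz (u ^ p ^ (k - 1)) P := h.nzu.pow _
  have hsK : Nz (u ^ p ^ (k - 1)) K := by
    intro x
    rw [hKmem, hKmem, ← hsP x, ← cj_apply _ lam x, hus]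
  have hs2 : (u ^ p ^ (k - 1)) ^ p ^ 2 ∈ K := by
    rw [pow_two p, pow_mul, h.sp, hKmem]
    refine ⟨P.pow_mem haP p, ?_⟩
    rw [hlam.pow haP]
    simp
  have hs1 : (u ^ p ^ (k - 1)) ^ p ^ (2 - 1) ∉ K := by
    have : (2 - 1 : ℕ) = 1 := rfl
    rw [this, pow_one, h.sp]
    exact haK
  obtain ⟨μ, hμ, hval, hker⟩ := exists_exchar (p := p) (K := K)
    (R := closure {u ^ p ^ (k - 1), b}) (k := 2) (by norm_num) (mem_pair_left _ _)
    (hKP.trans h.PR) hsK hs2 hs1 (fun x hx => mem_sP hsK hbK hx)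
  have hbR : b ∈ closure {u ^ p ^ (k - 1), b} := mem_pair_right _ _
  have h4 := congrFun (cj_p_sq hG hp5 (K := closure {u ^ p ^ (k - 1), b}) rfl
    (h.nzR hG hp5 hg hgp) hμ) b
  have hμb : μ b = 0 := (hker b hbR).2 hbK
  have hgbK : (g ^ p)⁻¹ * b * g ^ p ∈ K := by
    rw [hKmem]
    refine ⟨(h.nor' hgp).conj h.hb, ?_⟩
    rw [← cj_apply (g ^ p) lam b, hgl, hlb]
  have hμg : cj (g ^ p) μ b = 0 := by
    rw [cj_apply]
    exact (hker _ (h.PR (hKP hgbK))).2 hgbK
  rw [hμg, Pi.add_apply, hμb, zero_add, Pi.smul_apply, dif, Pi.sub_apply, hμb, sub_zero,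
    cj_apply] at h4
  obtain ⟨i, w, hw, hiw⟩ := mem_sP hsK hbK hA2
  rw [hiw, hval i w hw, nsmul_eq_mul] at h4
  have h5 : ((p * i : ℤ) : ZMod (p ^ 2)) = 0 := by push_cast; exact h4.symm
  rw [ZMod.intCast_zmod_eq_zero_iff_dvd] at h5
  have h6 : ((p : ℤ) * p) ∣ p * i := by
    have h7 : ((p : ℤ) * p) = ((p ^ 2 : ℕ) : ℤ) := by push_cast; ring
    rw [h7]; exact h5
  obtain ⟨e', rfl⟩ := Int.dvd_of_mul_dvd_mul_left (Int.natCast_ne_zero.mpr hp.out.ne_zero) h6
  apply hA1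
  rw [hiw]
  refine P.mul_mem ?_ (hKP hw)
  rw [zpow_mul, zpow_natCast, h.sp]
  exact P.zpow_mem haP e'

/-- the tower step -/
theorem tower_step [Finite G] (hG : IsPGroup p G) (hp5 : 5 ≤ p) (h : Cfg p P N u b k)
    (hNtop : N ≠ ⊤) : ∃ (g : G) (k' : ℕ), Cfg p N (Nor N) g b k' := by
  classical
  have hlt := lt_Nor hG hNtop
  obtain ⟨g, hg, hgen⟩ := h.cyc hG hp5
  have hbN : b ∈ N := h.hPN h.hb
  have hex : ∃ k : ℕ, g ^ p ^ k ∈ N := by
    obtain ⟨n, hn⟩ := isPGroup_iff_pow_pow_eq_one.mp hG g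
    exact ⟨n, by rw [hn]; exact N.one_mem⟩
  set k' := Nat.find hex with hk'
  have hgk : g ^ p ^ k' ∈ N := Nat.find_spec hex
  have hk0 : k' ≠ 0 := by
    intro h0
    rw [h0, pow_zero, pow_one] at hgk
    apply hlt.not_ge
    intro x hx
    obtain ⟨j, z, hz, hj⟩ := hgen x hx
    rw [hj]
    exact N.mul_mem (N.zpow_mem hgk j) hz
  have hgk' : g ^ p ^ (k' - 1) ∉ N := Nat.find_min hex (by omega)
  have hgp' : (g ^ p ^ (k' - 1)) ^ p = g ^ p ^ k' := by
    rw [← pow_mul, ← pow_succ, Nat.sub_add_cancel (by omega)]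
  have hgp : (g ^ p ^ (k' - 1)) ^ p ∈ N := by rw [hgp']; exact hgk
  have hgn : Nz (g ^ p ^ (k' - 1)) N := hg.pow _
  have hncN : zpowers b ≠ N := by
    intro h0
    have h1 : N ≤ P := by
      rw [← h0, Subgroup.zpowers_le]; exact h.hb
    exact h.hnc (h0.trans (le_antisymm h1 h.hPN))
  have hfin : N ≤ closure {g, b} → (k' = 1 ∨ closure {g ^ p ^ k', b} = N) →
      Cfg p N (Nor N) g b k' := by
    intro h1 h2
    refine ⟨by omega, ?_, hbN, le_Nor N, rfl, hgk, hgk', h2, hncN⟩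
    apply le_antisymm
    · exact closure_pair_le hg (le_Nor N hbN)
    · intro z hz
      obtain ⟨j, w, hw, hj⟩ := hgen z hz
      rw [hj]
      exact Subgroup.mul_mem _ (Subgroup.zpow_mem _ (mem_pair_left g b) j) (h1 hw)
  refine ⟨g, k', ?_⟩
  by_cases hk1 : k = 1
  · -- `R = N`
    obtain ⟨-, -, h3⟩ := h.genR hG hp5 hgn hgp hgk'
    rw [hk1] at h3
    simp only [Nat.sub_self, pow_zero, pow_one] at h3
    rw [h.hN] at h3
    apply hfin
    · apply h3.trans
      exact closure_pair_le (Subgroup.pow_mem _ (mem_pair_left _ _) _) (mem_pair_right _ _)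
    · left
      have hcN : Nat.card N = p * Nat.card P := by
        have := h.cardR hG
        rw [hk1] at this
        simp only [Nat.sub_self, pow_zero, pow_one] at this
        rwa [h.hN] at this
      obtain ⟨f, hf, hfk⟩ := exists_char_ker hG h.hPN hcN
      have h4 : cj (g ^ p) f = f := by
        rw [cj_p_one hG (by omega) h.hN hg hf p]
        have : p • dif g f = 0 := by ext z; simp
        rw [this, add_zero]
      have h5 : Nz (g ^ p) P := by
        have hPmem : ∀ x, x ∈ P ↔ x ∈ N ∧ f x = 0 := by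
          intro x
          constructor
          · intro hx
            exact ⟨h.hPN hx, (hfk x (h.hPN hx)).2 hx⟩
          · rintro ⟨hx, h0⟩
            exact (hfk x hx).1 h0
        intro x
        rw [hPmem, hPmem, ← (hg.pow p) x, ← cj_apply _ f x, h4]
      have h6 : g ^ p ^ 1 ∈ N := by rw [pow_one]; exact h.nor h5
      have h7 := Nat.find_min' hex h6
      omega
  · have hk2 : 2 ≤ k := by have := h.hk; omega
    have h1 := h.genN hG hp5 hk2 hgn hgp hgk'
    rw [hgp'] at h1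
    apply hfin
    · rw [← h1]
      exact closure_pair_le (Subgroup.pow_mem _ (mem_pair_left _ _) _) (mem_pair_right _ _)
    · exact Or.inr h1

/-- the group is two generated -/
theorem two_gen [Finite G] (hG : IsPGroup p G) (hp5 : 5 ≤ p) : ∀ (n : ℕ) (P N : Subgroup G)
    (u b : G) (k : ℕ), Cfg p P N u b k → Nat.card G - Nat.card N = n →
    ∃ x y : G, closure {x, y} = ⊤ := by
  intro n
  induction n using Nat.strong_induction_on with
  | _ n IH =>
  intro P N u b k h hn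
  by_cases hN : N = ⊤
  · exact ⟨u, b, by rw [h.hN, hN]⟩
  obtain ⟨g, k', h'⟩ := tower_step hG hp5 h hN
  have h1 := card_lt (lt_Nor hG hN)
  have h2 : Nat.card (Nor N) ≤ Nat.card G := Subgroup.card_le_card_group _
  exact IH (Nat.card G - Nat.card (Nor N)) (by omega) N (Nor N) g b k' h' rfl

/-- exceptional pairs exist only in two generated groups -/
theorem two_gen_of_star [Finite G] (hG : IsPGroup p G) (hp5 : 5 ≤ p) {P R : Subgroup G}
    (hPR : P ≤ R) (hc : Nat.card R = p * Nat.card P) {x y : G} (hR : closure {x, y} = R)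
    (hstar : ∀ x y : G, P < closure {x, y} → R ≤ closure {x, y})
    (hncP : ∀ z : G, zpowers z ≠ P) : ∃ x y : G, closure {x, y} = ⊤ := by
  obtain ⟨u, b, k, h⟩ := first_step hG hp5 hPR hc hR hstar hncP
  exact two_gen hG hp5 _ _ _ _ _ _ h rfl

end Tower

end Pool.Agent.Sigma57
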